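import Mathlib

/-! Convolution of radially non-increasing functions. -/

open MeasureTheory Filter Topology
open scoped RealInnerProductSpace

namespace Pool.Agent.Lib.MP_dec75e_mp.SE

variable {E : Type*} [NormedAddCommGroup E] [InnerProductSpace ℝ E] [FiniteDimensional ℝ E]
  [MeasurableSpace E] [BorelSpace E]

/-- convolution -/
noncomputable def cv (a b : E → ℝ) (x : E) : ℝ := ∫ y, a y * b (x - y)

/-- radially non-increasing -/
def RD (a : E → ℝ) : Prop := ∀ x y : E, ‖x‖ ≤ ‖y‖ → a y ≤ a x

/-- radially non-increasing away from the origin -/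
def RD0 (a : E → ℝ) : Prop := ∀ x y : E, x ≠ 0 → ‖x‖ ≤ ‖y‖ → a y ≤ a x

/-- bounded and measurable -/
def BM (a : E → ℝ) : Prop := Measurable a ∧ ∃ C, ∀ x, |a x| ≤ C

omit [InnerProductSpace ℝ E] [FiniteDimensional ℝ E] [MeasurableSpace E] [BorelSpace E] in
theorem RD.eq {a : E → ℝ} (h : RD a) {x y : E} (e : ‖x‖ = ‖y‖) : a x = a y :=
  le_antisymm (h y x e.ge) (h x y e.le)

omit [FiniteDimensional ℝ E] in
theorem RD.measurable [Nontrivial E] {a : E → ℝ} (h : RD a) : Measurable a := by
  obtain ⟨e, he⟩ := exists_norm_eq E (zero_le_one (α := ℝ))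
  have h1 : Antitone fun r : ℝ => a (max r 0 • e) := by
    intro r s hrs
    apply h
    rw [norm_smul, norm_smul, he, Real.norm_of_nonneg (le_max_right _ _),
      Real.norm_of_nonneg (le_max_right _ _)]
    have := max_le_max_right 0 hrs
    linarith
  have h2 : a = (fun r : ℝ => a (max r 0 • e)) ∘ fun x => ‖x‖ := by
    funext x
    apply h.eq
    simp [norm_smul, he]
  rw [h2]
  exact h1.measurable.comp measurable_norm

omit [NormedAddCommGroup E] [InnerProductSpace ℝ E] [FiniteDimensional ℝ E] [BorelSpace E] in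
theorem BM.of_bounds {a : E → ℝ} (m : Measurable a) {C : ℝ} (h0 : ∀ x, 0 ≤ a x)
    (h1 : ∀ x, a x ≤ C) : BM a :=
  ⟨m, C, fun x => by rw [abs_of_nonneg (h0 x)]; exact h1 x⟩

theorem BM.int_mul {a b : E → ℝ} (hb : BM b) (ha : Integrable a) :
    Integrable fun y => a y * b y := by
  obtain ⟨m, C, hC⟩ := hb
  exact ha.mul_bdd m.aestronglyMeasurable (Eventually.of_forall fun y => hC y)

theorem BM.mul_int {a b : E → ℝ} (hb : BM b) (ha : Integrable a) :
    Integrable fun y => b y * a y := by
  simpa only [mul_comm] using hb.int_mul ha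

omit [InnerProductSpace ℝ E] in
theorem BM.shift [SecondCountableTopology E] {b : E → ℝ} (hb : BM b) (x : E) :
    BM fun y => b (x - y) := by
  obtain ⟨m, C, hC⟩ := hb
  exact ⟨m.comp (measurable_const.sub measurable_id), C, fun y => hC _⟩

theorem BM.int_cv {a b : E → ℝ} (hb : BM b) (ha : Integrable a) (x : E) :
    Integrable fun y => a y * b (x - y) := (hb.shift x).int_mul ha

theorem cv_comm (a b : E → ℝ) : cv a b = cv b a := by
  funext x
  unfold cv
  rw [← integral_sub_left_eq_self (fun y => a y * b (x - y)) volume x]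
  simp [mul_comm]

theorem integrable_cv {a b : E → ℝ} (ha : Integrable a) (hb : Integrable b) :
    Integrable (cv a b) :=
  ha.integrable_convolution (ContinuousLinearMap.mul ℝ ℝ) hb

theorem integral_cv {a b : E → ℝ} (ha : Integrable a) (hb : Integrable b) :
    ∫ x, cv a b x = (∫ x, a x) * ∫ x, b x :=
  integral_convolution (ContinuousLinearMap.mul ℝ ℝ) ha hb

theorem measurable_cv {a b : E → ℝ} (ha : Measurable a) (hb : Measurable b) :
    Measurable (cv a b) := by
  have : Measurable fun p : E × E => a p.2 * b (p.1 - p.2) :=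
    (ha.comp measurable_snd).mul (hb.comp (measurable_fst.sub measurable_snd))
  exact (this.stronglyMeasurable.integral_prod_right' (ν := volume)).measurable

theorem cv_congr {K b b' : E → ℝ} (h : b =ᵐ[volume] b') : cv K b = cv K b' := by
  rw [cv_comm K b, cv_comm K b']
  funext x
  apply integral_congr_ae
  filter_upwards [h] with y hy
  rw [hy]

theorem cv_mono {K b b' : E → ℝ} (hK : Integrable K) (h0 : ∀ x, 0 ≤ K x) (hb : BM b) (hb' : BM b')
    (h : ∀ x, b x ≤ b' x) (x : E) : cv K b x ≤ cv K b' x :=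
  integral_mono (hb.int_cv hK x) (hb'.int_cv hK x) fun y =>
    mul_le_mul_of_nonneg_left (h _) (h0 y)

theorem cv_nonneg {K b : E → ℝ} (h0 : ∀ x, 0 ≤ K x) (h : ∀ x, 0 ≤ b x) (x : E) :
    0 ≤ cv K b x := integral_nonneg fun y => mul_nonneg (h0 y) (h _)

theorem cv_le {K b : E → ℝ} (hK : Integrable K) (h0 : ∀ x, 0 ≤ K x) (hb : BM b) {C : ℝ}
    (h : ∀ x, b x ≤ C) (x : E) : cv K b x ≤ (∫ y, K y) * C := by
  rw [← integral_mul_const]
  exact integral_mono (hb.int_cv hK x) (hK.mul_const C) fun y =>
    mul_le_mul_of_nonneg_left (h _) (h0 y)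

/-- duality for an even kernel -/
theorem cv_dual {K p q : E → ℝ} (hK : Integrable K) (he : ∀ x, K (-x) = K x) (hp : BM p)
    (hq : Integrable q) : ∫ x, p x * cv K q x = ∫ x, cv K p x * q x := by
  rw [cv_comm K q, cv_comm K p]
  obtain ⟨m, C, hC⟩ := hp
  have h1 : Integrable (fun z : E × E => q z.2 * K (z.1 - z.2)) (volume.prod volume) :=
    hq.convolution_integrand (ContinuousLinearMap.mul ℝ ℝ) hK
  have h2 : Integrable (fun z : E × E => q z.2 * K (z.1 - z.2) * p z.1) (volume.prod volume) :=
    h1.mul_bdd (m.comp measurable_fst).aestronglyMeasurable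
      (Eventually.of_forall fun z => hC z.1)
  have h3 := integral_integral_swap (f := fun x y : E => q y * K (x - y) * p x) h2
  unfold cv
  simp_rw [← integral_const_mul, ← integral_mul_const]
  calc _ = ∫ x, ∫ y, q y * K (x - y) * p x := by
        congr with x; congr with y; ring
    _ = _ := by
        rw [h3]
        congr with y; congr with x
        rw [← he (y - x), neg_sub]; ring

theorem cv_tendsto {K b : E → ℝ} {bn : ℕ → E → ℝ} (hK : Integrable K)
    (hm : ∀ n, Measurable (bn n)) {C : ℝ} (hC : ∀ n x, |bn n x| ≤ C)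
    (hl : ∀ x, Tendsto (fun n => bn n x) atTop (𝓝 (b x))) (x : E) :
    Tendsto (fun n => cv K (bn n) x) atTop (𝓝 (cv K b x)) := by
  refine tendsto_integral_of_dominated_convergence (fun y => ‖K y‖ * C) (fun n => ?_)
    (hK.norm.mul_const C) (fun n => Eventually.of_forall fun y => ?_)
    (Eventually.of_forall fun y => (hl _).const_mul _)
  · exact (BM.int_cv ⟨hm n, C, hC n⟩ hK x).aestronglyMeasurable
  · rw [norm_mul]
    exact mul_le_mul_of_nonneg_left (hC n _) (norm_nonneg _)

omit [InnerProductSpace ℝ E] [FiniteDimensional ℝ E] [MeasurableSpace E] [BorelSpace E] in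
theorem nle {x y : E} (h : ‖x‖ ^ 2 ≤ ‖y‖ ^ 2) : ‖x‖ ≤ ‖y‖ :=
  (pow_le_pow_iff_left₀ (norm_nonneg _) (norm_nonneg _) two_ne_zero).1 h

theorem isub {f g : E → ℝ} (hf : Integrable f) (hg : Integrable g) :
    Integrable fun x => f x - g x := hf.sub hg

theorem iadd {f g : E → ℝ} (hf : Integrable f) (hg : Integrable g) :
    Integrable fun x => f x + g x := hf.add hg

/-- the convolution of two radially non-increasing functions is radially non-increasing -/
theorem RD0.cv [Nontrivial E] {a b : E → ℝ} (ha : RD0 a) (hb : RD b) (hi : Integrable a)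
    (hB : BM b) : RD (cv a b) := by
  intro x y hxy
  by_cases hne : y = x
  · rw [hne]
  set n := y - x with hn
  have hn0 : n ≠ 0 := sub_ne_zero.2 hne
  have hnp : 0 < ‖n‖ ^ 2 := by positivity
  let R : E ≃ₗᵢ[ℝ] E := (ℝ ∙ n).reflection
  let σ : E → E := fun z => y - R (z - x)
  have hσ : MeasurePreserving σ volume volume :=
    (Measure.measurePreserving_sub_left volume y).comp
      (R.measurePreserving.comp (measurePreserving_sub_right volume x))
  have hemb : MeasurableEmbedding σ :=
    (measurableEmbedding_subLeft y).comp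
      (R.toHomeomorph.measurableEmbedding.comp (measurableEmbedding_subRight x))
  have hform : ∀ z, σ z = z + (1 - 2 * (⟪n, z - x⟫ / ‖n‖ ^ 2)) • n := by
    intro z
    simp only [σ, R, Submodule.reflection_singleton_apply]
    have : y = x + n := by simp [hn]
    rw [sub_smul, one_smul, mul_smul, two_smul, two_smul]
    simp only [RCLike.ofReal_real_eq_id, id_eq]
    rw [this]
    abel
  have e1 : ∀ z, ‖y - σ z‖ = ‖x - z‖ := by
    intro z
    simp only [σ, sub_sub_cancel, LinearIsometryEquiv.norm_map]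
    exact norm_sub_rev _ _
  have e2 : ∀ z, ‖x - σ z‖ = ‖y - z‖ := by
    intro z
    have hR : R n = n := Submodule.reflection_mem_subspace_eq_self (Submodule.mem_span_singleton_self n)
    have : x - σ z = R (z - y) := by
      have : z - y = (z - x) - n := by simp [hn]
      rw [this, map_sub, hR]
      simp only [σ, hn]
      abel
    rw [this, LinearIsometryEquiv.norm_map]
    exact norm_sub_rev _ _
  have key : ∀ z, z ≠ 0 → σ z ≠ 0 → 0 ≤ (a z - a (σ z)) * (b (x - z) - b (y - z)) := by
    intro z hz hσz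
    set s := 1 - 2 * (⟪n, z - x⟫ / ‖n‖ ^ 2) with hs
    have hs' : s * ‖n‖ ^ 2 = ‖n‖ ^ 2 - 2 * ⟪n, z - x⟫ := by
      rw [hs]; field_simp
    have q1 : ‖y - z‖ ^ 2 = ‖x - z‖ ^ 2 + s * ‖n‖ ^ 2 := by
      have : y - z = n - (z - x) := by simp [hn]
      rw [this, norm_sub_sq_real, hs', norm_sub_rev x z]; ring
    have q0 : ‖y‖ ^ 2 = ‖x‖ ^ 2 + 2 * ⟪n, x⟫ + ‖n‖ ^ 2 := by
      have : y = x + n := by simp [hn]
      rw [this, norm_add_sq_real, real_inner_comm]
    have q2 : ‖σ z‖ ^ 2 = ‖z‖ ^ 2 + s * (‖y‖ ^ 2 - ‖x‖ ^ 2) := by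
      rw [hform z, ← hs, norm_add_sq_real, inner_smul_right, norm_smul, mul_pow, Real.norm_eq_abs,
        sq_abs, q0, real_inner_comm]
      rw [inner_sub_right] at hs'
      linear_combination s * hs'
    have q3 : 0 ≤ ‖y‖ ^ 2 - ‖x‖ ^ 2 := by nlinarith [norm_nonneg x]
    rcases le_total 0 s with h | h
    · apply mul_nonneg
      · exact sub_nonneg.2 (ha _ _ hz (nle (by nlinarith [mul_nonneg h q3])))
      · exact sub_nonneg.2 (hb _ _ (nle (by nlinarith [mul_nonneg h hnp.le])))
    · apply mul_nonneg_of_nonpos_of_nonpos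
      · exact sub_nonpos.2 (ha _ _ hσz
          (nle (by nlinarith [mul_nonneg (neg_nonneg.2 h) q3])))
      · exact sub_nonpos.2 (hb _ _
          (nle (by nlinarith [mul_nonneg (neg_nonneg.2 h) hnp.le])))
  have i1 : Integrable fun z => a z * (b (x - z) - b (y - z)) := by
    simpa only [mul_sub] using isub (hB.int_cv hi x) (hB.int_cv hi y)
  have i2 : Integrable fun z => a (σ z) * (b (x - σ z) - b (y - σ z)) :=
    (hσ.integrable_comp_emb hemb).2 i1
  have i3 := hσ.integral_comp hemb fun z => a z * (b (x - z) - b (y - z))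
  have i4 : 0 ≤ ∫ z, (a z * (b (x - z) - b (y - z)) + a (σ z) * (b (x - σ z) - b (y - σ z))) := by
    apply integral_nonneg_of_ae
    have a0 : ∀ᵐ z : E, z ≠ 0 := compl_mem_ae_iff.2 (measure_singleton 0)
    filter_upwards [a0, hσ.quasiMeasurePreserving.ae a0] with z hz hσz
    have := key z hz hσz
    simp only [Pi.zero_apply]
    rw [hb.eq (e1 z), hb.eq (e2 z)]
    linarith
  rw [integral_add i1 i2, i3] at i4
  simp_rw [mul_sub] at i4
  rw [integral_sub (hB.int_cv hi x) (hB.int_cv hi y)] at i4
  unfold SE.cv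
  linarith

theorem RD.cv [Nontrivial E] {a b : E → ℝ} (ha : RD a) (hb : RD b) (hi : Integrable a)
    (hB : BM b) : RD (cv a b) := RD0.cv (fun x y _ h => ha x y h) hb hi hB

/-- positivity of the Dirichlet form on radially non-increasing functions -/
theorem dirichlet {K a u : E → ℝ} (hK : Integrable K) (h0 : ∀ x, 0 ≤ K x)
    (he : ∀ x, K (-x) = K x) (ha : RD a) (hu : RD u) (hA : BM a) (hU : BM u) (hi : Integrable u) :
    ∫ x, cv K a x * u x ≤ (∫ x, K x) * ∫ x, a x * u x := by
  have hau : BM fun x => a x * u x := by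
    obtain ⟨m, C, hC⟩ := hA
    obtain ⟨m', C', hC'⟩ := hU
    refine ⟨m.mul m', C * C', fun x => ?_⟩
    rw [abs_mul]
    exact mul_le_mul (hC x) (hC' x) (abs_nonneg _) ((abs_nonneg _).trans (hC x))
  have iau : Integrable fun x => a x * u x := hA.mul_int hi
  have pt : ∀ x, 0 ≤ (∫ y, K y) * (a x * u x) - a x * cv K u x - cv K a x * u x
      + cv K (fun x => a x * u x) x := by
    intro x
    have : 0 ≤ ∫ y, (K y * (a x * u x) - a x * (K y * u (x - y)) - K y * a (x - y) * u x
        + K y * (a (x - y) * u (x - y))) := by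
      apply integral_nonneg
      intro y
      have : 0 ≤ (a x - a (x - y)) * (u x - u (x - y)) := by
        rcases le_total ‖x‖ ‖x - y‖ with h | h
        · exact mul_nonneg (sub_nonneg.2 (ha _ _ h)) (sub_nonneg.2 (hu _ _ h))
        · exact mul_nonneg_of_nonpos_of_nonpos (sub_nonpos.2 (ha _ _ h)) (sub_nonpos.2 (hu _ _ h))
      have := mul_nonneg (h0 y) this
      simp only [Pi.zero_apply]
      linarith
    have j1 := hK.mul_const (a x * u x)
    have j2 := (hU.int_cv hK x).const_mul (a x)
    have j3 := (hA.int_cv hK x).mul_const (u x)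
    have j4 := hau.int_cv hK x
    rw [integral_add (isub (isub j1 j2) j3) j4, integral_sub (isub j1 j2) j3, integral_sub j1 j2,
      integral_mul_const, integral_const_mul, integral_mul_const] at this
    exact this
  have hKa : BM (cv K a) := by
    obtain ⟨m, C, hC⟩ := hA
    have hm : AEStronglyMeasurable K volume := hK.aestronglyMeasurable
    refine ⟨?_, (∫ y, K y) * C, fun x => ?_⟩
    · have : cv K a = cv a (hm.mk K) := by rw [cv_comm]; exact cv_congr hm.ae_eq_mk
      rw [this]
      exact measurable_cv m hm.stronglyMeasurable_mk.measurable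
    · rw [← integral_mul_const]
      refine (abs_integral_le_integral_abs).trans (integral_mono ?_ (hK.mul_const C) fun y => ?_)
      · exact (BM.int_cv ⟨m, C, hC⟩ hK x).abs
      · simp only [abs_mul, abs_of_nonneg (h0 y)]
        exact mul_le_mul_of_nonneg_left (hC _) (h0 y)
  have j1 := iau.const_mul (∫ y, K y)
  have j2 := hA.mul_int (integrable_cv hK hi)
  have j3 := hKa.mul_int hi
  have j4 := integrable_cv hK iau
  have : 0 ≤ ∫ x, ((∫ y, K y) * (a x * u x) - a x * cv K u x - cv K a x * u x
      + cv K (fun x => a x * u x) x) := integral_nonneg pt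
  rw [integral_add (isub (isub j1 j2) j3) j4, integral_sub (isub j1 j2) j3, integral_sub j1 j2,
    integral_const_mul, integral_cv hK iau, cv_dual hK he hA hi] at this
  linarith

end Pool.Agent.Lib.MP_dec75e_mp.SE
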