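import Pool.Agent.Lib.MP_dec75e_mp.SE.GBase

/-! General potentials: solutions of the adjoint linear equation and the pairing lemma. -/

open MeasureTheory Filter Topology

namespace Pool.Agent.Lib.MP_dec75e_mp.SE

variable {E : Type*} [NormedAddCommGroup E] [InnerProductSpace ℝ E] [FiniteDimensional ℝ E]
  [MeasurableSpace E] [BorelSpace E]

/-- bounded measurable potential -/
structure Pot1 (V : E → ℝ) (m : ℝ) : Prop where
  meas : Measurable V
  nn : ∀ x, 0 ≤ V x
  le : ∀ x, V x ≤ m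

omit [NormedAddCommGroup E] [InnerProductSpace ℝ E] [FiniteDimensional ℝ E] [BorelSpace E] in
theorem Pot1.bm {V : E → ℝ} {m : ℝ} (h : Pot1 V m) : BM V := BM.of_bounds h.meas h.nn h.le

omit [NormedAddCommGroup E] [InnerProductSpace ℝ E] [FiniteDimensional ℝ E] [BorelSpace E] in
theorem Pot1.bm' {V : E → ℝ} {m : ℝ} (h : Pot1 V m) : BM fun x => m - V x :=
  (BM.const m).sub h.bm

/-- source of the adjoint equation -/
noncomputable def asrc (m : ℝ) (G V R p : E → ℝ) (y : E) : ℝ :=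
  (m - V y) * p y + cv (rf G) p y + R y

/-- solution of the adjoint equation -/
structure Adj (Y : E → ℝ) (m : ℝ) (G V R p : E → ℝ) : Prop where
  bm : BM p
  nn : ∀ x, 0 ≤ p x
  eq : ∀ x, p x = cv Y (asrc m G V R p) x

variable {Y G V R p q : E → ℝ} {μ m κ C : ℝ}

theorem asrc_bm (hG : NI G) (hV : Pot1 V m) (hR : BM R) (hp : BM p) : BM (asrc m G V R p) :=
  ((hV.bm'.mul hp).add (hp.cv hG.rf.int hG.rf.meas)).add hR

theorem asrc_nn (hG : NI G) (hV : Pot1 V m) (R0 : ∀ x, 0 ≤ R x) (p0 : ∀ x, 0 ≤ p x) (y : E) :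
    0 ≤ asrc m G V R p y :=
  add_nonneg (add_nonneg (mul_nonneg (sub_nonneg.2 (hV.le y)) (p0 y)) (cv_nonneg hG.rf.nn p0 y))
    (R0 y)

theorem asrc_int (hG : NI G) (hV : Pot1 V m) (hR : Integrable R) (hp : Integrable p) :
    Integrable (asrc m G V R p) :=
  iadd (iadd (hV.bm'.mul_int hp) (integrable_cv hG.rf.int hp)) hR

theorem asrc_integral (hG : NI G) (hV : Pot1 V m) (hR : Integrable R) (hp : Integrable p) :
    ∫ y, asrc m G V R p y
      = (m + ∫ y, G y) * (∫ y, p y) - (∫ y, V y * p y) + ∫ y, R y := by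
  unfold asrc
  rw [integral_add (iadd (hV.bm'.mul_int hp) (integrable_cv hG.rf.int hp)) hR,
    integral_add (hV.bm'.mul_int hp) (integrable_cv hG.rf.int hp), integral_cv hG.rf.int hp,
    rf_integral]
  simp_rw [sub_mul]
  rw [integral_sub (hp.const_mul m) (hV.bm.mul_int hp), integral_const_mul]
  ring

theorem asrc_sub_le (hG : NI G) (hV : Pot1 V m) (hp : BM p) (hq : BM q) {D : ℝ} (hD : 0 ≤ D)
    (h : ∀ x, p x - q x ≤ D) (y : E) :
    asrc m G V R p y - asrc m G V R q y ≤ (m + ∫ y, G y) * D := by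
  have h1 := cv_le hG.rf.int hG.rf.nn (hp.sub hq) h y
  rw [cv_sub hG.rf.int hp hq, rf_integral] at h1
  have h2 := mul_le_mul_of_nonneg_left (h y) (sub_nonneg.2 (hV.le y))
  have h3 := mul_nonneg (hV.nn y) hD
  unfold asrc
  linarith

theorem exists_adj (hY : Ker Y μ) (hG : NI G) (hV : Pot1 V m) (mR : Measurable R)
    (R0 : ∀ x, 0 ≤ R x) (RC : ∀ x, R x ≤ κ * C) (hκ : 0 < κ) (hC : 0 ≤ C)
    (hm : m + (∫ y, G y) + κ = μ) :
    ∃ p, Adj Y m G V R p ∧ (∀ x, p x ≤ C) ∧ (Integrable R → Integrable p) := by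
  have hμ := hY.pos
  have hR : BM R := BM.of_bounds mR R0 RC
  have m0 : 0 ≤ m + ∫ y, G y := add_nonneg ((hV.nn 0).trans (hV.le 0)) (integral_nonneg hG.nn)
  have le : ∀ p : E → ℝ, BM p → (∀ x, p x ≤ C) → ∀ y, asrc m G V R p y ≤ μ * C := by
    intro p hp h y
    have h1 := asrc_sub_le (R := R) hG hV hp (BM.const 0) hC (fun x => by simpa using h x) y
    have h2 : asrc m G V R (fun _ => 0) y = R y := by simp [asrc, cv]
    have := RC y
    rw [← hm]
    linarith
  let Φ : (E → ℝ) → E → ℝ := fun p => cv Y (asrc m G V R p)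
  let P : (E → ℝ) → Prop := fun p => Measurable p ∧ (∀ x, 0 ≤ p x) ∧ (∀ x, p x ≤ C) ∧
    (Integrable R → Integrable p ∧ ∫ y, p y ≤ (∫ y, R y) / κ)
  have bP : ∀ p, P p → BM p := fun p h => BM.of_bounds h.1 h.2.1 h.2.2.1
  have step : ∀ p, P p → P (Φ p) := by
    intro p h
    have hb := asrc_bm hG hV hR (bP p h)
    refine ⟨measurable_cv hY.meas hb.1, cv_nonneg hY.nn (asrc_nn hG hV R0 h.2.1), fun x => ?_,
      fun iR => ?_⟩
    · refine (cv_le hY.int hY.nn hb (le p (bP p h) h.2.2.1) x).trans_eq ?_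
      rw [hY.mass, ← mul_assoc, inv_mul_cancel₀ hμ.ne', one_mul]
    · obtain ⟨ip, h4⟩ := h.2.2.2 iR
      have hi := asrc_int hG hV iR ip
      refine ⟨integrable_cv hY.int hi, ?_⟩
      have h5 : ∫ y, Φ p y = _ := integral_cv hY.int hi
      rw [h5, hY.mass, asrc_integral hG hV iR ip, inv_mul_le_iff₀ hμ]
      have h6 : 0 ≤ ∫ y, V y * p y := integral_nonneg fun y => mul_nonneg (hV.nn y) (h.2.1 y)
      have h7 := mul_le_mul_of_nonneg_left h4 m0
      have h8 : κ * ((∫ y, R y) / κ) = ∫ y, R y := by field_simp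
      rw [← hm]
      linarith
  let W : ℕ → E → ℝ := fun n => Φ^[n] 0
  have Ws : ∀ n, W (n + 1) = Φ (W n) := fun n => Function.iterate_succ_apply' _ _ _
  have PW : ∀ n, P (W n) := by
    intro n
    induction n with
    | zero =>
      refine ⟨measurable_const, fun _ => le_rfl, fun _ => hC, fun _ => ⟨integrable_zero _ _ _, ?_⟩⟩
      simpa [W] using div_nonneg (integral_nonneg R0) hκ.le
    | succ n ih => rw [Ws]; exact step _ ih
  have mono : ∀ n x, W n x ≤ W (n + 1) x := by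
    intro n
    induction n with
    | zero => exact (PW 1).2.1
    | succ n ih =>
      intro x
      rw [Ws (n + 1)]
      conv_lhs => rw [Ws n]
      refine cv_mono hY.int hY.nn (asrc_bm hG hV hR (bP _ (PW n)))
        (asrc_bm hG hV hR (bP _ (PW (n + 1)))) (fun y => ?_) x
      have := asrc_sub_le (R := R) hG hV (bP _ (PW n)) (bP _ (PW (n + 1))) le_rfl
        (fun x => sub_nonpos.2 (ih x)) y
      linarith
  obtain ⟨S, mS, S0, SC, -, lim, hi⟩ := mono_lim (fun n => (PW n).1) (fun n => (PW n).2.1)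
    (fun n => (PW n).2.2.1) mono
  refine ⟨S, ⟨BM.of_bounds mS S0 SC, S0, fun x => ?_⟩, SC, fun iR =>
    (hi _ (fun n => ((PW n).2.2.2 iR).1) fun n => ((PW n).2.2.2 iR).2).1⟩
  have l1 : Tendsto (fun n => W (n + 1) x) atTop (𝓝 (S x)) :=
    (lim x).comp (tendsto_add_atTop_nat 1)
  have l2 : Tendsto (fun n => cv Y (asrc m G V R (W n)) x) atTop
      (𝓝 (cv Y (asrc m G V R S) x)) := by
    refine cv_tendsto hY.int (fun n => (asrc_bm hG hV hR (bP _ (PW n))).1) (C := μ * C)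
      (fun n y => ?_) (fun y => ?_) x
    · rw [abs_of_nonneg (asrc_nn hG hV R0 (PW n).2.1 y)]
      exact le _ (bP _ (PW n)) (PW n).2.2.1 y
    · have := cv_tendsto hG.rf.int (fun n => (PW n).1) (C := C) (fun n z => by
        rw [abs_of_nonneg ((PW n).2.1 z)]; exact (PW n).2.2.1 z) lim y
      exact (((lim y).const_mul _).add this).add_const _
  simp_rw [Ws] at l1
  exact tendsto_nhds_unique l1 l2

theorem Adj.le (hY : Ker Y μ) (hG : NI G) (hV : Pot1 V m) (hR : BM R) (hκ : 0 < κ)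
    (hm : m + (∫ y, G y) + κ = μ) (hp : Adj Y m G V R p) (hq : Adj Y m G V R q) (x : E) :
    p x ≤ q x := by
  have hμ := hY.pos
  have m0 : 0 ≤ m + ∫ y, G y := add_nonneg ((hV.nn 0).trans (hV.le 0)) (integral_nonneg hG.nn)
  obtain ⟨-, D, hD⟩ := hp.bm.sub hq.bm
  have D0 : 0 ≤ D := (abs_nonneg _).trans (hD 0)
  set r := μ⁻¹ * (m + ∫ y, G y) with hr
  have r0 : 0 ≤ r := by positivity
  have r1 : r < 1 := by rw [hr, inv_mul_lt_iff₀ hμ]; linarith
  have key : ∀ n : ℕ, ∀ x, p x - q x ≤ r ^ n * D := by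
    intro n
    induction n with
    | zero => intro x; simpa using (le_abs_self _).trans (hD x)
    | succ n ih =>
      intro x
      have b1 := asrc_bm hG hV hR hp.bm
      have b2 := asrc_bm hG hV hR hq.bm
      rw [hp.eq x, hq.eq x, ← cv_sub hY.int b1 b2]
      refine (cv_le hY.int hY.nn (b1.sub b2)
        (asrc_sub_le hG hV hp.bm hq.bm (by positivity) ih) x).trans_eq ?_
      rw [hY.mass, pow_succ, hr]
      ring
  have l := (tendsto_pow_atTop_nhds_zero_of_lt_one r0 r1).mul_const D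
  rw [zero_mul] at l
  exact sub_nonpos.1 (ge_of_tendsto' l fun n => key n x)

theorem Adj.pair (hY : Ker Y μ) (hG : NI G) (hV : Pot1 V m) (hR : BM R) (R0 : ∀ x, 0 ≤ R x)
    (hp : Adj Y m G V R p) {φ F : E → ℝ} (iφ : Integrable φ) (iF : Integrable F)
    (h : φ ≤ᵐ[volume] cv Y fun y => (m - V y) * φ y + cv G φ y + F y) :
    ∫ x, R x * φ x ≤ ∫ x, p x * F x := by
  have bS := asrc_bm hG hV hR hp.bm
  have j1 := hV.bm'.mul_int iφ
  have j2 := integrable_cv hG.int iφ
  have iT := iadd (iadd j1 j2) iF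
  have h1 : ∫ x, asrc m G V R p x * φ x
      ≤ ∫ x, asrc m G V R p x * cv Y (fun y => (m - V y) * φ y + cv G φ y + F y) x :=
    integral_mono_ae (bS.mul_int iφ) (bS.mul_int (integrable_cv hY.int iT))
      (h.mono fun x hx => mul_le_mul_of_nonneg_left hx (asrc_nn hG hV R0 hp.nn x))
  rw [cv_dual hY.int hY.even bS iT] at h1
  simp_rw [← hp.eq] at h1
  have k1 := hp.bm.mul_int j1
  have k2 := hp.bm.mul_int j2
  have k3 := (hp.bm.cv hG.rf.int hG.rf.meas).mul_int iφ
  have h2 : ∫ x, asrc m G V R p x * φ x = (∫ x, p x * ((m - V x) * φ x))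
      + (∫ x, cv (rf G) p x * φ x) + ∫ x, R x * φ x := by
    rw [← integral_add k1 k3, ← integral_add (iadd k1 k3) (hR.mul_int iφ)]
    congr with x
    unfold asrc
    ring
  simp_rw [mul_add] at h1
  rw [h2, integral_add (iadd k1 k2) (hp.bm.mul_int iF), integral_add k1 k2,
    cv_dual' hG.int hp.bm iφ] at h1
  linarith

theorem Adj.mass (hY : Ker Y μ) (hG : NI G) (hV : Pot1 V m) (hm : m + (∫ y, G y) + κ = μ)
    (hp : Adj Y m G V R p) (iR : Integrable R) (ip : Integrable p) :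
    (∫ x, V x * p x) + κ * ∫ x, p x = ∫ x, R x := by
  have h1 : ∫ x, p x = ∫ x, cv Y (asrc m G V R p) x := by congr with x; exact hp.eq x
  rw [integral_cv hY.int (asrc_int hG hV iR ip), hY.mass, asrc_integral hG hV iR ip,
    eq_inv_mul_iff_mul_eq₀ hY.pos.ne', ← hm] at h1
  linarith

theorem Adj.sh (hp : Adj Y m G V (fun _ => κ) p) (y : E) :
    Adj Y m G (fun x => V (x - y)) (fun _ => κ) fun x => p (x - y) := by
  refine ⟨hp.bm.sh y, fun x => hp.nn _, fun x => ?_⟩
  rw [hp.eq, ← cv_sh]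
  congr with z
  unfold asrc
  rw [cv_sh]

theorem Adj.add {V' j : E → ℝ} (hY : Ker Y μ) (hG : NI G) (hV : Pot1 V m)
    (hW : Pot1 (fun x => V' x + V x) m) (bV : BM V')
    (hj : Adj Y m G (fun x => V' x + V x) (fun _ => κ) j)
    (hp : Adj Y m G V (fun x => V' x * j x) p) :
    Adj Y m G V (fun _ => κ) fun x => j x + p x := by
  refine ⟨hj.bm.add hp.bm, fun x => add_nonneg (hj.nn x) (hp.nn x), fun x => ?_⟩
  rw [hj.eq x, hp.eq x, ← cv_add hY.int (asrc_bm hG hW (BM.const κ) hj.bm)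
    (asrc_bm hG hV (bV.mul hj.bm) hp.bm)]
  congr with z
  unfold asrc
  rw [cv_add hG.rf.int hj.bm hp.bm]
  ring

end Pool.Agent.Lib.MP_dec75e_mp.SE
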