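import Pool.Agent.Lib.MP_dec75e_mp.SE.Ker

/-! From the distributional form to the resolvent form. -/

open MeasureTheory Filter Topology Real Laplacian
open scoped FourierTransform SchwartzMap ContDiff Convolution

namespace Pool.Agent.Lib.MP_dec75e_mp.SE

variable {E : Type*} [NormedAddCommGroup E] [InnerProductSpace ℝ E] [FiniteDimensional ℝ E]
  [MeasurableSpace E] [BorelSpace E]

theorem fourier_lap (G : 𝓢(E, ℂ)) (μ : ℝ) (k : E) :
    𝓕 (-Δ G + (μ : ℂ) • G) k = ((4 * π ^ 2 * ‖k‖ ^ 2 + μ : ℝ) : ℂ) * 𝓕 G k := by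
  rw [SchwartzMap.laplacian_eq_fourierMultiplierCLM, SchwartzMap.fourierMultiplierCLM_apply,
    FourierTransform.fourier_add, FourierTransform.fourier_neg, FourierTransform.fourier_smul,
    FourierTransform.fourier_smul, FourierTransform.fourier_fourierInv_eq]
  simp only [add_apply, neg_apply, smul_apply]
  rw [SchwartzMap.smulLeftCLM_apply_apply (by fun_prop)]
  simp only [Complex.real_smul, smul_eq_mul]
  push_cast
  ring

theorem resolvent {μ : ℝ} (hμ : 0 < μ) {g : E → ℝ} (hg : ContDiff ℝ ∞ g)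
    (hc : HasCompactSupport g) :
    BM (fun x => -(Δ g) x + μ * g x) ∧ cv (yk μ) (fun x => -(Δ g) x + μ * g x) = g := by
  have hg' : ContDiff ℝ ∞ (Complex.ofRealCLM ∘ g) := Complex.ofRealCLM.contDiff.comp hg
  have hc' : HasCompactSupport (Complex.ofRealCLM ∘ g) := hc.comp_left (by simp)
  let G : 𝓢(E, ℂ) := hc'.toSchwartzMap hg'
  let L : 𝓢(E, ℂ) := -Δ G + (μ : ℂ) • G
  set l : E → ℝ := fun x => -(Δ g) x + μ * g x with hl
  have hL : ∀ x, L x = (l x : ℂ) := by
    intro x
    have h1 : Δ G x = ((Δ g x : ℝ) : ℂ) := by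
      rw [SchwartzMap.laplacian_apply]
      exact ContDiffAt.laplacian_CLM_comp_left (l := Complex.ofRealCLM)
        (hg.of_le (by norm_cast)).contDiffAt
    have h2 : G x = (g x : ℂ) := rfl
    simp only [L, add_apply, neg_apply, smul_apply, h1, h2, hl,
      smul_eq_mul]
    push_cast
    ring
  have lc : Continuous l := by
    have : l = fun x => (L x).re := by funext x; rw [hL]; simp
    rw [this]
    exact Complex.continuous_re.comp L.continuous
  have lb : ∀ x, |l x| ≤ SchwartzMap.seminorm ℝ 0 0 L := by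
    intro x
    have := L.norm_le_seminorm ℝ x
    rwa [hL, Complex.norm_real] at this
  have bl : BM l := ⟨lc.measurable, _, lb⟩
  refine ⟨bl, ?_⟩
  have yi : Integrable fun x : E => (yk μ x : ℂ) := (yk_int hμ).ofReal
  have h1 : (fun x => (cv (yk μ) l x : ℂ))
      = (fun x : E => (yk μ x : ℂ)) ⋆[ContinuousLinearMap.mul ℂ ℂ] (L : E → ℂ) := by
    funext x
    rw [convolution_def, cv, ← integral_complex_ofReal]
    congr with y
    simp [hL]
  have h2 : 𝓕 (fun x => (cv (yk μ) l x : ℂ)) = 𝓕 (G : E → ℂ) := by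
    funext k
    rw [h1, fourier_mul_convolution_eq yi L.integrable, yk_fourier hμ, ← SchwartzMap.fourier_coe,
      fourier_lap, ← SchwartzMap.fourier_coe, ← mul_assoc, ← Complex.ofReal_mul,
      inv_mul_cancel₀ (by positivity)]
    simp
  have h3 : Continuous (cv (yk μ) l) := by
    refine continuous_of_dominated (bound := fun y => ‖yk μ y‖ * SchwartzMap.seminorm ℝ 0 0 L)
      (fun x => (bl.int_cv (yk_int hμ) x).aestronglyMeasurable)
      (fun x => Eventually.of_forall fun y => ?_) ((yk_int hμ).norm.mul_const _)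
      (Eventually.of_forall fun y => by fun_prop)
    rw [norm_mul]
    exact mul_le_mul_of_nonneg_left (lb _) (norm_nonneg _)
  have h4 : Integrable fun x => (cv (yk μ) l x : ℂ) := by
    rw [h1]
    exact yi.integrable_convolution _ L.integrable
  have h5 : Integrable (𝓕 (G : E → ℂ)) := (𝓕 G).integrable
  have h6 := (Complex.continuous_ofReal.comp h3).fourierInv_fourier_eq h4 (h2 ▸ h5)
  have h7 := G.continuous.fourierInv_fourier_eq G.integrable h5
  funext x
  have h8 : (cv (yk μ) l x : ℂ) = G x := by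
    rw [← h7, ← h2]
    exact (congrFun h6 x).symm
  exact Complex.ofReal_injective h8

theorem swap_cv {Y u l : E → ℝ} (hY : Integrable Y) (hu : Integrable u) (hl : BM l) :
    ∫ x, Y x * ∫ y, u y * l (y - x) = ∫ y, u y * cv Y l y := by
  obtain ⟨m, C, hC⟩ := hl
  have h1 : Integrable (fun p : E × E => Y p.1 * u p.2 * l (p.2 - p.1)) (volume.prod volume) :=
    (hY.mul_prod hu).mul_bdd (m.comp (measurable_snd.sub measurable_fst)).aestronglyMeasurable
      (Eventually.of_forall fun p => hC _)
  have h2 := integral_integral_swap (f := fun x y : E => Y x * u y * l (y - x)) h1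
  unfold cv
  simp_rw [← integral_const_mul]
  calc _ = ∫ x, ∫ y, Y x * u y * l (y - x) := by congr with x; congr with y; ring
    _ = _ := by rw [h2]; congr with y; congr with x; ring

theorem mild_of_weak [Nontrivial E] {μ : ℝ} (hμ : 0 < μ) {u S : E → ℝ} (hu : Integrable u)
    (hS : Integrable S)
    (h : ∀ φ : E → ℝ, ContDiff ℝ ∞ φ → HasCompactSupport φ →
      ∫ x, u x * (-(Δ φ) x + μ * φ x) = ∫ x, S x * φ x) :
    u =ᵐ[volume] cv (yk μ) S := by
  have hY := yk_ker (E := E) hμ
  refine ae_eq_of_integral_contDiff_smul_eq hu.locallyIntegrable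
    (integrable_cv hY.int hS).locallyIntegrable fun g hg hc => ?_
  obtain ⟨bl, hl⟩ := resolvent hμ hg hc
  have bg : BM g := by
    obtain ⟨C, hC⟩ := hg.continuous.bounded_above_of_compact_support hc
    exact ⟨hg.continuous.measurable, C, hC⟩
  have h1 : ∀ x, ∫ y, u y * (fun x => -(Δ g) x + μ * g x) (y - x) = ∫ y, S y * g (y - x) := by
    intro x
    rw [← h (fun y => g (y - x)) (hg.comp (contDiff_id.sub contDiff_const))
      (hc.comp_homeomorph (Homeomorph.subRight x))]
    congr with y
    simp only [InnerProductSpace.laplacian_eq_iteratedFDeriv_stdOrthonormalBasis,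
      iteratedFDeriv_comp_sub]
  have h2 := swap_cv hY.int hu bl
  simp_rw [h1] at h2
  rw [swap_cv hY.int hS bg, hl] at h2
  simp only [smul_eq_mul]
  rw [cv_dual hY.int hY.even bg hS]
  simp_rw [mul_comm (g _), mul_comm (cv _ g _)]
  exact h2.symm

end Pool.Agent.Lib.MP_dec75e_mp.SE
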