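import Pool.Agent.Lib.MP_dec75e_mp.SE.Rad
import Pool.Agent.Lib.MP_dec75e_mp.SE.Weak

/-! General potentials: convolution algebra and the resolvent form of an equation. -/

open MeasureTheory Filter Topology Laplacian
open scoped ContDiff

namespace Pool.Agent.Lib.MP_dec75e_mp.SE

variable {E : Type*} [NormedAddCommGroup E] [InnerProductSpace ℝ E] [FiniteDimensional ℝ E]
  [MeasurableSpace E] [BorelSpace E]

/-- reflection -/
def rf (G : E → ℝ) (x : E) : ℝ := G (-x)

theorem NI.rf {G : E → ℝ} (h : NI G) : NI (rf G) :=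
  ⟨h.meas.comp measurable_neg, fun _ => h.nn _, h.int.comp_neg⟩

theorem rf_integral (G : E → ℝ) : ∫ x, rf G x = ∫ x, G x := integral_neg_eq_self G volume

theorem NI.add {G G' : E → ℝ} (h : NI G) (h' : NI G') : NI fun x => G x + G' x :=
  ⟨h.meas.add h'.meas, fun x => add_nonneg (h.nn x) (h'.nn x), iadd h.int h'.int⟩

theorem NI.cmul {G : E → ℝ} (h : NI G) {c : ℝ} (hc : 0 ≤ c) : NI fun x => c * G x :=
  ⟨measurable_const.mul h.meas, fun x => mul_nonneg hc (h.nn x), h.int.const_mul c⟩

theorem cv_dual' {K p q : E → ℝ} (hK : Integrable K) (hp : BM p)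
    (hq : Integrable q) : ∫ x, p x * cv K q x = ∫ x, cv (rf K) p x * q x := by
  rw [cv_comm K q, cv_comm (rf K) p]
  obtain ⟨m, C, hC⟩ := hp
  have h1 : Integrable (fun z : E × E => q z.2 * K (z.1 - z.2)) (volume.prod volume) :=
    hq.convolution_integrand (ContinuousLinearMap.mul ℝ ℝ) hK
  have h2 : Integrable (fun z : E × E => q z.2 * K (z.1 - z.2) * p z.1) (volume.prod volume) :=
    h1.mul_bdd (m.comp measurable_fst).aestronglyMeasurable
      (Eventually.of_forall fun z => hC z.1)
  have h3 := integral_integral_swap (f := fun x y : E => q y * K (x - y) * p x) h2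
  unfold cv
  simp_rw [← integral_const_mul, ← integral_mul_const]
  calc _ = ∫ x, ∫ y, q y * K (x - y) * p x := by
        congr with x; congr with y; ring
    _ = _ := by
        rw [h3]
        congr with y; congr with x
        rw [rf, neg_sub]; ring

section bm
omit [NormedAddCommGroup E] [InnerProductSpace ℝ E] [FiniteDimensional ℝ E] [BorelSpace E]

theorem BM.const (c : ℝ) : BM fun _ : E => c := ⟨measurable_const, |c|, fun _ => le_rfl⟩

theorem BM.add {a b : E → ℝ} (ha : BM a) (hb : BM b) : BM fun x => a x + b x := by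
  obtain ⟨m, C, hC⟩ := ha
  obtain ⟨m', C', hC'⟩ := hb
  exact ⟨m.add m', C + C', fun x => (abs_add_le _ _).trans (add_le_add (hC x) (hC' x))⟩

theorem BM.mul {a b : E → ℝ} (ha : BM a) (hb : BM b) : BM fun x => a x * b x := by
  obtain ⟨m, C, hC⟩ := ha
  obtain ⟨m', C', hC'⟩ := hb
  refine ⟨m.mul m', C * C', fun x => ?_⟩
  rw [abs_mul]
  exact mul_le_mul (hC x) (hC' x) (abs_nonneg _) ((abs_nonneg _).trans (hC x))

theorem BM.cmul {a : E → ℝ} (ha : BM a) (c : ℝ) : BM fun x => c * a x := (BM.const c).mul ha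

theorem BM.sub {a b : E → ℝ} (ha : BM a) (hb : BM b) : BM fun x => a x - b x := by
  simpa only [neg_one_mul, ← sub_eq_add_neg] using ha.add (hb.cmul (-1))

theorem BM.max0 {a : E → ℝ} (ha : BM a) : BM fun x => max (a x) 0 := by
  obtain ⟨m, C, hC⟩ := ha
  refine ⟨m.max measurable_const, C, fun x => ?_⟩
  rw [abs_of_nonneg (le_max_right _ _)]
  exact max_le ((le_abs_self _).trans (hC x)) ((abs_nonneg _).trans (hC x))

end bm

omit [InnerProductSpace ℝ E] [FiniteDimensional ℝ E] in
theorem BM.sh [SecondCountableTopology E] {b : E → ℝ} (hb : BM b) (y : E) :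
    BM fun x => b (x - y) := by
  obtain ⟨m, C, hC⟩ := hb
  exact ⟨m.comp (measurable_id.sub measurable_const), C, fun _ => hC _⟩

theorem BM.cv {K a : E → ℝ} (ha : BM a) (hK : Integrable K) (hm : Measurable K) :
    BM (cv K a) := by
  obtain ⟨m, C, hC⟩ := ha
  refine ⟨measurable_cv hm m, (∫ y, |K y|) * C, fun x => ?_⟩
  rw [← integral_mul_const]
  refine (abs_integral_le_integral_abs).trans (integral_mono ?_ (hK.abs.mul_const C) fun y => ?_)
  · exact (BM.int_cv ⟨m, C, hC⟩ hK x).abs
  · simp only [abs_mul]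
    exact mul_le_mul_of_nonneg_left (hC _) (abs_nonneg _)

theorem cv_add {K b b' : E → ℝ} (hK : Integrable K) (hb : BM b) (hb' : BM b') (x : E) :
    cv K (fun y => b y + b' y) x = cv K b x + cv K b' x := by
  unfold cv
  rw [← integral_add (hb.int_cv hK x) (hb'.int_cv hK x)]
  congr with y; ring

theorem cv_sub {K b b' : E → ℝ} (hK : Integrable K) (hb : BM b) (hb' : BM b') (x : E) :
    cv K (fun y => b y - b' y) x = cv K b x - cv K b' x := by
  unfold cv
  rw [← integral_sub (hb.int_cv hK x) (hb'.int_cv hK x)]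
  congr with y; ring

theorem cv_cmul (K b : E → ℝ) (c : ℝ) (x : E) : cv K (fun y => c * b y) x = c * cv K b x := by
  unfold cv
  rw [← integral_const_mul]
  congr with y; ring

theorem cv_const (K : E → ℝ) (c : ℝ) (x : E) : cv K (fun _ => c) x = (∫ y, K y) * c := by
  unfold cv
  rw [integral_mul_const]

theorem cv_add_left {G G' b : E → ℝ} (hG : Integrable G) (hG' : Integrable G') (hb : BM b)
    (x : E) : cv (fun y => G y + G' y) b x = cv G b x + cv G' b x := by
  unfold cv
  rw [← integral_add (hb.int_cv hG x) (hb.int_cv hG' x)]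
  congr with y; ring

theorem cv_cmul_left (K b : E → ℝ) (c : ℝ) (x : E) :
    cv (fun y => c * K y) b x = c * cv K b x := by
  unfold cv
  rw [← integral_const_mul]
  congr with y; ring

theorem cv_comb_ae {K b b' : E → ℝ} (hK : Integrable K) (hb : Integrable b)
    (hb' : Integrable b') (α β : ℝ) :
    ∀ᵐ x, cv K (fun y => α * b y + β * b' y) x = α * cv K b x + β * cv K b' x := by
  rw [cv_comm K b, cv_comm K b', cv_comm K]
  filter_upwards [hb.ae_convolution_exists (ContinuousLinearMap.mul ℝ ℝ) hK,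
    hb'.ae_convolution_exists (ContinuousLinearMap.mul ℝ ℝ) hK] with x h1 h2
  have h1' : Integrable fun y => b y * K (x - y) := h1
  have h2' : Integrable fun y => b' y * K (x - y) := h2
  unfold cv
  rw [← integral_const_mul, ← integral_const_mul,
    ← integral_add (h1'.const_mul α) (h2'.const_mul β)]
  congr with y; ring

theorem cv_mono_pt {K b b' : E → ℝ} (hK : Integrable K) (h0 : ∀ x, 0 ≤ K x) (hb : BM b)
    (hb' : BM b') (h : b ≤ᵐ[volume] b') (x : E) : cv K b x ≤ cv K b' x := by
  refine integral_mono_ae (hb.int_cv hK x) (hb'.int_cv hK x) ?_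
  filter_upwards [(Measure.measurePreserving_sub_left volume x).quasiMeasurePreserving.ae h]
    with y hy
  exact mul_le_mul_of_nonneg_left hy (h0 y)

theorem cv_nonneg_ae {K b : E → ℝ} (h0 : ∀ x, 0 ≤ K x) (h : 0 ≤ᵐ[volume] b) (x : E) :
    0 ≤ cv K b x := by
  refine integral_nonneg_of_ae ?_
  filter_upwards [(Measure.measurePreserving_sub_left volume x).quasiMeasurePreserving.ae h]
    with y hy
  exact mul_nonneg (h0 y) hy

theorem cv_sh (K b : E → ℝ) (y x : E) : cv K (fun z => b (z - y)) x = cv K b (x - y) := by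
  unfold cv
  congr with z
  rw [sub_right_comm]

theorem cv_assoc {Y u w : E → ℝ} (hY : Integrable Y) (hu : BM u) (hw : Integrable w) (x : E) :
    cv (cv Y u) w x = cv Y (cv u w) x := by
  have h := swap_cv hY (hw.comp_sub_left x) hu
  calc cv (cv Y u) w x = ∫ y, w (x - y) * cv Y u y := by
        unfold cv; congr with y; ring
    _ = _ := by
        rw [← h]
        unfold cv
        congr with z
        congr 1
        rw [← integral_add_right_eq_self (fun y => w (x - y) * u (y - z)) z]
        congr with y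
        rw [add_sub_cancel_right, mul_comm]
        congr 2
        abel

theorem cv_pos {K b : E → ℝ} (hK : Integrable K) (h0 : ∀ x, 0 ≤ K x) (h1 : ∀ᵐ x, 0 < K x)
    (hb : BM b) (b0 : ∀ x, 0 ≤ b x) (b1 : 0 < volume (Function.support b)) (x : E) :
    0 < cv K b x := by
  rw [cv_comm]
  have hi : Integrable fun y => b y * K (x - y) := hb.mul_int (hK.comp_sub_left x)
  unfold cv
  rw [integral_pos_iff_support_of_nonneg (fun y => mul_nonneg (b0 y) (h0 _)) hi]
  refine b1.trans_le (measure_mono_ae ?_)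
  filter_upwards [(Measure.measurePreserving_sub_left volume x).quasiMeasurePreserving.ae h1]
    with y hy hb
  exact mul_ne_zero hb hy.ne'

theorem yk_pos [Nontrivial E] {μ : ℝ} (hμ : 0 < μ) : ∀ᵐ x : E, 0 < yk μ x := by
  have a0 : ∀ᵐ z : E, z ≠ 0 := compl_mem_ae_iff.2 (measure_singleton 0)
  filter_upwards [a0] with x hx
  unfold yk
  rw [setIntegral_pos_iff_support_of_nonneg_ae
    ((ae_restrict_mem measurableSet_Ioi).mono fun t ht => (hk_pos μ x ht).le) (hk_int_t hμ hx)]
  have : Function.support (hk μ x) ∩ Set.Ioi 0 = Set.Ioi 0 :=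
    Set.inter_eq_right.2 fun t ht => (hk_pos μ x ht).ne'
  rw [this]
  simp

theorem yk_anti [Nontrivial E] {μ μ' : ℝ} (hμ : 0 < μ) (h : μ ≤ μ') :
    ∀ᵐ x : E, yk μ' x ≤ yk μ x := by
  have a0 : ∀ᵐ z : E, z ≠ 0 := compl_mem_ae_iff.2 (measure_singleton 0)
  filter_upwards [a0] with x hx
  refine setIntegral_mono_on (hk_int_t (hμ.trans_le h) hx) (hk_int_t hμ hx) measurableSet_Ioi
    fun t ht => ?_
  have ht' : 0 < t := ht
  unfold hk
  gcongr

/-- `-Δ u = S` in resolvent form -/
def Mild (u S : E → ℝ) : Prop :=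
  ∀ μ : ℝ, 0 < μ → u =ᵐ[volume] cv (yk μ) fun x => S x + μ * u x

theorem Mild.of_one [Nontrivial E] {μ : ℝ} (hμ : 0 < μ) {u T : E → ℝ} (hT : Integrable T)
    (h : u =ᵐ[volume] cv (yk μ) T) : Mild u fun x => T x - μ * u x := by
  have hY := yk_ker (E := E) hμ
  have iu : Integrable u := (integrable_cv hY.int hT).congr h.symm
  intro μ' hμ'
  refine mild_of_weak hμ' iu (iadd (isub hT (iu.const_mul μ)) (iu.const_mul μ')) fun φ h1 h2 => ?_
  obtain ⟨bl, hl⟩ := resolvent hμ h1 h2
  have bφ : BM φ := by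
    obtain ⟨C, hC⟩ := h1.continuous.bounded_above_of_compact_support h2
    exact ⟨h1.continuous.measurable, C, hC⟩
  have h3 := cv_dual hY.int hY.even bl hT
  rw [hl] at h3
  have h4 : ∫ x, u x * (-(Δ φ) x + μ * φ x) = ∫ x, T x * φ x := by
    simp_rw [mul_comm (T _)]
    rw [← h3]
    exact integral_congr_ae (h.mono fun x hx => by simp only [hx]; ring)
  have j1 := bl.int_mul iu
  have j2 := (bφ.int_mul iu).const_mul (μ' - μ)
  have j3 := bφ.int_mul hT
  calc _ = ∫ x, (u x * (-(Δ φ) x + μ * φ x) + (μ' - μ) * (u x * φ x)) := by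
        congr with x; ring
    _ = ∫ x, (T x * φ x + (μ' - μ) * (u x * φ x)) := by
        rw [integral_add j1 j2, integral_add j3 j2, h4]
    _ = _ := by congr with x; ring

theorem Mild.comb {u S u' S' : E → ℝ} (h : Mild u S) (h' : Mild u' S') (iu : Integrable u)
    (iS : Integrable S) (iu' : Integrable u') (iS' : Integrable S') (α β : ℝ) :
    Mild (fun x => α * u x + β * u' x) fun x => α * S x + β * S' x := by
  intro μ hμ
  filter_upwards [h μ hμ, h' μ hμ, cv_comb_ae (yk_int hμ) (iadd iS (iu.const_mul μ))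
    (iadd iS' (iu'.const_mul μ)) α β] with x h1 h2 h3
  rw [h1, h2, ← h3]
  congr with y
  ring

theorem Mild.congr {u S S' : E → ℝ} (h : Mild u S) (e : S =ᵐ[volume] S') : Mild u S' := by
  intro μ hμ
  refine (h μ hμ).trans (Eventually.of_forall fun x => ?_)
  rw [cv_congr (b' := fun x => S' x + μ * u x) (e.mono fun y hy => by simp only [hy])]

theorem ae_sh {p : E → Prop} (h : ∀ᵐ x, p x) (y : E) : ∀ᵐ x, p (x - y) :=
  (measurePreserving_sub_right volume y).quasiMeasurePreserving.ae h

theorem Mild.sh {u S : E → ℝ} (h : Mild u S) (y : E) :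
    Mild (fun x => u (x - y)) fun x => S (x - y) := by
  intro μ hμ
  filter_upwards [ae_sh (h μ hμ) y] with x hx
  rw [hx, ← cv_sh]

theorem Mild.integral [Nontrivial E] {u S : E → ℝ} (h : Mild u S) (iu : Integrable u)
    (iS : Integrable S) : ∫ x, S x = 0 := by
  have hY := yk_ker (E := E) one_pos
  have h1 := integral_congr_ae (h 1 one_pos)
  rw [integral_cv hY.int (iadd iS (iu.const_mul 1)), hY.mass,
    integral_add iS (iu.const_mul 1), integral_const_mul] at h1
  linarith

/-- limit of a bounded monotone sequence -/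
theorem mono_lim {W : ℕ → E → ℝ} {C : ℝ} (hm : ∀ n, Measurable (W n)) (h0 : ∀ n x, 0 ≤ W n x)
    (hC : ∀ n x, W n x ≤ C) (mono : ∀ n x, W n x ≤ W (n + 1) x) :
    ∃ S : E → ℝ, Measurable S ∧ (∀ x, 0 ≤ S x) ∧ (∀ x, S x ≤ C) ∧ (∀ n x, W n x ≤ S x) ∧
      (∀ x, Tendsto (fun n => W n x) atTop (𝓝 (S x))) ∧
      ∀ B : ℝ, (∀ n, Integrable (W n)) → (∀ n, ∫ x, W n x ≤ B) →
        Integrable S ∧ ∫ x, S x ≤ B := by
  have bdd : ∀ x, BddAbove (Set.range fun n => W n x) := fun x =>
    ⟨C, by rintro _ ⟨n, rfl⟩; exact hC n x⟩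
  let S : E → ℝ := fun x => ⨆ n, W n x
  have WS : ∀ n x, W n x ≤ S x := fun n x => le_ciSup (bdd x) n
  have lim : ∀ x, Tendsto (fun n => W n x) atTop (𝓝 (S x)) := fun x =>
    tendsto_atTop_ciSup (monotone_nat_of_le_succ fun n => mono n x) (bdd x)
  have mS : Measurable S := measurable_of_tendsto_metrizable hm (tendsto_pi_nhds.2 lim)
  refine ⟨S, mS, fun x => (h0 0 x).trans (WS 0 x), fun x => ciSup_le fun n => hC n x, WS, lim,
    fun B hi hB => ?_⟩
  have iS : Integrable S := by
    refine ⟨mS.aestronglyMeasurable, ?_⟩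
    have h1 : eLpNorm S 1 volume ≤ ENNReal.ofReal B := by
      refine Lp.eLpNorm_le_of_ae_tendsto (u := atTop) (f := W) (Eventually.of_forall fun n => ?_)
        (fun n => (hm n).aestronglyMeasurable) (Eventually.of_forall lim)
      rw [eLpNorm_one_eq_lintegral_enorm, ← ofReal_integral_norm_eq_lintegral_enorm (hi n)]
      apply ENNReal.ofReal_le_ofReal
      simpa only [Real.norm_of_nonneg (h0 n _)] using hB n
    rw [eLpNorm_one_eq_lintegral_enorm] at h1
    exact h1.trans_lt ENNReal.ofReal_lt_top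
  refine ⟨iS, le_of_tendsto' (tendsto_integral_of_dominated_convergence S
    (fun n => (hm n).aestronglyMeasurable) iS (fun n => Eventually.of_forall fun x => ?_)
    (Eventually.of_forall lim)) hB⟩
  rw [Real.norm_of_nonneg (h0 n x)]
  exact WS n x

end Pool.Agent.Lib.MP_dec75e_mp.SE
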