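import Pool.Agent.Lib.MP_dec75e_mp.SE.GTwo

/-! General potentials: a fixed positive gain in the averaged inequality. -/

open MeasureTheory Filter Topology

namespace Pool.Agent.Lib.MP_dec75e_mp.SE

variable {E : Type*} [NormedAddCommGroup E] [InnerProductSpace ℝ E] [FiniteDimensional ℝ E]
  [MeasurableSpace E] [BorelSpace E]

/-- the averaged inequality holds with the gain `s` -/
def Gain (A c c' : ℝ) (w K s : E → ℝ) : Prop :=
  ∀ (μ m κ M : ℝ) (π γ v u ν h H : E → ℝ), A ≤ μ → μ - A ≤ m → NI π → NI γ → 0 < κ →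
    m + (∫ y, (π y + γ y)) + κ = μ → Pot1 v M → Integrable v → 2 * M ≤ m →
    (∀ x, min (w x) 1 ≤ v x) → (∀ x, v x ≤ w x) → Prim (yk μ) m π v u ν →
    Adj (yk μ) m (fun y => π y + γ y) v (fun _ => κ) h → (∀ x, c * cv K K x ≤ cv γ u x) →
    NI H → (∀ x, H (-x) = H x) → (∀ᵐ y, c' * yk A y ≤ H y) →
    (∫ x, v x * h x * cv H (fun x => 1 - u x) x) + ∫ x, h x * s x ≤ 2 * ∫ x, ν x * cv H h x

theorem support_pos {w : E → ℝ} (hw : NI w) (h : 0 < ∫ x, w x) :
    0 < volume (Function.support w) := (integral_pos_iff_support_of_nonneg hw.nn hw.int).1 h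

theorem support_pos' [Nontrivial E] {w : E → ℝ} (h : ∀ x, 0 < w x) :
    0 < volume (Function.support w) := by
  have : Function.support w = Set.univ := Set.eq_univ_of_forall fun x => (h x).ne'
  rw [this]
  simp

theorem small_pos [Nontrivial E] {Q : E → ℝ} (hQ : Integrable Q) {a : ℝ} (ha : 0 < a) :
    0 < volume {y | Q y < a} := by
  have h1 := hQ.measure_ge_lt_top ha
  by_contra h
  have h2 : volume {y | Q y < a} = 0 := by simpa using h
  have h3 : (Set.univ : Set E) ⊆ {y | a ≤ Q y} ∪ {y | Q y < a} := fun y _ => le_or_gt a (Q y)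
  have h4 := (measure_mono (μ := volume) h3).trans (measure_union_le _ _)
  rw [h2, add_zero, measure_univ_of_isAddLeftInvariant] at h4
  exact h1.ne (top_le_iff.1 h4)

theorem exists_gain [Nontrivial E] {w : E → ℝ} (hw : NI w) (w0 : 0 < ∫ x, w x) {A c c' b : ℝ}
    (hA : 0 < A) (hc : 0 < c) (hc' : 0 < c') (hb : 0 < b) :
    ∃ K s : E → ℝ, U01 K ∧ Integrable K ∧ Mild K (fun x => min (w x) 1 - (A + 1) * K x) ∧
      NI s ∧ (∀ x, s x ≤ b) ∧ 0 < ∫ x, s x ∧ Gain A c c' w K s := by
  have hA1 : 0 < A + 1 := by linarith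
  have Y1 := yk_ker (E := E) hA1
  have YA := yk_ker (E := E) hA
  have u₁ : U01 fun x => min (w x) 1 := ⟨hw.meas.min measurable_const,
    fun x => le_min (hw.nn x) zero_le_one, fun x => min_le_right _ _⟩
  have i₁ : Integrable fun x => min (w x) 1 := hw.int.mono' u₁.meas.aestronglyMeasurable
    (Eventually.of_forall fun x => by rw [Real.norm_of_nonneg (u₁.nn x)]; exact min_le_left _ _)
  have s₁ : Function.support w ⊆ Function.support fun x => min (w x) 1 := fun x hx =>
    (lt_min ((hw.nn x).lt_of_ne' hx) one_pos).ne'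
  set K := cv (yk (A + 1)) fun x => min (w x) 1 with hK
  have K0 : ∀ x, 0 < K x := cv_pos Y1.int Y1.nn (yk_pos hA1) u₁.bm u₁.nn
    ((support_pos hw w0).trans_le (measure_mono s₁))
  have uK : U01 K := ⟨measurable_cv Y1.meas u₁.meas, fun x => (K0 x).le, fun x =>
    (cv_le Y1.int Y1.nn u₁.bm u₁.le x).trans (by
      rw [Y1.mass, mul_one]; exact inv_le_one_of_one_le₀ (by linarith))⟩
  have iK : Integrable K := integrable_cv Y1.int i₁
  have mK : Mild K fun x => min (w x) 1 - (A + 1) * K x := Mild.of_one hA1 i₁ EventuallyEq.rfl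
  set Φ : E → ℝ := fun x => c * cv K K x with hΦ
  have Φ0 : ∀ x, 0 < Φ x := fun x => mul_pos hc
    (cv_pos iK uK.nn (Eventually.of_forall K0) uK.bm uK.nn (support_pos' K0) x)
  have bΦ : BM Φ := (uK.bm.cv iK uK.meas).cmul c
  have iΦ : Integrable Φ := (integrable_cv iK iK).const_mul c
  set P := cv (yk A) Φ with hP
  have P0 : ∀ x, 0 < P x := cv_pos YA.int YA.nn (yk_pos hA) bΦ (fun x => (Φ0 x).le)
    (support_pos' Φ0)
  have bP : BM P := bΦ.cv YA.int YA.meas
  have iP : Integrable P := integrable_cv YA.int iΦ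
  have mP : Mild P fun x => Φ x - A * P x := Mild.of_one hA iΦ EventuallyEq.rfl
  obtain ⟨-, C, hC⟩ := id bP
  have PC : ∀ x, P x ≤ C := fun x => (le_abs_self _).trans (hC x)
  have C0 : 0 < C := (P0 0).trans_le (PC 0)
  set Q := cv (yk A) w with hQ
  have nQ : NI Q := ⟨measurable_cv YA.meas hw.meas, cv_nonneg YA.nn hw.nn,
    integrable_cv YA.int hw.int⟩
  have mQ : Mild Q fun x => w x - A * Q x := Mild.of_one hA hw.int EventuallyEq.rfl
  let ψ : E → E → ℝ := fun x y => max (P x - C * Q (x - y)) 0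
  have ψ0 : ∀ x y, 0 ≤ ψ x y := fun x y => le_max_right _ _
  have ψC : ∀ x y, ψ x y ≤ C := fun x y =>
    max_le (by linarith [PC x, mul_nonneg C0.le (nQ.nn (x - y))]) C0.le
  let T : E → E → ℝ := fun x y => min (min (w x) 1 * ψ x y) (Φ (x - y))
  have T0 : ∀ x y, 0 ≤ T x y := fun x y => le_min (mul_nonneg (u₁.nn x) (ψ0 x y)) (Φ0 _).le
  have TC : ∀ x y, T x y ≤ C * min (w x) 1 := fun x y => (min_le_left _ _).trans (by
    rw [mul_comm]; exact mul_le_mul_of_nonneg_right (ψC x y) (u₁.nn x))
  have ms : Measurable fun z : E × E => z.1 - z.2 := measurable_fst.sub measurable_snd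
  have mT : Measurable fun z : E × E => T z.1 z.2 :=
    ((u₁.meas.comp measurable_fst).mul (((bP.1.comp measurable_fst).sub
      (measurable_const.mul (nQ.meas.comp ms))).max measurable_const)).min (bΦ.1.comp ms)
  have nk : NI fun y : E => c' * yk A y := (NI.mk YA.meas YA.nn YA.int).cmul hc'.le
  let S : E → ℝ := fun x => ∫ y, c' * yk A y * T x y
  have bT : ∀ x, BM (T x) := fun x =>
    BM.of_bounds (mT.comp measurable_prodMk_left) (T0 x) (TC x)
  have S0 : ∀ x, 0 ≤ S x := fun x => integral_nonneg fun y => mul_nonneg (nk.nn y) (T0 x y)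
  have mS : Measurable S :=
    (((nk.meas.comp measurable_snd).mul mT).stronglyMeasurable.integral_prod_right'
      (ν := volume)).measurable
  have SC : ∀ x, S x ≤ (∫ y : E, c' * yk A y) * (C * min (w x) 1) := fun x => by
    rw [← integral_mul_const]
    exact integral_mono ((bT x).int_mul nk.int) (nk.int.mul_const _) fun y =>
      mul_le_mul_of_nonneg_left (TC x y) (nk.nn y)
  have iS : Integrable S := ((i₁.const_mul C).const_mul _).mono' mS.aestronglyMeasurable
    (Eventually.of_forall fun x => by rw [Real.norm_of_nonneg (S0 x)]; exact SC x)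
  have s0 : ∀ x, 0 ≤ min b (1 / 2 * S x) := fun x => le_min hb.le (by linarith [S0 x])
  have ms' : Measurable fun x => min b (1 / 2 * S x) :=
    measurable_const.min (measurable_const.mul mS)
  have is' : Integrable fun x => min b (1 / 2 * S x) := (iS.const_mul (1 / 2)).mono'
    ms'.aestronglyMeasurable (Eventually.of_forall fun x => by
      rw [Real.norm_of_nonneg (s0 x)]; exact min_le_right _ _)
  refine ⟨K, fun x => min b (1 / 2 * S x), uK, iK, mK, ⟨ms', s0, is'⟩, fun x => min_le_left _ _,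
    ?_, ?_⟩
  · rw [integral_pos_iff_support_of_nonneg s0 is']
    refine (support_pos hw w0).trans_le (measure_mono fun x hx => ne_of_gt (lt_min hb ?_))
    have hx' : 0 < min (w x) 1 := lt_min ((hw.nn x).lt_of_ne' hx) one_pos
    have : 0 < S x := by
      rw [integral_pos_iff_support_of_nonneg (fun y => mul_nonneg (nk.nn y) (T0 x y))
        ((bT x).int_mul nk.int)]
      refine (small_pos (nQ.int.comp_sub_left x) (div_pos (P0 x) C0)).trans_le (measure_mono_ae ?_)
      filter_upwards [yk_pos (E := E) hA] with y hy hq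
      have hq' : Q (x - y) < P x / C := hq
      rw [lt_div_iff₀ C0] at hq'
      exact (mul_pos (mul_pos hc' hy) (lt_min (mul_pos hx'
        (lt_max_of_lt_left (by linarith))) (Φ0 _))).ne'
    linarith
  · intro μ m κ M π γ v u ν h H hμ hmA hπ hγ hκ hm hv iv hM wv vw hu hh hΦ' hH he kH
    have hY := yk_ker (E := E) (hA.trans_le hμ)
    have hG := hπ.add hγ
    have M0 : 0 ≤ M := (hv.nn 0).trans (hv.le 0)
    have key := two_avg hY hπ hγ hκ hm hv iv hM hu hh iΦ (Eventually.of_forall hΦ') hH he nk kH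
      mT T0 (C := C) (fun x y => (TC x y).trans (mul_le_mul_of_nonneg_left (wv x) C0.le))
      (fun y => ?_)
    · have : ∫ x, h x * min b (1 / 2 * S x) ≤ 1 / 2 * ∫ x, h x * S x := by
        rw [← integral_const_mul]
        refine integral_mono (hh.bm.mul_int is') ((hh.bm.mul_int iS).const_mul _) fun x => ?_
        have := mul_le_mul_of_nonneg_left (min_le_right b (1 / 2 * S x)) (hh.nn x)
        simp only
        linarith
      linarith
    have iQ := nQ.int.comp_sub_right y
    have iw := hw.int.comp_sub_right y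
    have iψ : Integrable fun x => ψ x y := (isub iP (iQ.const_mul C)).pos_part
    have j1 := isub iΦ (iP.const_mul A)
    have j2 := isub iw (iQ.const_mul A)
    have hv₂ : Pot1 (fun x => v (x - y)) m :=
      ⟨(hv.bm.sh y).1, fun x => hv.nn _, fun x => by linarith [hv.le (x - y)]⟩
    refine ⟨fun x => ψ x y, iψ, ?_, fun x => (min_le_left _ _).trans
      (mul_le_mul_of_nonneg_right (wv x) (ψ0 x y)), fun x => min_le_right _ _⟩
    have c1 := mP.comb (mQ.sh y) iP j1 iQ j2 1 (-C) μ hY.pos
    have c2 := cv_mono_ae hY.int hY.nn (iadd (iadd (j1.const_mul 1) (j2.const_mul (-C)))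
      ((iadd (iP.const_mul 1) (iQ.const_mul (-C))).const_mul μ))
      (iadd (iadd (hv₂.bm'.mul_int iψ) (integrable_cv hG.int iψ)) iΦ)
      (Eventually.of_forall fun x => by
        have a1 := cv_nonneg hG.nn (fun x => ψ0 x y) x
        have a2 := mul_le_mul_of_nonneg_left (le_max_left (P x - C * Q (x - y)) 0)
          (sub_nonneg.2 hμ)
        have a3 := mul_le_mul_of_nonneg_right hmA (ψ0 x y)
        have a4 := mul_le_mul (vw (x - y)) (ψC x y) (ψ0 x y) (hw.nn _)
        simp only [ψ] at *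
        linarith)
    filter_upwards [c1, c2] with x h1 h2
    refine max_le (by linarith) (cv_nonneg hY.nn (fun z => ?_) x)
    exact add_nonneg (add_nonneg (mul_nonneg (sub_nonneg.2 (hv₂.le z)) (ψ0 z y))
      (cv_nonneg hG.nn (fun x => ψ0 x y) z)) (Φ0 z).le

end Pool.Agent.Lib.MP_dec75e_mp.SE
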