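import Pool.Agent.Lib.MP_dec75e_mp.SE.GStep

/-! General potentials: the density is strictly increasing in the energy. -/

open MeasureTheory Filter Topology

namespace Pool.Agent.Lib.MP_dec75e_mp.SE

variable {E : Type*} [NormedAddCommGroup E] [InnerProductSpace ℝ E] [FiniteDimensional ℝ E]
  [MeasurableSpace E] [BorelSpace E]

variable {v s u ν w K U Z : E → ℝ} {e e₁ e₂ ρ A c c' M : ℝ}

theorem chain [Nontrivial E] {θ : ℝ} (G : Gain A c c' w K s) (uK : U01 K) (iK : Integrable K)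
    (mK : Mild K fun x => min (w x) 1 - (A + 1) * K x) (iw : Integrable fun x => min (w x) 1)
    (ns : NI s) (sb : ∀ x, s x ≤ 2 * e₁) (hv : Pot1 v M) (iv : Integrable v)
    (wv : ∀ x, min (w x) 1 ≤ v x) (vw : ∀ x, v x ≤ w x) (he : 0 < e₁) (hee : e₁ < e₂)
    (hA : 4 * e₂ ≤ A) (hρ : 0 < ρ) (hc : c ≤ 2 * e₁ * ρ) (hc' : c' ≤ 4 * e₁)
    (h : Sup v (fun _ => 0) e₁ ρ u ν) (hx : ρ * ∫ x, u x ≤ θ) (θ1 : θ < 1) :
    ∃ U ν', Sup v (fun x => (1 - e₁ / e₂) * s x) e₂ ρ U ν' ∧ ρ * ∫ x, U x ≤ 1 := by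
  obtain ⟨r, hr⟩ : ∃ r, r = (1 - θ) / 2 := ⟨_, rfl⟩
  have r0 : 0 < r := by linarith
  obtain ⟨N, hN⟩ := exists_nat_gt (10 * (e₂ - e₁) ^ 2 / (4 * e₁ ^ 2 * r * r))
  have N0 : (0 : ℝ) < N := lt_of_le_of_lt (by positivity) hN
  rw [div_lt_iff₀ (by positivity)] at hN
  obtain ⟨Δ, hΔ⟩ : ∃ Δ, Δ = (e₂ - e₁) / N := ⟨_, rfl⟩
  obtain ⟨δ, hδ⟩ : ∃ δ, δ = r / N := ⟨_, rfl⟩
  have Δ0 : 0 < Δ := by rw [hΔ]; exact div_pos (by linarith) N0
  have δ0 : 0 < δ := by rw [hδ]; positivity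
  have ΔN : N * Δ = e₂ - e₁ := by rw [hΔ]; field_simp
  have δN : N * δ = r := by rw [hδ]; field_simp
  have sm : 10 * Δ ^ 2 ≤ 4 * e₁ ^ 2 * r * δ := by
    refine le_of_mul_le_mul_left ?_ (mul_pos N0 N0)
    calc (N : ℝ) * N * (10 * Δ ^ 2) = 10 * (N * Δ) ^ 2 := by ring
      _ ≤ N * (4 * e₁ ^ 2 * r * r) := by rw [ΔN]; exact hN.le
      _ = _ := by linear_combination (-4 * e₁ ^ 2 * r * N) * δN
  have key : ∀ k : ℕ, k ≤ N → ∃ U ν', Sup v (fun x => (1 - e₁ / (e₁ + k * Δ)) * s x)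
      (e₁ + k * Δ) ρ U ν' ∧ ρ * ∫ x, U x ≤ θ + k * δ := by
    intro k
    induction k with
    | zero =>
      intro _
      refine ⟨u, ν, ?_, by simpa using hx⟩
      simpa [he.ne'] using h
    | succ k ih =>
      intro hk
      obtain ⟨U, ν', h1, h2⟩ := ih (Nat.le_of_succ_le hk)
      have hk' : (k : ℝ) + 1 ≤ N := by exact_mod_cast hk
      have k0 : 0 ≤ k * Δ := by positivity
      have k1 := mul_le_mul_of_nonneg_right hk' Δ0.le
      have k2 := mul_le_mul_of_nonneg_right hk' δ0.le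
      have ek : 0 < e₁ + k * Δ := by linarith
      obtain ⟨U', ν'', h3, h4⟩ := step (e' := e₁ + k * Δ + Δ) (δ := δ) (X := 1 - r) G uK iK mK iw
        ns (fun x => by linarith [sb x]) hv iv wv vw ek (by linarith) (by linarith) hρ
        (hc.trans (mul_le_mul_of_nonneg_right (by linarith) hρ.le)) (by linarith)
        (sub_nonneg.2 ((div_le_one ek).2 (by linarith))) (sub_le_self _ (by positivity)) h1 h2
        δ0.le (by
          have : e₁ ^ 2 ≤ (e₁ + k * Δ + Δ) ^ 2 := pow_le_pow_left₀ he.le (by linarith) 2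
          have := mul_le_mul_of_nonneg_right this (mul_pos r0 δ0).le
          linarith) (by linarith) (by linarith)
      refine ⟨U', ν'', ?_, by push_cast; linarith⟩
      have q1 : e₁ + ((k + 1 : ℕ) : ℝ) * Δ = e₁ + k * Δ + Δ := by push_cast; ring
      have q2 : 1 - e₁ / (e₁ + k * Δ + Δ) = (e₁ + k * Δ) / (e₁ + k * Δ + Δ)
          * (1 - e₁ / (e₁ + k * Δ)) + (1 - (e₁ + k * Δ) / (e₁ + k * Δ + Δ)) := by
        have : 0 < e₁ + k * Δ + Δ := by linarith
        field_simp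
        ring
      rw [q1, q2]
      exact h3
  obtain ⟨U, ν', h1, h2⟩ := key N le_rfl
  have : e₁ + N * Δ = e₂ := by linarith
  rw [this] at h1
  exact ⟨U, ν', h1, by linarith⟩

theorem Sup.mass [Nontrivial E] (h : Sup v s e ρ u ν) :
    ρ * ∫ x, ν x = 2 * e - 2 * e * (1 - ρ * ∫ x, u x) ^ 2 := by
  have h1 := h.eq.integral h.int h.srci
  rw [integral_add (isub h.iν (h.int.const_mul _)) ((integrable_cv h.int h.int).const_mul _),
    integral_sub h.iν (h.int.const_mul _), integral_const_mul, integral_const_mul,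
    integral_cv h.int h.int] at h1
  linear_combination ρ * h1

theorem Sol.sup {p : E → ℝ} {ρ' : ℝ} (h : Sol v e ρ u) (iv : Integrable v) (he : 0 < e)
    (pv : ∀ x, p x ≤ v x) (hρ : ρ' ≤ ρ) :
    Sup p (fun _ => 0) e ρ' u fun x => v x * (1 - u x) + 2 * e * (ρ - ρ') * cv u u x := by
  refine ⟨h.u01, h.int, iadd (h.u01.bm'.int_mul iv) ((integrable_cv h.int h.int).const_mul _),
    fun μ hμ => (h.eq μ hμ).trans (Eventually.of_forall fun x => ?_),
    Eventually.of_forall fun x => ?_⟩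
  · congr with y
    unfold src
    ring
  · have a1 := mul_le_mul_of_nonneg_right (pv x) (sub_nonneg.2 (h.u01.le x))
    have a2 := mul_nonneg (mul_nonneg (by positivity : 0 ≤ 2 * e) (sub_nonneg.2 hρ))
      (cv_nonneg h.u01.nn h.u01.nn x)
    linarith

theorem Sol.con' (h : Sol v e ρ u) (iv : Integrable v) : ρ * ∫ x, v x * (1 - u x) = 2 * e := by
  rw [← h.con, ← integral_sub iv (h.u01.bm.int_mul iv)]
  congr with x
  ring

theorem Sol.mass' [Nontrivial E] (h : Sol v e ρ u) (iv : Integrable v) (he : 0 < e) :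
    ρ * ∫ x, u x = 1 := by
  have h1 := (h.sup iv he (fun _ => le_rfl) le_rfl).mass
  simp only [sub_self, mul_zero, zero_mul, add_zero] at h1
  rw [h.con' iv] at h1
  have h2 : (1 - ρ * ∫ x, u x) ^ 2 = 0 := by
    refine mul_left_cancel₀ (by positivity : (2 * e) ≠ 0) ?_
    linarith
  linarith [pow_eq_zero_iff two_ne_zero |>.1 h2]

theorem Sup.above (h : Sup v s e ρ u ν) (s0 : ∀ x, 0 ≤ s x) (hv : Pot1 v M) (iv : Integrable v)
    (he : 0 < e) (hρ : 0 ≤ ρ) (hZ : U01 Z) (iZ : Integrable Z) (Zu : ∀ x, Z x ≤ u x) :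
    cv (yk (M + 4 * e)) (isrc v (fun _ => 0) M (2 * e * ρ) Z) ≤ᵐ[volume] u := by
  have hμ : 0 < M + 4 * e := by linarith [(hv.nn 0).trans (hv.le 0)]
  refine EventuallyLE.trans ?_ (h.eq _ hμ).symm.le
  refine cv_mono_ae (yk_int hμ) (yk_nn _) (isrc_int hv iv (integrable_zero _ _ _) iZ)
    (iadd h.srci (h.int.const_mul _)) ?_
  filter_upwards [h.ge, isrc_mono (s := fun _ => 0) hv (by positivity : 0 ≤ 2 * e * ρ) hZ iZ h.u01
    h.int (Eventually.of_forall Zu)] with y h1 h2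
  have := s0 y
  simp only [isrc] at *
  linarith

theorem trunc1 (hw : NI w) {δ : ℝ} (hδ : 0 < δ) :
    ∃ M : ℝ, 1 ≤ M ∧ Pot1 (fun x => min (w x) M) M ∧ Integrable (fun x => min (w x) M) ∧
      (∫ y, w y) - ∫ y, min (w y) M ≤ δ := by
  have lim : Tendsto (fun n : ℕ => ∫ y, min (w y) n) atTop (𝓝 (∫ y, w y)) := by
    refine tendsto_integral_of_dominated_convergence w
      (fun n => hw.int.aestronglyMeasurable.inf aestronglyMeasurable_const) hw.int
      (fun n => Eventually.of_forall fun y => ?_) (Eventually.of_forall fun y => ?_)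
    · rw [Real.norm_of_nonneg (le_min (hw.nn y) n.cast_nonneg)]
      exact min_le_left _ _
    · refine tendsto_const_nhds.congr' ?_
      filter_upwards [tendsto_natCast_atTop_atTop.eventually_ge_atTop (w y)] with n hn
      exact (min_eq_left hn).symm
  obtain ⟨n, hn, hn1⟩ :=
    ((lim.eventually_const_lt (sub_lt_self _ hδ)).and (eventually_ge_atTop 1)).exists
  have p : Pot1 (fun x => min (w x) n) n := ⟨hw.meas.min measurable_const,
    fun x => le_min (hw.nn x) n.cast_nonneg, fun x => min_le_right _ _⟩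
  refine ⟨n, by exact_mod_cast hn1, p, hw.int.mono' p.meas.aestronglyMeasurable
    (Eventually.of_forall fun x => ?_), by linarith⟩
  rw [Real.norm_of_nonneg (p.nn x)]
  exact min_le_left _ _

theorem mono_ni [Nontrivial E] {ρ₁ ρ₂ : ℝ} {u₁ u₂ : E → ℝ} (hw : NI w) (he₁ : 0 < e₁)
    (he : e₁ < e₂) (hρ₂ : 0 < ρ₂) (h₁ : Sol w e₁ ρ₁ u₁) (h₂ : Sol w e₂ ρ₂ u₂) :
    ρ₁ < ρ₂ := by
  by_contra hcon
  rw [not_lt] at hcon
  have he₂ : 0 < e₂ := he₁.trans he
  have m₁ := h₁.mass' hw.int he₁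
  have k₂ := h₂.con' hw.int
  have j₂ := h₂.u01.bm'.int_mul hw.int
  have w0 : 0 < ∫ x, w x := by
    have h1 : ∫ x, w x * (1 - u₂ x) ≤ ∫ x, w x := integral_mono j₂ hw.int fun x =>
      mul_le_of_le_one_right (hw.nn x) (by linarith [h₂.u01.nn x])
    have h2 : 0 < ρ₂ * ∫ x, w x * (1 - u₂ x) := by linarith
    exact ((mul_pos_iff_of_pos_left hρ₂).1 h2).trans_le h1
  obtain ⟨K, s, uK, iK, mK, ns, sb, s0, G⟩ := exists_gain (A := 4 * e₂) (c := e₁ * ρ₂)
    (c' := 4 * e₁) (b := 2 * e₁) hw w0 (by positivity) (by positivity) (by positivity)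
    (by positivity)
  have iw : Integrable fun x => min (w x) 1 :=
    hw.int.mono' (hw.meas.min measurable_const).aestronglyMeasurable
      (Eventually.of_forall fun x => by
        rw [Real.norm_of_nonneg (le_min (hw.nn x) zero_le_one)]; exact min_le_left _ _)
  have σ0 : 0 < 1 - e₁ / e₂ := sub_pos.2 ((div_lt_one he₂).2 he)
  obtain ⟨g, hg⟩ : ∃ g, g = (1 - e₁ / e₂) * ∫ x, s x := ⟨_, rfl⟩
  have g0 : 0 < g := by rw [hg]; positivity
  obtain ⟨L, L1, -, iL, hL⟩ := trunc1 hw (δ := g / 10) (by positivity)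
  obtain ⟨η, hη⟩ : ∃ η, η = ρ₂ * g / 10 / L := ⟨_, rfl⟩
  have η0 : 0 < η := by rw [hη]; positivity
  have Lη : L * η = ρ₂ * g / 10 := by rw [hη]; field_simp
  obtain ⟨β, β0, β1, β2, β3⟩ : ∃ β, 0 < β ∧ β ≤ ρ₂ * g / 10 ∧ β ≤ e₂ * η ^ 2 ∧ β ≤ e₂ :=
    ⟨min (ρ₂ * g / 10) (min (e₂ * η ^ 2) e₂), by positivity, min_le_left _ _,
      (min_le_right _ _).trans (min_le_left _ _), (min_le_right _ _).trans (min_le_right _ _)⟩
  obtain ⟨θ, hθ⟩ : ∃ θ, θ = 1 - β / (2 * e₂) := ⟨_, rfl⟩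
  have θe : 2 * e₂ * (1 - θ) = β := by rw [hθ]; field_simp; ring
  have θ1 : θ < 1 := by rw [hθ]; exact sub_lt_self _ (by positivity)
  have θ0 : 1 / 2 ≤ θ := by nlinarith
  obtain ⟨M, M1, hp, ip, hM⟩ := trunc1 hw (δ := β / ρ₂) (by positivity)
  obtain ⟨ρ, hρd⟩ : ∃ ρ, ρ = θ * ρ₂ := ⟨_, rfl⟩
  have ρ1 : ρ₂ / 2 ≤ ρ := by nlinarith
  have ρ2 : ρ ≤ ρ₂ := by nlinarith
  have hρ : 0 < ρ := by linarith
  have pw : ∀ x, min (w x) M ≤ w x := fun x => min_le_left _ _
  obtain ⟨U, ν, hU, U1⟩ := chain G uK iK mK iw ns sb hp ip (fun x => min_le_min_left _ M1) pw he₁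
    he le_rfl hρ (by nlinarith) le_rfl (h₁.sup hw.int he₁ pw (ρ2.trans hcon)) (θ := θ) (by
      have := mul_le_mul_of_nonneg_right hcon (integral_nonneg (μ := volume) h₁.u01.nn)
      rw [hρd, mul_assoc]
      exact mul_le_of_le_one_right (by linarith) (this.trans_eq m₁)) θ1
  have S₂ := h₂.sup hw.int he₂ pw ρ2
  set Z : E → ℝ := fun x => min (u₂ x) (U x) with hZ
  have uZ : U01 Z := ⟨h₂.u01.meas.min hU.u01.meas, fun x => le_min (h₂.u01.nn x) (hU.u01.nn x),
    fun x => (min_le_left _ _).trans (h₂.u01.le x)⟩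
  have iZ : Integrable Z := h₂.int.inf hU.int
  have hμ : 0 < M + 4 * e₂ := by linarith
  have hY := yk_ker (E := E) hμ
  have iI := isrc_int (s := fun _ => 0) (c := 2 * e₂ * ρ) hp ip (integrable_zero _ _ _) iZ
  have jZ := uZ.bm'.int_mul ip
  have A1 : ∫ x, cv (yk (M + 4 * e₂)) (isrc (fun x => min (w x) M) (fun _ => 0) M (2 * e₂ * ρ) Z) x
      ≤ ∫ x, Z x := by
    refine integral_mono_ae (integrable_cv hY.int iI) iZ ?_
    filter_upwards [S₂.above (fun _ => le_rfl) hp ip he₂ hρ.le uZ iZ fun x => min_le_left _ _,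
      hU.above (fun x => mul_nonneg σ0.le (ns.nn x)) hp ip he₂ hρ.le uZ iZ
        fun x => min_le_right _ _] with x h1 h2
    exact le_min h1 h2
  have A2 : ∫ x, isrc (fun x => min (w x) M) (fun _ => 0) M (2 * e₂ * ρ) Z x
      = (∫ x, min (w x) M * (1 - Z x)) + M * (∫ x, Z x) + 2 * e₂ * ρ * ((∫ x, Z x) * ∫ x, Z x) := by
    rw [← integral_cv iZ iZ, ← integral_const_mul, ← integral_const_mul,
      ← integral_add jZ (iZ.const_mul M),
      ← integral_add (iadd jZ (iZ.const_mul M)) ((integrable_cv iZ iZ).const_mul _)]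
    congr with x
    unfold isrc
    ring
  rw [integral_cv hY.int iI, hY.mass, inv_mul_le_iff₀ hμ, A2] at A1
  have A3 : (∫ x, w x * (1 - u₂ x)) - β / ρ₂ ≤ ∫ x, min (w x) M * (1 - Z x) := by
    have : ∫ x, w x * (1 - u₂ x) ≤ ∫ x, (min (w x) M * (1 - Z x) + (w x - min (w x) M)) := by
      refine integral_mono j₂ (iadd jZ (isub hw.int ip)) fun x => ?_
      have a1 := mul_le_mul_of_nonneg_left (min_le_left (u₂ x) (U x)) (hp.nn x)
      have a2 := mul_nonneg (sub_nonneg.2 (pw x)) (h₂.u01.nn x)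
      simp only [hZ]
      linarith
    rw [integral_add jZ (isub hw.int ip), integral_sub hw.int ip] at this
    linarith
  have jU := hU.u01.bm'.int_mul ip
  have A4 : ∫ x, min (w x) M * (1 - Z x) ≤ (∫ x, min (w x) M * (1 - U x))
      + L * ((∫ x, U x) - ∫ x, Z x) + g / 10 := by
    have : ∫ x, min (w x) M * (1 - Z x)
        ≤ ∫ x, (min (w x) M * (1 - U x) + L * (U x - Z x) + (w x - min (w x) L)) := by
      refine integral_mono jZ (iadd (iadd jU ((isub hU.int iZ).const_mul L)) (isub hw.int iL))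
        fun x => ?_
      have a0 : 0 ≤ U x - Z x := sub_nonneg.2 (min_le_right _ _)
      have a1 := mul_le_mul_of_nonneg_right (pw x) a0
      have a2 := mul_le_mul_of_nonneg_right (min_le_right (w x) L) a0
      have a3 := mul_le_of_le_one_right (sub_nonneg.2 (min_le_left (w x) L))
        (show U x - Z x ≤ 1 by linarith [hU.u01.le x, uZ.nn x])
      simp only
      linarith
    rw [integral_add (iadd jU ((isub hU.int iZ).const_mul L)) (isub hw.int iL),
      integral_add jU ((isub hU.int iZ).const_mul L), integral_const_mul,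
      integral_sub hU.int iZ, integral_sub hw.int iL] at this
    linarith
  have A5 : (∫ x, min (w x) M * (1 - U x)) + g ≤ ∫ x, ν x := by
    rw [hg, ← integral_const_mul, ← integral_add jU (ns.int.const_mul _)]
    exact integral_mono_ae (iadd jU (ns.int.const_mul _)) hU.iν hU.ge
  have A6 := hU.mass
  generalize ∫ x, min (w x) M * (1 - Z x) = a at *
  generalize ∫ x, min (w x) M * (1 - U x) = b at *
  generalize ∫ x, w x * (1 - u₂ x) = c at *
  generalize ∫ x, Z x = z at *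
  generalize ∫ x, U x = y at *
  generalize ∫ x, ν x = n at *
  have B1 : 2 * e₂ - 2 * β ≤ ρ * a := by
    have y1 := mul_le_mul_of_nonneg_left A3 hρ.le
    have y2 : ρ * c = 2 * e₂ - β := by rw [hρd, mul_assoc, k₂]; linarith only [θe]
    have y3 : ρ * (β / ρ₂) ≤ β := by
      rw [mul_div_assoc', div_le_iff₀ hρ₂]
      linarith only [mul_le_mul_of_nonneg_left ρ2 β0.le]
    linarith only [y1, y2, y3]
  have B2 : 1 - ρ * z ≤ η := by
    refine (abs_le_of_sq_le_sq' (le_of_mul_le_mul_left ?_ he₂) η0.le).2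
    linarith only [mul_le_mul_of_nonneg_left A1 hρ.le, B1, β2]
  have y1 := mul_le_mul_of_nonneg_left A4 hρ.le
  have y2 := mul_le_mul_of_nonneg_left A5 hρ.le
  have y3 := mul_le_mul_of_nonneg_left (show ρ * y - ρ * z ≤ η by linarith) (zero_le_one.trans L1)
  have y4 := mul_le_mul_of_nonneg_right ρ1 g0.le
  have y5 := mul_nonneg he₂.le (sq_nonneg (1 - ρ * y))
  have y6 := mul_pos hρ₂ g0
  linarith only [y1, y2, y3, y4, y5, y6, B1, A6, Lη, β1]

theorem mono_all [Nontrivial E] {ρ₁ ρ₂ : ℝ} {u₁ u₂ : E → ℝ} (hv0 : ∀ x, 0 ≤ v x)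
    (hv : Integrable v) (he₁ : 0 < e₁) (he : e₁ < e₂) (hρ₂ : 0 < ρ₂)
    (h₁ : Sol v e₁ ρ₁ u₁) (h₂ : Sol v e₂ ρ₂ u₂) : ρ₁ < ρ₂ := by
  have hm := hv.aestronglyMeasurable
  let w : E → ℝ := fun x => max (hm.mk v x) 0
  have wv : w =ᵐ[volume] v := hm.ae_eq_mk.mono fun x hx => by
    simp only [w, ← hx, max_eq_left (hv0 x)]
  have tr : ∀ {e ρ : ℝ} {u : E → ℝ}, Sol v e ρ u → Sol w e ρ u := by
    intro e ρ u h
    refine ⟨h.u01, h.int, fun μ hμ => ?_, ?_⟩
    · rw [cv_congr (b' := src v (μ - 4 * e) (2 * e * ρ) u u)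
        (wv.mono fun y hy => by simp only [src, hy])]
      exact h.eq μ hμ
    · have : (fun y => w y * u y) =ᵐ[volume] fun y => v y * u y :=
        wv.mono fun y hy => by simp only [hy]
      rw [← h.con, integral_congr_ae wv, integral_congr_ae this]
  exact mono_ni ⟨hm.stronglyMeasurable_mk.measurable.max measurable_const,
    fun x => le_max_right _ _, hv.congr wv.symm⟩ he₁ he hρ₂ (tr h₁) (tr h₂)

end Pool.Agent.Lib.MP_dec75e_mp.SE
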