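import Pool.Agent.Lib.MP_dec75e_mp.SE.GGain

/-! General potentials: one small step in the energy at fixed density. -/

open MeasureTheory Filter Topology

namespace Pool.Agent.Lib.MP_dec75e_mp.SE

variable {E : Type*} [NormedAddCommGroup E] [InnerProductSpace ℝ E] [FiniteDimensional ℝ E]
  [MeasurableSpace E] [BorelSpace E]

/-- supersolution of the Simple equation with the extra source `s` -/
structure Sup (v s : E → ℝ) (e ρ : ℝ) (u ν : E → ℝ) : Prop where
  u01 : U01 u
  int : Integrable u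
  iν : Integrable ν
  eq : Mild u fun x => ν x - 4 * e * u x + 2 * e * ρ * cv u u x
  ge : ∀ᵐ x, v x * (1 - u x) + s x ≤ ν x

variable {v s u ν w K U U' : E → ℝ} {e e' ρ A c c' M m μ σ : ℝ}

theorem cv_mono2 {G G' : E → ℝ} (hG : U01 G) (iG : Integrable G) (iG' : Integrable G')
    (iU : Integrable U) (hU' : U01 U') (iU' : Integrable U') (h1 : G ≤ᵐ[volume] G')
    (h2 : U ≤ᵐ[volume] U') (x : E) : cv G U x ≤ cv G' U' x := by
  refine le_trans ?_ (cv_mono_left iG iG' hU' h1 x)
  rw [cv_comm G U, cv_comm G U']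
  exact cv_mono_left iU iU' hG h2 x

/-- source of the iteration -/
noncomputable def isrc (v s : E → ℝ) (m c : ℝ) (U : E → ℝ) (y : E) : ℝ :=
  v y + s y + (m - v y) * U y + c * cv U U y

theorem isrc_bm (hv : Pot1 v m) (hs : BM s) (hU : U01 U) (iU : Integrable U) :
    BM (isrc v s m c U) :=
  ((hv.bm.add hs).add (hv.bm'.mul hU.bm)).add ((hU.bm.cv iU hU.meas).cmul c)

theorem isrc_int (hv : Pot1 v m) (iv : Integrable v) (is : Integrable s) (iU : Integrable U) :
    Integrable (isrc v s m c U) :=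
  iadd (iadd (iadd iv is) (hv.bm'.mul_int iU)) ((integrable_cv iU iU).const_mul c)

theorem isrc_mono (hv : Pot1 v m) (hc : 0 ≤ c) (hU : U01 U) (iU : Integrable U) (hU' : U01 U')
    (iU' : Integrable U') (h : U ≤ᵐ[volume] U') :
    isrc v s m c U ≤ᵐ[volume] isrc v s m c U' := by
  filter_upwards [h] with y hy
  have a1 := mul_le_mul_of_nonneg_left (cv_mono2 hU iU iU' iU hU' iU' h h y) hc
  have a2 := mul_le_mul_of_nonneg_left hy (sub_nonneg.2 (hv.le y))
  unfold isrc
  linarith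

theorem iterate {Y : E → ℝ} {b B : ℝ} (hY : Ker Y μ) (hv : Pot1 v m) (iv : Integrable v)
    (ns : NI s) (sb : ∀ x, s x ≤ b) (hc : 0 ≤ c) (hμ : m + b + c * B ≤ μ) (uK : U01 K)
    (iK : Integrable K) (K1 : K ≤ᵐ[volume] cv Y (isrc v s m c K)) (KB : ∫ x, K x ≤ B)
    (hstep : ∀ U, U01 U → Integrable U → ∫ x, U x ≤ B → K ≤ᵐ[volume] U →
      U ≤ᵐ[volume] cv Y (isrc v s m c U) → U01 (cv Y (isrc v s m c U)) →
      ∫ x, cv Y (isrc v s m c U) x ≤ B) :
    ∃ S, U01 S ∧ Integrable S ∧ ∫ x, S x ≤ B ∧ ∀ x, S x = cv Y (isrc v s m c S) x := by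
  have bs : BM s := BM.of_bounds ns.meas ns.nn sb
  have nn : ∀ U, U01 U → ∀ y, 0 ≤ isrc v s m c U y := fun U h y =>
    add_nonneg (add_nonneg (add_nonneg (hv.nn y) (ns.nn y))
      (mul_nonneg (sub_nonneg.2 (hv.le y)) (h.nn y))) (mul_nonneg hc (cv_nonneg h.nn h.nn y))
  have le : ∀ U, U01 U → Integrable U → ∫ x, U x ≤ B → ∀ y, isrc v s m c U y ≤ μ := by
    intro U h1 h2 h3 y
    have a1 := cv_le h2 h1.nn h1.bm h1.le y
    have a2 := mul_le_mul_of_nonneg_left (h1.le y) (sub_nonneg.2 (hv.le y))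
    have a3 := mul_le_mul_of_nonneg_left (a1.trans (by linarith : _ ≤ B)) hc
    have := sb y
    unfold isrc
    linarith
  let Φ : (E → ℝ) → E → ℝ := fun U => cv Y (isrc v s m c U)
  let P : (E → ℝ) → Prop := fun U =>
    U01 U ∧ Integrable U ∧ ∫ x, U x ≤ B ∧ K ≤ᵐ[volume] U ∧ U ≤ᵐ[volume] Φ U
  have step : ∀ U, P U → P (Φ U) ∧ ∀ x, Φ U x ≤ Φ (Φ U) x := by
    rintro U ⟨h1, h2, h3, h4, h5⟩
    have hb := isrc_bm (c := c) hv bs h1 h2
    have u1 : U01 (Φ U) := ⟨measurable_cv hY.meas hb.1, cv_nonneg hY.nn (nn U h1), fun x =>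
      (cv_le hY.int hY.nn hb (le U h1 h2 h3) x).trans_eq (by
        rw [hY.mass, inv_mul_cancel₀ hY.pos.ne'])⟩
    have i1 : Integrable (Φ U) := integrable_cv hY.int (isrc_int hv iv ns.int h2)
    have mo : ∀ x, Φ U x ≤ Φ (Φ U) x :=
      cv_mono_pt hY.int hY.nn hb (isrc_bm hv bs u1 i1) (isrc_mono hv hc h1 h2 u1 i1 h5)
    exact ⟨⟨u1, i1, hstep U h1 h2 h3 h4 h5 u1, h4.trans h5, Eventually.of_forall mo⟩, mo⟩
  let W : ℕ → E → ℝ := fun n => Φ^[n] K
  have Ws : ∀ n, W (n + 1) = Φ (W n) := fun n => Function.iterate_succ_apply' _ _ _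
  have PW : ∀ n, P (W n) := by
    intro n
    induction n with
    | zero => exact ⟨uK, iK, KB, EventuallyLE.rfl, K1⟩
    | succ n ih => rw [Ws]; exact (step _ ih).1
  have mono : ∀ n x, W (n + 1) x ≤ W (n + 1 + 1) x := fun n x => by
    rw [Ws (n + 1), Ws n]
    exact (step _ (PW n)).2 x
  obtain ⟨S, mS, S0, S1, WS, lim, hi⟩ := mono_lim (W := fun n => W (n + 1))
    (fun n => (PW _).1.meas) (fun n => (PW _).1.nn) (fun n => (PW _).1.le) mono
  obtain ⟨iS, SB⟩ := hi B (fun n => (PW _).2.1) fun n => (PW _).2.2.1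
  refine ⟨S, ⟨mS, S0, S1⟩, iS, SB, fun x => ?_⟩
  have l1 : Tendsto (fun n => W (n + 1 + 1) x) atTop (𝓝 (S x)) :=
    (lim x).comp (tendsto_add_atTop_nat 1)
  have l2 : Tendsto (fun n => Φ (W (n + 1)) x) atTop (𝓝 (Φ S x)) := by
    refine cv_tendsto hY.int (fun n => (isrc_bm hv bs (PW _).1 (PW _).2.1).1) (C := μ)
      (fun n y => ?_) (fun y => ?_) x
    · rw [abs_of_nonneg (nn _ (PW _).1 y)]
      exact le _ (PW _).1 (PW _).2.1 (PW _).2.2.1 y
    · have : Tendsto (fun n => cv (W (n + 1)) (W (n + 1)) y) atTop (𝓝 (cv S S y)) := by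
        refine tendsto_integral_of_dominated_convergence S
          (fun n => ((PW _).1.bm.int_cv (PW _).2.1 y).aestronglyMeasurable) iS
          (fun n => Eventually.of_forall fun z => ?_)
          (Eventually.of_forall fun z => (lim z).mul (lim _))
        rw [Real.norm_of_nonneg (mul_nonneg ((PW _).1.nn _) ((PW _).1.nn _))]
        exact (mul_le_of_le_one_right ((PW _).1.nn _) ((PW _).1.le _)).trans (WS n z)
      exact (tendsto_const_nhds.add ((lim y).const_mul _)).add (this.const_mul c)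
  simp_rw [Ws (_ + 1)] at l1
  exact tendsto_nhds_unique l1 l2

theorem Sup.srci (h : Sup v s e ρ u ν) :
    Integrable fun x => ν x - 4 * e * u x + 2 * e * ρ * cv u u x :=
  iadd (isub h.iν (h.int.const_mul _)) ((integrable_cv h.int h.int).const_mul _)

theorem Sup.lower (h : Sup v s e ρ u ν) (s0 : ∀ x, 0 ≤ s x) (he : 0 < e) (hρ : 0 ≤ ρ)
    (hA : 4 * e ≤ A) {w₁ : E → ℝ} (w1 : ∀ x, w₁ x ≤ 1) (wv : ∀ x, w₁ x ≤ v x)
    (iw : Integrable w₁) (iK : Integrable K) (mK : Mild K fun x => w₁ x - (A + 1) * K x) :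
    K ≤ᵐ[volume] u := by
  have hA1 : 0 < A + 1 := by linarith
  refine (mK _ hA1).le.trans (EventuallyLE.trans ?_ (h.eq _ hA1).symm.le)
  refine cv_mono_ae (yk_int hA1) (yk_nn _) (iadd (isub iw (iK.const_mul _)) (iK.const_mul _))
    (iadd h.srci (h.int.const_mul _)) ?_
  filter_upwards [h.ge] with y hy
  have a1 := mul_nonneg (by positivity : 0 ≤ 2 * e * ρ) (cv_nonneg h.u01.nn h.u01.nn y)
  have a2 := mul_le_mul_of_nonneg_right (wv y) (sub_nonneg.2 (h.u01.le y))
  have a3 := mul_le_mul_of_nonneg_right (w1 y) (h.u01.nn y)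
  have a4 := mul_le_mul_of_nonneg_right hA (h.u01.nn y)
  have := s0 y
  linarith

theorem step [Nontrivial E] {x₀ δ X : ℝ} (G : Gain A c c' w K s) (uK : U01 K) (iK : Integrable K)
    (mK : Mild K fun x => min (w x) 1 - (A + 1) * K x) (iw : Integrable fun x => min (w x) 1)
    (ns : NI s) (sb : ∀ x, s x ≤ 2 * e') (hv : Pot1 v M) (iv : Integrable v)
    (wv : ∀ x, min (w x) 1 ≤ v x) (vw : ∀ x, v x ≤ w x) (he : 0 < e) (hee : e < e')
    (hA : 4 * e' ≤ A) (hρ : 0 < ρ) (hc : c ≤ 2 * e' * ρ) (hc' : c' ≤ 4 * e)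
    (σ0 : 0 ≤ σ) (σ1 : σ ≤ 1) (h : Sup v (fun x => σ * s x) e ρ u ν) (hx : ρ * ∫ x, u x ≤ x₀)
    (δ0 : 0 ≤ δ) (hδ : 10 * (e' - e) ^ 2 ≤ 4 * e' ^ 2 * (1 - X) * δ) (hX : x₀ + δ ≤ X)
    (X1 : X < 1) :
    ∃ U ν', Sup v (fun x => (e / e' * σ + (1 - e / e')) * s x) e' ρ U ν' ∧
      ρ * ∫ x, U x ≤ x₀ + δ := by
  have he' : 0 < e' := he.trans hee
  have h4 : 0 < 4 * e := by positivity
  have M0 : 0 ≤ M := (hv.nn 0).trans (hv.le 0)
  obtain ⟨τ, hτ⟩ : ∃ τ, τ = e / e' := ⟨_, rfl⟩
  obtain ⟨d, hd⟩ : ∃ d, d = (e' - e) / e := ⟨_, rfl⟩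
  rw [← hτ]
  have τ0 : 0 < τ := by rw [hτ]; positivity
  have τe : e' * τ = e := by rw [hτ]; field_simp
  have τ1 : 0 < 1 - τ := by rw [hτ, sub_pos, div_lt_one he']; exact hee
  have d0 : 0 < d := by rw [hd]; exact div_pos (by linarith) he
  have de : d * e = e' - e := by rw [hd]; field_simp
  have τd : τ * d = 1 - τ := by rw [hτ, hd]; field_simp
  have Y4 := yk_ker (E := E) h4
  set H : E → ℝ := fun y => 4 * e * yk (4 * e) y with hH
  have nH : NI H := (NI.mk Y4.meas Y4.nn Y4.int).cmul h4.le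
  have eH : ∀ x, H (-x) = H x := fun x => by simp only [hH, Y4.even]
  have H1 : ∫ y, H y = 1 := by rw [integral_const_mul, Y4.mass, mul_inv_cancel₀ h4.ne']
  have hu := h.u01
  have iu := h.int
  set u₁ := cv H u with hu₁
  have uu₁ : U01 u₁ := ⟨measurable_cv nH.meas hu.meas, cv_nonneg nH.nn hu.nn, fun x =>
    (cv_le nH.int nH.nn hu.bm hu.le x).trans_eq (by rw [H1, one_mul])⟩
  have iu₁ : Integrable u₁ := integrable_cv nH.int iu
  have I₁ : ∫ x, u₁ x = ∫ x, u x := by rw [hu₁, integral_cv nH.int iu, H1, one_mul]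
  have m₁ : Mild u₁ fun x => 4 * e * u x - 4 * e * u₁ x := Mild.of_one h4 (iu.const_mul _)
    (Eventually.of_forall fun x => by rw [cv_cmul, hu₁, hH, cv_cmul_left])
  set ut : E → ℝ := fun x => τ * u x + (1 - τ) * u₁ x with hut
  have uut : U01 ut := ⟨(measurable_const.mul hu.meas).add (measurable_const.mul uu₁.meas),
    fun x => add_nonneg (mul_nonneg τ0.le (hu.nn x)) (mul_nonneg τ1.le (uu₁.nn x)), fun x => by
      have a1 := mul_le_mul_of_nonneg_left (hu.le x) τ0.le
      have a2 := mul_le_mul_of_nonneg_left (uu₁.le x) τ1.le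
      simp only [hut]
      linarith⟩
  have iut : Integrable ut := iadd (iu.const_mul _) (iu₁.const_mul _)
  have It : ∫ x, ut x = ∫ x, u x := by
    rw [hut, integral_add (iu.const_mul _) (iu₁.const_mul _), integral_const_mul,
      integral_const_mul, I₁]
    ring
  have j₁ := isub (iu.const_mul (4 * e)) (iu₁.const_mul (4 * e))
  have mt := h.eq.comb m₁ iu h.srci iu₁ j₁ τ (1 - τ)
  have cl : ∀ {b : E → ℝ}, BM b → ∀ y, cv ut b y = τ * cv u b y + (1 - τ) * cv u₁ b y :=
    fun hb y => by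
      rw [hut, cv_add_left (iu.const_mul _) (iu₁.const_mul _) hb, cv_cmul_left, cv_cmul_left]
  have ctt : ∀ y, cv ut ut y
      = τ ^ 2 * cv u u y + 2 * τ * (1 - τ) * cv u₁ u y + (1 - τ) ^ 2 * cv u₁ u₁ y := fun y => by
    rw [cl uut.bm, cv_comm u ut, cv_comm u₁ ut, cl hu.bm, cl uu₁.bm, cv_comm u u₁]
    ring
  set n₁ : E → ℝ := fun x => 4 * e * u x - 2 * e * ρ * cv u₁ u x with hn₁
  have in₁ : Integrable n₁ := isub (iu.const_mul _) ((integrable_cv iu₁ iu).const_mul _)
  have en₁ : n₁ =ᵐ[volume] cv H ν := by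
    filter_upwards [h.eq _ h4, cv_comb_ae Y4.int h.iν (integrable_cv iu iu) 1 (2 * e * ρ)]
      with x h1 h2
    have h3 : cv u₁ u x = 4 * e * cv (yk (4 * e)) (cv u u) x := by
      rw [hu₁, cv_assoc nH.int hu.bm iu, hH, cv_cmul_left]
    have h5 : cv (yk (4 * e)) (fun x => ν x - 4 * e * u x + 2 * e * ρ * cv u u x + 4 * e * u x) x
        = cv (yk (4 * e)) (fun y => 1 * ν y + 2 * e * ρ * cv u u y) x := by
      congr with y; ring
    rw [h5, h2] at h1
    simp only [hn₁]
    rw [h3, hH, cv_cmul_left, h1]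
    ring
  have σs : ∀ x, 0 ≤ σ * s x := fun x => mul_nonneg σ0 (ns.nn x)
  have ν0 : 0 ≤ᵐ[volume] ν := h.ge.mono fun x hx =>
    (add_nonneg (mul_nonneg (hv.nn x) (sub_nonneg.2 (hu.le x))) (σs x)).trans hx
  have n0 : ∀ᵐ x, 0 ≤ n₁ x := en₁.mono fun x hx => hx ▸ cv_nonneg_ae nH.nn ν0 x
  obtain ⟨μ, hμd⟩ : ∃ μ, μ = A + 2 * M := ⟨_, rfl⟩
  obtain ⟨m, hmd⟩ : ∃ m, m = μ - 4 * e' := ⟨_, rfl⟩
  have hμ : 0 < μ := by linarith
  have hY := yk_ker (E := E) hμ
  have hvm : Pot1 v m := ⟨hv.meas, hv.nn, fun x => by linarith [hv.le x]⟩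
  have c2 : 0 < 2 * e' * ρ := by positivity
  have nπ : NI fun y => 2 * e' * ρ * ut y := (NI.of uut iut).cmul c2.le
  have iνs := iadd h.iν (in₁.const_mul d)
  have Pr : Prim (yk μ) m (fun y => 2 * e' * ρ * ut y) v u fun x => ν x + d * n₁ x := by
    refine ⟨hu, iu, iνs, (h.eq μ hμ).trans (Eventually.of_forall fun x => ?_), ?_⟩
    · congr with y
      rw [cv_cmul_left, cl hu.bm, hmd]
      simp only [hn₁]
      linear_combination (-2 * ρ * cv u u y + 2 * ρ * cv u₁ u y) * τe
        + (-4 * u y + 2 * ρ * cv u₁ u y) * de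
    · filter_upwards [h.ge, n0] with x h1 h2
      linarith [σs x, mul_nonneg d0.le h2]
  have Ku : K ≤ᵐ[volume] u := h.lower σs he hρ.le (by linarith) (fun x => min_le_right _ _) wv iw
    iK mK
  set σ' := τ * σ + (1 - τ) with hσ'
  have σ'0 : 0 ≤ σ' := by positivity
  have σ'1 : σ' ≤ 1 := by linarith only [hσ', mul_le_of_le_one_right τ0.le σ1]
  have ns' := ns.cmul σ'0
  have x1 : ρ * ∫ x, u x ≤ X := by linarith
  obtain ⟨S, uS, iS, SB, hS⟩ := iterate (b := 2 * e') (B := (x₀ + δ) / ρ) (c := 2 * e' * ρ) hY hvm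
    iv ns' (fun x => (mul_le_of_le_one_left (ns.nn x) σ'1).trans (sb x)) c2.le (by
      have : 2 * e' * ρ * ((x₀ + δ) / ρ) = 2 * e' * (x₀ + δ) := by field_simp
      have y := mul_le_of_le_one_right he'.le (hX.trans X1.le)
      linarith only [this, y, hmd]) uK iK (by
      refine (mK μ hμ).le.trans (cv_mono_ae hY.int hY.nn
        (iadd (isub iw (iK.const_mul _)) (iK.const_mul _)) (isrc_int hvm iv ns'.int iK)
        (Eventually.of_forall fun y => ?_))
      have a1 := mul_nonneg c2.le (cv_nonneg uK.nn uK.nn y)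
      have a2 := mul_le_mul_of_nonneg_right (wv y) (sub_nonneg.2 (uK.le y))
      have a3 := mul_le_mul_of_nonneg_right (min_le_right (w y) 1) (uK.nn y)
      have a4 := mul_le_mul_of_nonneg_right hA (uK.nn y)
      have := ns'.nn y
      simp only [isrc, hmd]
      linarith) (by
      rw [le_div_iff₀ hρ]
      have := mul_le_mul_of_nonneg_left (integral_mono_ae iK iu Ku) hρ.le
      linarith) (by
      intro U h1 h2 h3 KU h5 uW
      set W := cv (yk μ) (isrc v (fun x => σ' * s x) m (2 * e' * ρ) U) with hW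
      have iI := isrc_int (c := 2 * e' * ρ) hvm iv ns'.int h2
      have iW : Integrable W := integrable_cv hY.int iI
      have nγ : NI fun y => 2 * e' * ρ * U y := (NI.of h1 h2).cmul c2.le
      have hG := nπ.add nγ
      rw [le_div_iff₀ hρ] at h3 ⊢
      obtain ⟨κ, hκd⟩ : ∃ κ, κ = 4 * e' - 2 * e' * (ρ * ∫ x, u x) - 2 * e' * ((∫ x, U x) * ρ) :=
        ⟨_, rfl⟩
      have κ1 : 4 * e' * (1 - X) ≤ κ := by
        linarith only [hκd, mul_le_mul_of_nonneg_left x1 he'.le,
          mul_le_mul_of_nonneg_left (h3.trans hX) he'.le]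
      have κ0 : 0 < κ := lt_of_lt_of_le (by have : 0 < 1 - X := by linarith
                                            positivity) κ1
      have hm : m + (∫ y, (2 * e' * ρ * ut y + 2 * e' * ρ * U y)) + κ = μ := by
        rw [integral_add nπ.int nγ.int, integral_const_mul, integral_const_mul, It, hκd, hmd]
        ring
      obtain ⟨g, hg, g1, -⟩ := exists_adj (C := 1) (R := fun _ => κ) hY hG hvm measurable_const
        (fun _ => κ0.le) (fun _ => (mul_one κ).ge) κ0 zero_le_one hm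
      have GA := G μ m κ M _ _ v u _ g H (by linarith) (by linarith) nπ nγ κ0 hm hv iv
        (by linarith) wv vw Pr hg (fun x => by
          rw [cv_cmul_left]
          exact mul_le_mul hc (cv_mono2 uK iK h2 iK hu iu KU Ku x) (cv_nonneg uK.nn uK.nn x) c2.le)
        nH eH (by
          filter_upwards [yk_anti (E := E) h4 (by linarith : 4 * e ≤ A)] with y hy
          exact mul_le_mul hc' hy (yk_nn _ _) h4.le)
      have f1 : ∀ x, cv H (fun x => 1 - u x) x = 1 - u₁ x := fun x => by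
        rw [cv_sub nH.int (BM.const 1) hu.bm, cv_const, H1, one_mul]
      simp_rw [f1] at GA
      set n₂ : E → ℝ := fun x => 4 * e * u₁ x - 2 * e * ρ * cv u₁ u₁ x with hn₂
      have in₂ : Integrable n₂ := isub (iu₁.const_mul _) ((integrable_cv iu₁ iu₁).const_mul _)
      have k1 := (ns.int.const_mul σ')
      have k2 := (isub h.iν (hu.bm'.int_mul iv)).const_mul τ
      have k3 := in₁.const_mul ((1 - τ) * 2)
      have k4 := in₂.const_mul ((1 - τ) * d)
      have k5 := (uu₁.bm'.int_mul iv).const_mul (1 - τ)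
      have iF := iadd (isub (isub (isub k1 k2) k3) k4) k5
      have iφ := isub iW iut
      have iS' := iadd (iadd (h.srci.const_mul τ) (j₁.const_mul (1 - τ))) (iut.const_mul μ)
      have PA := hg.pair hY hG hvm (BM.const κ) (fun _ => κ0.le) iφ iF (by
        have c1 := cv_comb_ae hY.int iI iS' 1 (-1)
        have c3 := cv_mono_ae hY.int hY.nn (iadd (iI.const_mul 1) (iS'.const_mul (-1)))
          (iadd (iadd (hvm.bm'.mul_int iφ) (integrable_cv hG.int iφ)) iF) (by
            filter_upwards [h5] with y hy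
            have a1 := cv_mono_pt h2 h1.nn h1.bm uW.bm h5 y
            have a2 := cv_mono_pt iut uut.nn h1.bm uW.bm h5 y
            have a3 := mul_le_mul_of_nonneg_left hy (sub_nonneg.2 (hvm.le y))
            have a4 := mul_le_mul_of_nonneg_left (add_le_add a1 a2) c2.le
            rw [cv_add_left nπ.int nγ.int (uW.bm.sub uut.bm), cv_cmul_left, cv_cmul_left,
              cv_sub iut uW.bm uut.bm, cv_sub h2 uW.bm uut.bm, cv_comm U ut, ctt]
            have a5 : 2 * e' * ρ * (τ ^ 2 * cv u u y + 2 * τ * (1 - τ) * cv u₁ u y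
                + (1 - τ) ^ 2 * cv u₁ u₁ y) = τ * (2 * e * ρ * cv u u y)
                + (1 - τ) * 2 * (2 * e * ρ * cv u₁ u y)
                + (1 - τ) * d * (2 * e * ρ * cv u₁ u₁ y) := by
              linear_combination (2 * ρ * τ * cv u u y + 4 * ρ * (1 - τ) * cv u₁ u y
                - 2 * ρ * (1 - τ) * cv u₁ u₁ y) * τe - 2 * ρ * (1 - τ) * cv u₁ u₁ y * de
            have a6 : 4 * e' * (τ * u y + (1 - τ) * u₁ y) = 4 * e * u y
                + (1 - τ) * (4 * e * u₁ y) + (1 - τ) * d * (4 * e * u₁ y) := by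
              linear_combination 4 * u y * τe - 4 * (1 - τ) * u₁ y * de
            simp only [isrc, hn₁, hn₂, hut, hmd] at *
            linarith)
        filter_upwards [c1, c3, mt μ hμ] with x a1 a2 a3
        have a4 : ut x = _ := a3
        rw [a1, ← a4] at a2
        linarith)
      have bH := hg.bm.cv nH.int nH.meas
      have H0 := cv_nonneg nH.nn hg.nn
      have H2 : ∀ x, cv H g x ≤ 1 := fun x =>
        (cv_le nH.int nH.nn hg.bm g1 x).trans_eq (by rw [H1, one_mul])
      have e1 : ∫ x, (ν x + d * n₁ x) * cv H g x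
          = (∫ x, g x * n₁ x) + d * ∫ x, n₁ x * cv H g x := by
        have : ∫ x, g x * n₁ x = ∫ x, ν x * cv H g x := by
          simp_rw [mul_comm (ν _)]
          rw [← cv_dual nH.int eH hg.bm h.iν]
          exact integral_congr_ae (en₁.mono fun x hx => by simp only [hx])
        rw [this, ← integral_const_mul,
          ← integral_add (bH.int_mul h.iν) ((bH.int_mul in₁).const_mul d)]
        congr with x; ring
      have e2 : ∫ x, n₁ x * cv H g x ≤ 4 * e * ∫ x, u x := by
        rw [← integral_const_mul]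
        refine integral_mono (bH.int_mul in₁) (iu.const_mul _) fun x => ?_
        have a1 := mul_nonneg (mul_nonneg (by positivity : 0 ≤ 2 * e * ρ)
          (cv_nonneg uu₁.nn hu.nn x)) (H0 x)
        have a2 := mul_le_of_le_one_right (mul_nonneg h4.le (hu.nn x)) (H2 x)
        simp only [hn₁]
        linarith
      have e3 : -(2 * e * ρ * ((∫ x, u x) * ∫ x, u x)) ≤ ∫ x, g x * n₂ x := by
        have := integral_cv iu₁ iu₁
        rw [I₁] at this
        rw [← this, ← integral_const_mul, ← integral_neg]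
        refine integral_mono ((integrable_cv iu₁ iu₁).const_mul _).neg (hg.bm.mul_int in₂)
          fun x => ?_
        have a1 := mul_nonneg (hg.nn x) (mul_nonneg h4.le (uu₁.nn x))
        have a2 := mul_le_of_le_one_left (mul_nonneg (by positivity : 0 ≤ 2 * e * ρ)
          (cv_nonneg uu₁.nn uu₁.nn x)) (g1 x)
        simp only [hn₂]
        linarith
      have e4 : σ * ∫ x, g x * s x ≤ ∫ x, g x * (ν x - v x * (1 - u x)) := by
        rw [← integral_const_mul]
        refine integral_mono_ae ((hg.bm.mul_int ns.int).const_mul σ)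
          (hg.bm.mul_int (isub h.iν (hu.bm'.int_mul iv))) (h.ge.mono fun x hx => ?_)
        have := mul_le_mul_of_nonneg_left hx (hg.nn x)
        simp only
        linarith
      have e5 : ∫ x, g x * (σ' * s x - τ * (ν x - v x * (1 - u x)) - (1 - τ) * 2 * n₁ x
          - (1 - τ) * d * n₂ x + (1 - τ) * (v x * (1 - u₁ x)))
          = σ' * (∫ x, g x * s x) - τ * (∫ x, g x * (ν x - v x * (1 - u x)))
            - (1 - τ) * 2 * (∫ x, g x * n₁ x) - (1 - τ) * d * (∫ x, g x * n₂ x)
            + (1 - τ) * ∫ x, v x * g x * (1 - u₁ x) := by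
        have l1 := (hg.bm.mul_int ns.int).const_mul σ'
        have l2 := (hg.bm.mul_int (isub h.iν (hu.bm'.int_mul iv))).const_mul τ
        have l3 := (hg.bm.mul_int in₁).const_mul ((1 - τ) * 2)
        have l4 := (hg.bm.mul_int in₂).const_mul ((1 - τ) * d)
        have l5 := (uu₁.bm'.int_mul (hg.bm.int_mul iv)).const_mul (1 - τ)
        simp_rw [← integral_const_mul]
        rw [← integral_sub l1 l2, ← integral_sub (isub l1 l2) l3,
          ← integral_sub (isub (isub l1 l2) l3) l4, ← integral_add (isub (isub (isub l1 l2) l3) l4) l5]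
        congr with x; ring
      rw [e5, integral_const_mul, integral_sub iW iut, It] at PA
      rw [e1] at GA
      have u0 : 0 ≤ ∫ x, u x := integral_nonneg hu.nn
      generalize ∫ x, u x = a at *
      generalize ∫ x, W x = b at *
      have z1 := mul_le_mul_of_nonneg_left GA τ1.le
      have z2 := mul_le_mul_of_nonneg_left e4 τ0.le
      have z3 := mul_le_mul_of_nonneg_left e2 (by positivity : 0 ≤ (1 - τ) * d * 2)
      have z4 := mul_le_mul_of_nonneg_left e3 (by positivity : 0 ≤ (1 - τ) * d)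
      have z5 : κ * (b - a) ≤ (1 - τ) * d * e * (8 * a + 2 * (ρ * a) * a) := by
        rw [hσ'] at PA
        linarith only [PA, z1, z2, z3, z4]
      have z6 : (8 * a + 2 * (ρ * a) * a) * ρ ≤ 10 := by
        have y1 := x1.trans X1.le
        have y2 := mul_le_one₀ y1 (mul_nonneg hρ.le u0) y1
        linarith only [y1, y2]
      have z7 : (1 - τ) * d * e * e' = (e' - e) ^ 2 := by
        linear_combination (1 - τ) * e' * de - (e' - e) * τe
      by_contra hcon
      have z8 : δ < (b - a) * ρ := by linarith [not_le.1 hcon]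
      have z9 : e' * (κ * ((b - a) * ρ)) ≤ 10 * (e' - e) ^ 2 := by
        have y1 := mul_le_mul_of_nonneg_right z5 (by positivity : 0 ≤ ρ * e')
        have y2 := mul_le_mul_of_nonneg_left z6 (sq_nonneg (e' - e))
        rw [← z7] at y2 ⊢
        linarith only [y1, y2]
      have y3 := mul_lt_mul_of_pos_left z8 (mul_pos he' κ0)
      have y4 := mul_le_mul_of_nonneg_left κ1 (mul_nonneg he'.le δ0)
      linarith only [y3, y4, z9, hδ])
  refine ⟨S, fun x => v x * (1 - S x) + σ' * s x, ⟨uS, iS, iadd (uS.bm'.int_mul iv) ns'.int,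
    (Mild.of_one hμ (isrc_int hvm iv ns'.int iS) (Eventually.of_forall hS)).congr
      (Eventually.of_forall fun x => ?_), Eventually.of_forall fun x => le_rfl⟩, ?_⟩
  · simp only [isrc, hmd]
    ring
  · rw [le_div_iff₀ hρ] at SB
    linarith

end Pool.Agent.Lib.MP_dec75e_mp.SE
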