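import Pool.Agent.Lib.MP_dec75e_mp.SE.GAdj

/-! General potentials: the two-potential inequality and its average over translations. -/

open MeasureTheory Filter Topology

namespace Pool.Agent.Lib.MP_dec75e_mp.SE

variable {E : Type*} [NormedAddCommGroup E] [InnerProductSpace ℝ E] [FiniteDimensional ℝ E]
  [MeasurableSpace E] [BorelSpace E]

/-- `u` solves `(B + a - π) u = ν` with `ν ≥ v (1 - u)` -/
structure Prim (Y : E → ℝ) (m : ℝ) (π v u ν : E → ℝ) : Prop where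
  u01 : U01 u
  int : Integrable u
  iν : Integrable ν
  eq : u =ᵐ[volume] cv Y fun y => m * u y + cv π u y + ν y
  ge : ∀ᵐ x, v x * (1 - u x) ≤ ν x

variable {Y π γ v u ν h j p v₁ v₂ u₁ u₂ ν₁ ν₂ Φ : E → ℝ} {μ m κ M : ℝ}

omit [NormedAddCommGroup E] [InnerProductSpace ℝ E] [FiniteDimensional ℝ E] [BorelSpace E] in
theorem U01.bm' (h : U01 u) : BM fun x => 1 - u x := (BM.const 1).sub h.bm

theorem Prim.sh (h : Prim Y m π v u ν) (y : E) :
    Prim Y m π (fun x => v (x - y)) (fun x => u (x - y)) fun x => ν (x - y) := by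
  refine ⟨⟨(h.u01.bm.sh y).1, fun x => h.u01.nn _, fun x => h.u01.le _⟩, h.int.comp_sub_right y,
    h.iν.comp_sub_right y, ?_, ae_sh h.ge y⟩
  filter_upwards [ae_sh h.eq y] with x hx
  rw [hx, ← cv_sh]
  congr with z
  rw [cv_sh]

theorem Prim.srci (hπ : NI π) (h : Prim Y m π v u ν) :
    Integrable fun y => m * u y + cv π u y + ν y :=
  iadd (iadd (h.int.const_mul m) (integrable_cv hπ.int h.int)) h.iν

theorem half (hY : Ker Y μ) (hπ : NI π) (hγ : NI γ) (hκ : 0 < κ)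
    (hm : m + (∫ y, (π y + γ y)) + κ = μ) (hv₁ : Pot1 v₁ m) (iv₁ : Integrable v₁)
    (hv₂ : Pot1 v₂ m) (P₁ : Prim Y m π v₁ u₁ ν₁) (P₂ : Prim Y m π v₂ u₂ ν₂) (bj : BM j)
    (j0 : ∀ x, 0 ≤ j x) (hp : Adj Y m (fun y => π y + γ y) v₂ (fun x => v₁ x * j x) p)
    (ip : Integrable p) :
    (∫ x, v₁ x * j x * (1 - u₂ x)) + (∫ x, v₂ x * p x * (1 - u₁ x)) + ∫ x, p x * cv γ u₁ x
      ≤ 2 * (∫ x, j x * ν₁ x) + 2 * ∫ x, p x * ν₁ x := by
  have hG := hπ.add hγ
  have bR : BM fun x => v₁ x * j x := hv₁.bm.mul bj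
  have R0 : ∀ x, 0 ≤ v₁ x * j x := fun x => mul_nonneg (hv₁.nn x) (j0 x)
  have iR : Integrable fun x => v₁ x * j x := bj.int_mul iv₁
  have b₁ := P₁.u01.bm
  have b₂ := P₂.u01.bm
  have i1 := hv₂.bm.mul_int P₁.int
  have i2 := integrable_cv hγ.int P₁.int
  have A := hp.pair hY hG hv₂ bR R0 P₁.int (isub (iadd P₁.iν i1) i2) (by
    refine P₁.eq.le.trans (Eventually.of_forall fun x => le_of_eq ?_)
    congr with y
    rw [cv_add_left hπ.int hγ.int b₁]
    ring)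
  have B := hp.mass hY hG hv₂ hm iR ip
  have bD : BM fun x => max (u₁ x - u₂ x) 0 := (b₁.sub b₂).max0
  have iD : Integrable fun x => max (u₁ x - u₂ x) 0 := (isub P₁.int P₂.int).pos_part
  have D0 : ∀ x, 0 ≤ max (u₁ x - u₂ x) 0 := fun x => le_max_right _ _
  have iT := iadd (iadd (hv₂.bm'.mul_int iD) (integrable_cv hG.int iD)) P₁.iν
  have ν0 : ∀ᵐ x, 0 ≤ ν₁ x := P₁.ge.mono fun x hx =>
    (mul_nonneg (hv₁.nn x) (sub_nonneg.2 (P₁.u01.le x))).trans hx
  have C := hp.pair hY hG hv₂ bR R0 iD P₁.iν (by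
    have c1 := cv_comb_ae hY.int (P₁.srci hπ) (P₂.srci hπ) 1 (-1)
    have c2 := cv_mono_ae hY.int hY.nn
      (iadd ((P₁.srci hπ).const_mul 1) ((P₂.srci hπ).const_mul (-1))) iT (by
        filter_upwards [P₂.ge] with y hy
        have a1 := cv_mono hπ.int hπ.nn (b₁.sub b₂) bD (fun x => le_max_left _ _) y
        rw [cv_sub hπ.int b₁ b₂] at a1
        have a2 := cv_nonneg hγ.nn D0 y
        have a3 : max (u₁ y - u₂ y) 0 ≤ 1 - u₂ y :=
          max_le (by linarith [P₁.u01.le y]) (sub_nonneg.2 (P₂.u01.le y))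
        have a4 := mul_le_mul_of_nonneg_left a3 (hv₂.nn y)
        have a5 := mul_le_mul_of_nonneg_left (le_max_left (u₁ y - u₂ y) 0)
          ((hv₂.nn y).trans (hv₂.le y))
        rw [cv_add_left hπ.int hγ.int bD]
        linarith)
    filter_upwards [c1, c2, P₁.eq, P₂.eq] with x h1 h2 h3 h4
    refine max_le ?_ (cv_nonneg_ae hY.nn ?_ x)
    · rw [h3, h4]
      linarith
    · filter_upwards [ν0] with y hy
      exact add_nonneg (add_nonneg (mul_nonneg (sub_nonneg.2 (hv₂.le y)) (D0 y))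
        (cv_nonneg hG.nn D0 y)) hy)
  have D : ∫ x, v₁ x * j x * (1 - u₁ x) ≤ ∫ x, j x * ν₁ x := by
    refine integral_mono_ae (P₁.u01.bm'.int_mul iR) (bj.mul_int P₁.iν) (P₁.ge.mono fun x hx => ?_)
    have := mul_le_mul_of_nonneg_left hx (j0 x)
    simp only
    linarith
  have F : ∫ x, v₁ x * j x * (1 - u₂ x) ≤ (∫ x, v₁ x * j x * (1 - u₁ x))
      + ∫ x, v₁ x * j x * max (u₁ x - u₂ x) 0 := by
    rw [← integral_add (P₁.u01.bm'.int_mul iR) (bD.int_mul iR)]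
    refine integral_mono (P₂.u01.bm'.int_mul iR)
      (iadd (P₁.u01.bm'.int_mul iR) (bD.int_mul iR)) fun x => ?_
    have := mul_le_mul_of_nonneg_left (le_max_left (u₁ x - u₂ x) 0) (R0 x)
    simp only
    linarith
  have e1 : ∫ x, v₁ x * j x * (1 - u₁ x) = (∫ x, v₁ x * j x) - ∫ x, v₁ x * j x * u₁ x := by
    rw [← integral_sub iR (b₁.int_mul iR)]
    congr with x; ring
  have k1 := hv₂.bm.mul_int ip
  have e2 : ∫ x, v₂ x * p x * (1 - u₁ x) = (∫ x, v₂ x * p x) - ∫ x, v₂ x * p x * u₁ x := by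
    rw [← integral_sub k1 (b₁.int_mul k1)]
    congr with x; ring
  have e3 : ∫ x, p x * (ν₁ x + v₂ x * u₁ x - cv γ u₁ x) = (∫ x, p x * ν₁ x)
      + (∫ x, v₂ x * p x * u₁ x) - ∫ x, p x * cv γ u₁ x := by
    rw [← integral_add (hp.bm.mul_int P₁.iν) (b₁.int_mul k1),
      ← integral_sub (iadd (hp.bm.mul_int P₁.iν) (b₁.int_mul k1)) (hp.bm.mul_int i2)]
    congr with x; ring
  have : 0 ≤ κ * ∫ x, p x := mul_nonneg hκ.le (integral_nonneg hp.nn)
  linarith

theorem two_set (hY : Ker Y μ) (hπ : NI π) (hγ : NI γ) (hκ : 0 < κ)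
    (hm : m + (∫ y, (π y + γ y)) + κ = μ) (hv : Pot1 v M) (iv : Integrable v) (hM : 2 * M ≤ m)
    (P : Prim Y m π v u ν) (hh : Adj Y m (fun y => π y + γ y) v (fun _ => κ) h)
    (iΦ : Integrable Φ) (hΦ : Φ ≤ᵐ[volume] cv γ u) (y : E) {ψ T : E → ℝ} (iψ : Integrable ψ)
    (hψ : ψ ≤ᵐ[volume] cv Y fun x => (m - v (x - y)) * ψ x + cv (fun y => π y + γ y) ψ x + Φ x)
    (iT : Integrable T) (T1 : ∀ x, T x ≤ v x * ψ x) (T2 : ∀ x, T x ≤ Φ (x - y)) :
    (∫ x, v x * h x * (1 - u (x - y))) + (∫ x, v x * h x * (1 - u (x - -y))) + ∫ x, h x * T x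
      ≤ 2 * (∫ x, ν x * h (x - y)) + 2 * ∫ x, ν x * h (x - -y) := by
  have hG := hπ.add hγ
  have M0 : 0 ≤ M := (hv.nn 0).trans (hv.le 0)
  have hv₁ : Pot1 v m := ⟨hv.meas, hv.nn, fun x => by linarith [hv.le x]⟩
  have hv₂ : Pot1 (fun x => v (x - y)) m := ⟨(hv.bm.sh y).1, fun x => hv.nn _, fun x => hv₁.le _⟩
  have iv₂ := iv.comp_sub_right y
  have hW : Pot1 (fun x => v x + v (x - y)) m := ⟨hv₁.meas.add hv₂.meas,
    fun x => add_nonneg (hv.nn _) (hv.nn _), fun x => by linarith [hv.le x, hv.le (x - y)]⟩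
  have hW' : Pot1 (fun x => v (x - y) + v x) m := by simpa only [add_comm] using hW
  obtain ⟨j, hj, j1, -⟩ := exists_adj (C := 1) (R := fun _ => κ) hY hG hW measurable_const
    (fun _ => hκ.le) (fun _ => (mul_one κ).ge) hκ zero_le_one hm
  have hj' : Adj Y m (fun y => π y + γ y) (fun x => v (x - y) + v x) (fun _ => κ) j := by
    simpa only [add_comm (v (_ - y))] using hj
  have bd : ∀ x z, v z * j x ≤ κ * (M / κ) := fun x z => by
    rw [mul_div_cancel₀ _ hκ.ne']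
    exact (mul_le_of_le_one_right (hv.nn z) (j1 x)).trans (hv.le z)
  obtain ⟨p₂, hp₂, -, ip₂⟩ := exists_adj (R := fun x => v x * j x) hY hG hv₂
    (hv.meas.mul hj.bm.1) (fun x => mul_nonneg (hv.nn x) (hj.nn x)) (fun x => bd x x) hκ
    (by positivity) hm
  obtain ⟨p₁, hp₁, -, ip₁⟩ := exists_adj (R := fun x => v (x - y) * j x) hY hG hv₁
    (hv₂.meas.mul hj.bm.1) (fun x => mul_nonneg (hv.nn _) (hj.nn x)) (fun x => bd x _) hκ
    (by positivity) hm
  replace ip₂ := ip₂ (hj.bm.int_mul iv)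
  replace ip₁ := ip₁ (hj.bm.int_mul iv₂)
  have a₁ := hj'.add hY hG hv₁ hW' hv₂.bm hp₁
  have a₂ := hj.add hY hG hv₂ hW hv₁.bm hp₂
  have e₁ : ∀ x, h x = j x + p₁ x := fun x => le_antisymm
    (hh.le hY hG hv₁ (BM.const κ) hκ hm a₁ x) (a₁.le hY hG hv₁ (BM.const κ) hκ hm hh x)
  have e₂ : ∀ x, h (x - y) = j x + p₂ x := fun x => le_antisymm
    ((hh.sh y).le hY hG hv₂ (BM.const κ) hκ hm a₂ x)
    (a₂.le hY hG hv₂ (BM.const κ) hκ hm (hh.sh y) x)
  have P₂ := P.sh y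
  have H₁ := half hY hπ hγ hκ hm hv₁ iv hv₂ P P₂ hj.bm hj.nn hp₂ ip₂
  have H₂ := half hY hπ hγ hκ hm hv₂ iv₂ hv₁ P₂ P hj.bm hj.nn hp₁ ip₁
  have q1 : ∫ x, v x * h x * (1 - u (x - y)) = (∫ x, v x * j x * (1 - u (x - y)))
      + ∫ x, v x * p₁ x * (1 - u (x - y)) := by
    rw [← integral_add (P₂.u01.bm'.int_mul (hj.bm.int_mul iv))
      (P₂.u01.bm'.int_mul (hp₁.bm.int_mul iv))]
    congr with x
    rw [e₁]; ring
  have q2 : ∫ x, v x * h x * (1 - u (x - -y)) = (∫ x, v (x - y) * j x * (1 - u x))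
      + ∫ x, v (x - y) * p₂ x * (1 - u x) := by
    rw [← integral_add (P.u01.bm'.int_mul (hj.bm.int_mul iv₂))
      (P.u01.bm'.int_mul (hp₂.bm.int_mul iv₂)),
      ← integral_sub_right_eq_self (fun x => v x * h x * (1 - u (x - -y))) y]
    congr with x
    rw [e₂, sub_neg_eq_add, sub_add_cancel]; ring
  have q3 : ∫ x, ν x * h (x - y) = (∫ x, j x * ν x) + ∫ x, p₂ x * ν x := by
    rw [← integral_add (hj.bm.mul_int P.iν) (hp₂.bm.mul_int P.iν)]
    congr with x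
    rw [e₂]; ring
  have q4 : ∫ x, ν x * h (x - -y) = (∫ x, j x * ν (x - y)) + ∫ x, p₁ x * ν (x - y) := by
    rw [← integral_add (hj.bm.mul_int P₂.iν) (hp₁.bm.mul_int P₂.iν),
      ← integral_sub_right_eq_self (fun x => ν x * h (x - -y)) y]
    congr with x
    rw [sub_neg_eq_add, sub_add_cancel, e₁]; ring
  have s1 := hp₂.pair hY hG hv₂ (hv.bm.mul hj.bm) (fun x => mul_nonneg (hv.nn x) (hj.nn x)) iψ iΦ hψ
  have s2 : ∫ x, p₂ x * Φ x ≤ ∫ x, p₂ x * cv γ u x :=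
    integral_mono_ae (hp₂.bm.mul_int iΦ) (hp₂.bm.mul_int (integrable_cv hγ.int P.int))
      (hΦ.mono fun x hx => mul_le_mul_of_nonneg_left hx (hp₂.nn x))
  have s3 : ∫ x, p₁ x * T x ≤ ∫ x, p₁ x * cv γ (fun x => u (x - y)) x := by
    refine integral_mono_ae (hp₁.bm.mul_int iT) (hp₁.bm.mul_int (integrable_cv hγ.int P₂.int)) ?_
    filter_upwards [ae_sh hΦ y] with x hx
    rw [cv_sh]
    exact mul_le_mul_of_nonneg_left ((T2 x).trans hx) (hp₁.nn x)
  have s4 : ∫ x, j x * T x ≤ ∫ x, v x * j x * ψ x := by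
    refine integral_mono (hj.bm.mul_int iT) ((hv.bm.mul hj.bm).mul_int iψ) fun x => ?_
    have := mul_le_mul_of_nonneg_left (T1 x) (hj.nn x)
    simp only
    linarith
  have q5 : ∫ x, h x * T x = (∫ x, j x * T x) + ∫ x, p₁ x * T x := by
    rw [← integral_add (hj.bm.mul_int iT) (hp₁.bm.mul_int iT)]
    congr with x
    rw [e₁]; ring
  linarith

theorem swap_int {K a l : E → ℝ} (hK : Integrable K) (ha : Integrable a) (hl : BM l) :
    Integrable fun x => K x * ∫ y, a y * l (y - x) := by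
  obtain ⟨m, C, hC⟩ := hl
  have h1 : Integrable (fun p : E × E => K p.1 * a p.2 * l (p.2 - p.1)) (volume.prod volume) :=
    (hK.mul_prod ha).mul_bdd (m.comp (measurable_snd.sub measurable_fst)).aestronglyMeasurable
      (Eventually.of_forall fun p => hC _)
  refine h1.integral_prod_left.congr (Eventually.of_forall fun x => ?_)
  simp only
  rw [← integral_const_mul]
  congr with y; ring

theorem swap_neg {K : E → ℝ} (he : ∀ x, K (-x) = K x) (a : E → ℝ)
    (hi : Integrable fun x => K x * a x) :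
    (Integrable fun x => K x * a (-x)) ∧ ∫ x, K x * a (-x) = ∫ x, K x * a x := by
  have : (fun x => K x * a (-x)) = fun x => (fun x => K x * a x) (-x) := by
    funext x; simp only [he]
  rw [this]
  exact ⟨hi.comp_neg, integral_neg_eq_self (fun x => K x * a x) volume⟩

theorem two_avg (hY : Ker Y μ) (hπ : NI π) (hγ : NI γ) (hκ : 0 < κ)
    (hm : m + (∫ y, (π y + γ y)) + κ = μ) (hv : Pot1 v M) (iv : Integrable v) (hM : 2 * M ≤ m)
    (P : Prim Y m π v u ν) (hh : Adj Y m (fun y => π y + γ y) v (fun _ => κ) h)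
    (iΦ : Integrable Φ) (hΦ : Φ ≤ᵐ[volume] cv γ u) {K k : E → ℝ} (hK : NI K)
    (he : ∀ x, K (-x) = K x) (hk : NI k) (kK : k ≤ᵐ[volume] K) {T : E → E → ℝ}
    (mT : Measurable fun z : E × E => T z.1 z.2) (T0 : ∀ x y, 0 ≤ T x y) {C : ℝ}
    (TC : ∀ x y, T x y ≤ C * v x)
    (hT : ∀ y, ∃ ψ : E → ℝ, Integrable ψ ∧ (ψ ≤ᵐ[volume]
      cv Y fun x => (m - v (x - y)) * ψ x + cv (fun y => π y + γ y) ψ x + Φ x) ∧
      (∀ x, T x y ≤ v x * ψ x) ∧ ∀ x, T x y ≤ Φ (x - y)) :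
    2 * (∫ x, v x * h x * cv K (fun x => 1 - u x) x) + ∫ x, h x * ∫ y, k y * T x y
      ≤ 4 * ∫ x, ν x * cv K h x := by
  have ivh := hh.bm.int_mul iv
  have iT : ∀ y, Integrable fun x => T x y := fun y =>
    (iv.const_mul C).mono' (mT.comp measurable_prodMk_right).aestronglyMeasurable
      (Eventually.of_forall fun x => by rw [Real.norm_of_nonneg (T0 x y)]; exact TC x y)
  have pt := fun y => (hT y).elim fun ψ hψ =>
    two_set hY hπ hγ hκ hm hv iv hM P hh iΦ hΦ y hψ.1 hψ.2.1 (iT y) hψ.2.2.1 hψ.2.2.2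
  have a1 := swap_int hK.int ivh P.u01.bm'
  have a2 := swap_cv hK.int ivh P.u01.bm'
  obtain ⟨a3, a4⟩ := swap_neg he _ a1
  have b1 := swap_int hK.int P.iν hh.bm
  have b2 := swap_cv hK.int P.iν hh.bm
  obtain ⟨b3, b4⟩ := swap_neg he _ b1
  obtain ⟨-, D, hD⟩ := hh.bm
  have c0 : Integrable (fun z : E × E => h z.1 * (k z.2 * T z.1 z.2)) (volume.prod volume) := by
    refine (((iv.const_mul C).const_mul D).mul_prod hk.int).mono'
      ((hh.bm.1.comp measurable_fst).mul ((hk.meas.comp measurable_snd).mul mT)).aestronglyMeasurable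
      (Eventually.of_forall fun z => ?_)
    rw [Real.norm_of_nonneg (mul_nonneg (hh.nn _) (mul_nonneg (hk.nn _) (T0 _ _)))]
    have h1 := mul_le_mul ((le_abs_self _).trans (hD z.1))
      (mul_le_mul_of_nonneg_left (TC z.1 z.2) (hk.nn z.2)) (mul_nonneg (hk.nn _) (T0 _ _))
      ((abs_nonneg _).trans (hD z.1))
    linarith
  have c1 : Integrable fun y => k y * ∫ x, h x * T x y := by
    refine c0.integral_prod_right.congr (Eventually.of_forall fun y => ?_)
    simp only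
    rw [← integral_const_mul]
    congr with x; ring
  have c2 : ∫ x, h x * ∫ y, k y * T x y = ∫ y, k y * ∫ x, h x * T x y := by
    simp_rw [← integral_const_mul]
    rw [integral_integral_swap (f := fun x y => h x * (k y * T x y)) c0]
    congr with y; congr with x; ring
  have key := integral_mono_ae (iadd (iadd a1 a3) c1) (iadd (b1.const_mul 2) (b3.const_mul 2)) (by
    filter_upwards [kK] with y hy
    have h1 := mul_le_mul_of_nonneg_left (pt y) (hK.nn y)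
    have h2 := mul_le_mul_of_nonneg_right hy
      (show 0 ≤ ∫ x, h x * T x y from integral_nonneg fun x => mul_nonneg (hh.nn x) (T0 x y))
    linarith)
  rw [integral_add (iadd a1 a3) c1, integral_add a1 a3,
    integral_add (b1.const_mul 2) (b3.const_mul 2), integral_const_mul, integral_const_mul,
    a4, b4, a2, b2, ← c2] at key
  linarith

end Pool.Agent.Lib.MP_dec75e_mp.SE
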