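import Pool.Agent.Lib.MP_dec75e_mp.SE.Conv

/-! The two monotone iterations. -/

open MeasureTheory Filter Topology

namespace Pool.Agent.Lib.MP_dec75e_mp.SE

variable {E : Type*} [NormedAddCommGroup E] [InnerProductSpace ℝ E] [FiniteDimensional ℝ E]
  [MeasurableSpace E] [BorelSpace E]

/-- the properties of the resolvent kernel that are used -/
structure Ker (Y : E → ℝ) (μ : ℝ) : Prop where
  pos : 0 < μ
  nn : ∀ x, 0 ≤ Y x
  meas : Measurable Y
  rd : RD0 Y
  even : ∀ x, Y (-x) = Y x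
  int : Integrable Y
  mass : ∫ x, Y x = μ⁻¹
  tail : ∀ R : ℝ, 0 < ∫ x in {x : E | R ≤ ‖x‖}, Y x

/-- measurable with values in `[0,1]` -/
structure U01 (U : E → ℝ) : Prop where
  meas : Measurable U
  nn : ∀ x, 0 ≤ U x
  le : ∀ x, U x ≤ 1

/-- the potential -/
structure Pot (v : E → ℝ) (m : ℝ) : Prop where
  nn : ∀ x, 0 ≤ v x
  rd : RD v
  int : Integrable v
  le : ∀ x, v x ≤ m

/-- nonnegative integrable -/
structure NI (G : E → ℝ) : Prop where
  meas : Measurable G
  nn : ∀ x, 0 ≤ G x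
  int : Integrable G

omit [NormedAddCommGroup E] [InnerProductSpace ℝ E] [FiniteDimensional ℝ E] [BorelSpace E] in
theorem U01.bm {U : E → ℝ} (h : U01 U) : BM U := BM.of_bounds h.meas h.nn h.le

/-- the source term -/
noncomputable def src (v : E → ℝ) (m c : ℝ) (G U : E → ℝ) (y : E) : ℝ :=
  v y + (m - v y) * U y + c * cv G U y

variable {Y v G G' U U' : E → ℝ} {μ m c : ℝ}

theorem src_nn (hv : Pot v m) (hc : 0 ≤ c) (hG : ∀ x, 0 ≤ G x) (hU : U01 U) (y : E) :
    0 ≤ src v m c G U y :=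
  add_nonneg (add_nonneg (hv.nn y) (mul_nonneg (sub_nonneg.2 (hv.le y)) (hU.nn y)))
    (mul_nonneg hc (cv_nonneg hG hU.nn y))

theorem src_le (hv : Pot v m) (hc : 0 ≤ c) (hG : NI G) (hU : U01 U) (y : E) :
    src v m c G U y ≤ m + c * ∫ x, G x := by
  have h1 := cv_le hG.int hG.nn hU.bm hU.le y
  have h2 := mul_le_mul_of_nonneg_left (hU.le y) (sub_nonneg.2 (hv.le y))
  have h3 := mul_le_mul_of_nonneg_left h1 hc
  unfold src
  linarith

theorem src_meas [Nontrivial E] (hv : Pot v m) (hG : Measurable G) (hU : Measurable U) :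
    Measurable (src v m c G U) :=
  (hv.rd.measurable.add ((measurable_const.sub hv.rd.measurable).mul hU)).add
    (measurable_const.mul (measurable_cv hG hU))

theorem src_bm [Nontrivial E] (hv : Pot v m) (hc : 0 ≤ c) (hG : NI G) (hU : U01 U) :
    BM (src v m c G U) :=
  BM.of_bounds (src_meas hv hG.meas hU.meas) (src_nn hv hc hG.nn hU) (src_le hv hc hG hU)

theorem src_eq (v : E → ℝ) (m c : ℝ) (G U : E → ℝ) :
    src v m c G U = fun y => v y - v y * U y + m * U y + c * cv G U y := by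
  funext y; unfold src; ring

theorem src_int (hv : Integrable v) (hG : NI G) (hU : U01 U) (hi : Integrable U) :
    Integrable (src v m c G U) := by
  rw [src_eq]
  exact iadd (iadd (isub hv (hU.bm.int_mul hv)) (hi.const_mul m))
    ((integrable_cv hG.int hi).const_mul c)

theorem src_integral (hv : Integrable v) (hG : NI G) (hU : U01 U) (hi : Integrable U) :
    ∫ y, src v m c G U y = (∫ y, v y) - (∫ y, v y * U y) + m * (∫ y, U y)
      + c * ((∫ y, G y) * ∫ y, U y) := by
  rw [src_eq, integral_add (iadd (isub hv (hU.bm.int_mul hv)) (hi.const_mul m))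
    ((integrable_cv hG.int hi).const_mul c),
    integral_add (isub hv (hU.bm.int_mul hv)) (hi.const_mul m),
    integral_sub hv (hU.bm.int_mul hv), integral_const_mul, integral_const_mul,
    integral_cv hG.int hi]

theorem src_mono (hv : Pot v m) (hc : 0 ≤ c) (hG : NI G) (hG' : NI G') (hU : U01 U) (hU' : U01 U')
    (h1 : ∀ x, G x ≤ G' x) (h2 : ∀ x, U x ≤ U' x) (y : E) :
    src v m c G U y ≤ src v m c G' U' y := by
  have a1 : cv G U y ≤ cv G U' y := cv_mono hG.int hG.nn hU.bm hU'.bm h2 y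
  have a2 : cv G U' y ≤ cv G' U' y :=
    integral_mono (hU'.bm.int_cv hG.int y) (hU'.bm.int_cv hG'.int y) fun z =>
      mul_le_mul_of_nonneg_right (h1 z) (hU'.nn _)
  have a3 := mul_le_mul_of_nonneg_left (a1.trans a2) hc
  have a4 := mul_le_mul_of_nonneg_left (h2 y) (sub_nonneg.2 (hv.le y))
  unfold src
  linarith

theorem src_rd [Nontrivial E] (hv : Pot v m) (hc : 0 ≤ c) (hG : NI G) (hU : U01 U) (rG : RD G)
    (rU : RD U) : RD (src v m c G U) := by
  intro x y h
  have a1 := mul_le_mul_of_nonneg_left (rG.cv rU hG.int hU.bm x y h) hc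
  have a2 := hv.rd x y h
  have a3 := rU x y h
  have a4 := mul_nonneg (sub_nonneg.2 a2) (sub_nonneg.2 (hU.le y))
  have a5 := mul_nonneg (sub_nonneg.2 (hv.le x)) (sub_nonneg.2 a3)
  unfold src
  nlinarith

theorem src_congr (h1 : G =ᵐ[volume] G') (h2 : U =ᵐ[volume] U') :
    src v m c G U =ᵐ[volume] src v m c G' U' := by
  have : cv G U = cv G' U' := by
    rw [cv_congr h2, cv_comm, cv_congr h1, cv_comm]
  filter_upwards [h2] with y hy
  unfold src
  rw [this, hy]

theorem NI.of (hU : U01 U) (hi : Integrable U) : NI U := ⟨hU.meas, hU.nn, hi⟩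

/-- the auxiliary function `w` -/
theorem exists_w [Nontrivial E] {ε : ℝ} (hY : Ker Y μ) (hv : Pot v m) (hc : 0 ≤ c) (hG : NI G)
    (rG : RD G) (hG1 : ∫ y, G y = 1) (hε : 0 < ε) (hm : m + c + ε = μ) :
    ∃ w, U01 w ∧ RD w ∧ Integrable w ∧ ∀ x, w x = cv Y (src v m c G w) x := by
  have hμ := hY.pos
  let Φ : (E → ℝ) → E → ℝ := fun U => cv Y (src v m c G U)
  let P : (E → ℝ) → Prop := fun U => U01 U ∧ RD U ∧ Integrable U ∧ ε * ∫ y, U y ≤ ∫ y, v y
  have m0 : 0 ≤ m := (hv.nn 0).trans (hv.le 0)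
  have step : ∀ U, P U → P (Φ U) := by
    rintro U ⟨h1, h2, h3, h4⟩
    have hb := src_bm hv hc hG h1
    refine ⟨⟨measurable_cv hY.meas hb.1, cv_nonneg hY.nn (src_nn hv hc hG.nn h1), fun x => ?_⟩,
      hY.rd.cv (src_rd hv hc hG h1 rG h2) hY.int hb, integrable_cv hY.int (src_int hv.int hG h1 h3), ?_⟩
    · refine (cv_le hY.int hY.nn hb (src_le hv hc hG h1) x).trans ?_
      rw [hY.mass, hG1, inv_mul_le_iff₀ hμ]
      linarith
    · have h5 : ∫ y, Φ U y = _ := integral_cv hY.int (src_int hv.int hG h1 h3)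
      rw [h5, hY.mass, src_integral hv.int hG h1 h3, hG1, mul_left_comm, inv_mul_le_iff₀ hμ]
      have h6 : 0 ≤ ∫ y, v y * U y := integral_nonneg fun y => mul_nonneg (hv.nn y) (h1.nn y)
      have h7 := mul_le_mul_of_nonneg_left h4 (add_nonneg m0 hc)
      have h8 := mul_nonneg hε.le h6
      rw [← hm]
      nlinarith
  let W : ℕ → E → ℝ := fun n => Φ^[n] 0
  have Ws : ∀ n, W (n + 1) = Φ (W n) := fun n => Function.iterate_succ_apply' _ _ _
  have PW : ∀ n, P (W n) := by
    intro n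
    induction n with
    | zero =>
      refine ⟨⟨measurable_const, fun _ => le_rfl, fun _ => zero_le_one⟩, fun _ _ _ => le_rfl,
        integrable_zero _ _ _, ?_⟩
      simpa [W] using integral_nonneg hv.nn
    | succ n ih => rw [Ws]; exact step _ ih
  have mono : ∀ n x, W n x ≤ W (n + 1) x := by
    intro n
    induction n with
    | zero => exact (PW 1).1.nn
    | succ n ih =>
      intro x
      rw [Ws (n + 1)]
      conv_lhs => rw [Ws n]
      exact cv_mono hY.int hY.nn (src_bm hv hc hG (PW n).1) (src_bm hv hc hG (PW (n + 1)).1)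
        (src_mono hv hc hG hG (PW n).1 (PW (n + 1)).1 (fun _ => le_rfl) ih) x
  have bdd : ∀ x, BddAbove (Set.range fun n => W n x) := fun x =>
    ⟨1, by rintro _ ⟨n, rfl⟩; exact (PW n).1.le x⟩
  let S : E → ℝ := fun x => ⨆ n, W n x
  have WS : ∀ n x, W n x ≤ S x := fun n x => le_ciSup (bdd x) n
  have rS : RD S := fun x y h => ciSup_le fun n => ((PW n).2.1 x y h).trans (WS n x)
  have uS : U01 S := ⟨rS.measurable, fun x => ((PW 0).1.nn x).trans (WS 0 x),
    fun x => ciSup_le fun n => (PW n).1.le x⟩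
  have lim : ∀ x, Tendsto (fun n => W n x) atTop (𝓝 (S x)) := fun x =>
    tendsto_atTop_ciSup (monotone_nat_of_le_succ fun n => mono n x) (bdd x)
  have iS : Integrable S := by
    refine ⟨uS.meas.aestronglyMeasurable, ?_⟩
    have h1 : eLpNorm S 1 volume ≤ ENNReal.ofReal ((∫ y, v y) / ε) := by
      refine Lp.eLpNorm_le_of_ae_tendsto (u := atTop) (f := W) (Eventually.of_forall fun n => ?_)
        (fun n => (PW n).1.meas.aestronglyMeasurable) (Eventually.of_forall lim)
      rw [eLpNorm_one_eq_lintegral_enorm, ← ofReal_integral_norm_eq_lintegral_enorm (PW n).2.2.1]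
      apply ENNReal.ofReal_le_ofReal
      rw [le_div_iff₀ hε, mul_comm]
      simpa only [Real.norm_of_nonneg ((PW n).1.nn _)] using (PW n).2.2.2
    rw [eLpNorm_one_eq_lintegral_enorm] at h1
    exact h1.trans_lt ENNReal.ofReal_lt_top
  refine ⟨S, uS, rS, iS, fun x => ?_⟩
  have l1 : Tendsto (fun n => W (n + 1) x) atTop (𝓝 (S x)) :=
    (lim x).comp (tendsto_add_atTop_nat 1)
  have l2 : Tendsto (fun n => cv Y (src v m c G (W n)) x) atTop (𝓝 (cv Y (src v m c G S) x)) := by
    refine cv_tendsto hY.int (fun n => (src_bm hv hc hG (PW n).1).1) (C := m + c * ∫ y, G y)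
      (fun n y => ?_) (fun y => ?_) x
    · rw [abs_of_nonneg (src_nn hv hc hG.nn (PW n).1 y)]
      exact src_le hv hc hG (PW n).1 y
    · have := cv_tendsto hG.int (fun n => (PW n).1.meas) (C := 1) (fun n z => by
        rw [abs_of_nonneg ((PW n).1.nn z)]; exact (PW n).1.le z) lim y
      exact (tendsto_const_nhds.add ((lim y).const_mul _)).add (this.const_mul c)
  simp_rw [Ws] at l1
  exact tendsto_nhds_unique l1 l2

end Pool.Agent.Lib.MP_dec75e_mp.SE
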