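import Pool.Agent.Lib.MP_dec75e_mp.SE.Iter

/-! The kernel of the resolvent of the Laplacian. -/

open MeasureTheory Filter Topology Metric Set Real
open scoped FourierTransform

namespace Pool.Agent.Lib.MP_dec75e_mp.SE

variable {E : Type*} [NormedAddCommGroup E] [InnerProductSpace ℝ E] [FiniteDimensional ℝ E]
  [MeasurableSpace E] [BorelSpace E]

/-- heat kernel times the exponential weight -/
noncomputable def hk (μ : ℝ) (x : E) (t : ℝ) : ℝ :=
  exp (-(μ * t)) / (π / (4 * t)⁻¹) ^ (Module.finrank ℝ E / 2 : ℝ) * exp (-(4 * t)⁻¹ * ‖x‖ ^ 2)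

/-- resolvent kernel -/
noncomputable def yk (μ : ℝ) (x : E) : ℝ := ∫ t in Ioi (0 : ℝ), hk μ x t

omit [MeasurableSpace E] [BorelSpace E] [FiniteDimensional ℝ E] in
theorem hk_pos (μ : ℝ) (x : E) {t : ℝ} (ht : 0 < t) : 0 < hk μ x t := by
  unfold hk
  positivity

omit [FiniteDimensional ℝ E] in
theorem hk_meas (μ : ℝ) : Measurable fun p : E × ℝ => hk μ p.1 p.2 := by
  unfold hk
  fun_prop

omit [MeasurableSpace E] [BorelSpace E] [FiniteDimensional ℝ E] in
theorem hk_mono (μ : ℝ) {x y : E} (h : ‖x‖ ≤ ‖y‖) {t : ℝ} (ht : 0 < t) : hk μ y t ≤ hk μ x t := by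
  unfold hk
  refine mul_le_mul_of_nonneg_left (exp_le_exp.2 ?_) (by positivity)
  have h1 : ‖x‖ ^ 2 ≤ ‖y‖ ^ 2 := by gcongr
  have h2 : 0 < (4 * t)⁻¹ := by positivity
  nlinarith

theorem gauss_int {b : ℝ} (hb : 0 < b) : Integrable fun x : E => exp (-b * ‖x‖ ^ 2) := by
  have := (GaussianFourier.integrable_cexp_neg_mul_sq_norm_add (V := E) (b := b)
    (by simpa using hb) 0 0).norm
  refine this.congr (Eventually.of_forall fun x => ?_)
  simp only [zero_mul, add_zero, Complex.norm_exp]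
  congr 1
  norm_cast

theorem hk_int (μ : ℝ) {t : ℝ} (ht : 0 < t) : Integrable fun x : E => hk μ x t :=
  (gauss_int (by positivity)).const_mul _

theorem hk_integral (μ : ℝ) {t : ℝ} (ht : 0 < t) : ∫ x : E, hk μ x t = exp (-(μ * t)) := by
  unfold hk
  rw [integral_const_mul, GaussianFourier.integral_rexp_neg_mul_sq_norm (by positivity),
    div_mul_cancel₀]
  positivity

theorem hk_fourier (μ : ℝ) {t : ℝ} (ht : 0 < t) (k : E) :
    𝓕 (fun x : E => (hk μ x t : ℂ)) k = (exp (-((4 * π ^ 2 * ‖k‖ ^ 2 + μ) * t)) : ℝ) := by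
  have hb : 0 < (4 * t)⁻¹ := by positivity
  have h1 := fourier_gaussian_innerProductSpace (V := E) (b := ((4 * t)⁻¹ : ℝ))
    (by rw [Complex.ofReal_re]; exact hb) k
  have h2 : (fun x : E => (hk μ x t : ℂ))
      = ((exp (-(μ * t)) / (π / (4 * t)⁻¹) ^ (Module.finrank ℝ E / 2 : ℝ) : ℝ) : ℂ) •
        fun x : E => Complex.exp (-((4 * t)⁻¹ : ℝ) * ‖x‖ ^ 2) := by
    funext x
    simp only [hk, Pi.smul_apply, smul_eq_mul]
    rw [Complex.ofReal_mul, Complex.ofReal_exp (-(4 * t)⁻¹ * ‖x‖ ^ 2)]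
    congr 2
    push_cast
    ring
  have h3 : ((π : ℂ) / ((4 * t)⁻¹ : ℝ)) ^ (Module.finrank ℝ E / 2 : ℂ)
      = (((π / (4 * t)⁻¹) ^ (Module.finrank ℝ E / 2 : ℝ) : ℝ) : ℂ) := by
    rw [Complex.ofReal_cpow (by positivity)]
    push_cast
    rfl
  have h4 : Complex.exp (-π ^ 2 * ‖k‖ ^ 2 / ((4 * t)⁻¹ : ℝ))
      = ((exp (-(4 * π ^ 2 * ‖k‖ ^ 2 * t)) : ℝ) : ℂ) := by
    rw [Complex.ofReal_exp]
    congr 1
    push_cast
    rw [div_inv_eq_mul]
    ring
  have h5 : 𝓕 (((exp (-(μ * t)) / (π / (4 * t)⁻¹) ^ (Module.finrank ℝ E / 2 : ℝ) : ℝ) : ℂ) •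
        fun x : E => Complex.exp (-((4 * t)⁻¹ : ℝ) * ‖x‖ ^ 2)) k
      = ((exp (-(μ * t)) / (π / (4 * t)⁻¹) ^ (Module.finrank ℝ E / 2 : ℝ) : ℝ) : ℂ) *
        𝓕 (fun x : E => Complex.exp (-((4 * t)⁻¹ : ℝ) * ‖x‖ ^ 2)) k := by
    simp only [fourier_eq, Pi.smul_apply, Circle.smul_def, smul_eq_mul]
    rw [← integral_const_mul]
    congr with x
    ring
  rw [h2, h5, h1, h3, h4, ← Complex.ofReal_mul, ← Complex.ofReal_mul]
  congr 1
  have : 0 < (π / (4 * t)⁻¹) ^ (Module.finrank ℝ E / 2 : ℝ) := by positivity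
  rw [← mul_assoc, div_mul_cancel₀ _ this.ne', ← exp_add]
  congr 1
  ring

theorem exp_integral {a : ℝ} (ha : 0 < a) : ∫ t in Ioi (0 : ℝ), exp (-(a * t)) = a⁻¹ := by
  have := integral_exp_mul_Ioi (a := -a) (by linarith) 0
  simp only [neg_mul, mul_zero, exp_zero] at this
  rw [this]
  field_simp

theorem hk_int2 {μ : ℝ} (hμ : 0 < μ) :
    Integrable (fun p : E × ℝ => hk μ p.1 p.2) (volume.prod (volume.restrict (Ioi 0))) := by
  rw [integrable_prod_iff' (hk_meas μ).aestronglyMeasurable]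
  refine ⟨(ae_restrict_mem measurableSet_Ioi).mono fun t ht => hk_int μ ht, ?_⟩
  have : IntegrableOn (fun t => exp (-(μ * t))) (Ioi 0) := by
    simpa only [neg_mul] using exp_neg_integrableOn_Ioi 0 hμ
  refine this.congr_fun (fun t ht => ?_) measurableSet_Ioi
  simp only
  rw [← hk_integral (E := E) μ ht]
  congr with x
  rw [Real.norm_of_nonneg (hk_pos μ x ht).le]

theorem hk_int_t [Nontrivial E] {μ : ℝ} (hμ : 0 < μ) {x : E} (hx : x ≠ 0) :
    IntegrableOn (hk μ x) (Ioi 0) := by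
  have h1 := (hk_int2 (E := E) hμ).prod_right_ae
  have h2 : volume (ball (0 : E) ‖x‖) ≠ 0 := (measure_ball_pos _ _ (norm_pos_iff.2 hx)).ne'
  obtain ⟨z, hz, hi⟩ := Measure.exists_mem_of_measure_ne_zero_of_ae h2 (ae_restrict_of_ae h1)
  refine hi.mono' ((hk_meas μ).comp measurable_prodMk_left).aestronglyMeasurable
    ((ae_restrict_mem measurableSet_Ioi).mono fun t ht => ?_)
  rw [Real.norm_of_nonneg (hk_pos μ x ht).le]
  exact hk_mono μ (mem_ball_zero_iff.1 hz).le ht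

omit [MeasurableSpace E] [BorelSpace E] [FiniteDimensional ℝ E] in
theorem yk_nn (μ : ℝ) (x : E) : 0 ≤ yk μ x :=
  setIntegral_nonneg measurableSet_Ioi fun _ ht => (hk_pos μ x ht).le

theorem yk_int {μ : ℝ} (hμ : 0 < μ) : Integrable (yk μ : E → ℝ) :=
  (hk_int2 hμ).integral_prod_left

theorem yk_ker [Nontrivial E] {μ : ℝ} (hμ : 0 < μ) : Ker (yk μ : E → ℝ) μ := by
  refine ⟨hμ, yk_nn μ, ?_, fun x y hx h => ?_, fun x => ?_, yk_int hμ, ?_, fun R => ?_⟩
  · exact ((hk_meas μ).stronglyMeasurable.integral_prod_right'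
      (ν := volume.restrict (Ioi 0))).measurable
  · have hy : y ≠ 0 := norm_pos_iff.1 ((norm_pos_iff.2 hx).trans_le h)
    exact setIntegral_mono_on (hk_int_t hμ hy) (hk_int_t hμ hx) measurableSet_Ioi
      fun t ht => hk_mono μ h ht
  · simp [yk, hk]
  · unfold yk
    rw [integral_integral_swap (hk_int2 hμ), ← exp_integral hμ]
    exact setIntegral_congr_fun measurableSet_Ioi fun t ht => hk_integral μ ht
  · rw [setIntegral_pos_iff_support_of_nonneg_ae (Eventually.of_forall (yk_nn μ))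
      (yk_int hμ).integrableOn]
    have ho : IsOpen {x : E | max R 0 < ‖x‖} := isOpen_lt continuous_const continuous_norm
    obtain ⟨z, hz⟩ := exists_norm_eq E (c := max R 0 + 1) (by positivity)
    refine (ho.measure_pos volume ⟨z, show max R 0 < ‖z‖ by linarith⟩).trans_le
      (measure_mono fun x hx => ⟨?_, show R ≤ ‖x‖ from ((le_max_left R 0).trans_lt hx).le⟩)
    have hx0 : x ≠ 0 := norm_pos_iff.1 ((le_max_right _ _).trans_lt hx)
    refine ne_of_gt ?_
    unfold yk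
    rw [setIntegral_pos_iff_support_of_nonneg_ae
      ((ae_restrict_mem measurableSet_Ioi).mono fun t ht => (hk_pos μ x ht).le) (hk_int_t hμ hx0)]
    have : Function.support (hk μ x) ∩ Ioi 0 = Ioi 0 :=
      inter_eq_right.2 fun t ht => (hk_pos μ x ht).ne'
    rw [this]
    simp

theorem yk_fourier {μ : ℝ} (hμ : 0 < μ) (k : E) :
    𝓕 (fun x : E => (yk μ x : ℂ)) k = ((4 * π ^ 2 * ‖k‖ ^ 2 + μ)⁻¹ : ℝ) := by
  rw [← exp_integral (by positivity), ← integral_complex_ofReal, fourier_eq]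
  have h1 : Integrable (fun p : E × ℝ => (𝐞 (-inner ℝ p.1 k) : ℂ) * (hk μ p.1 p.2 : ℂ))
      (volume.prod (volume.restrict (Ioi 0))) := by
    refine (hk_int2 hμ).ofReal.bdd_mul (c := 1) ?_ (Eventually.of_forall fun p => by simp)
    exact (continuous_subtype_val.comp
      (continuous_fourierChar.comp (by fun_prop))).aestronglyMeasurable
  have h2 := integral_integral_swap
    (f := fun (x : E) (t : ℝ) => (𝐞 (-inner ℝ x k) : ℂ) * (hk μ x t : ℂ)) h1
  simp only [Circle.smul_def, smul_eq_mul, yk]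
  simp_rw [← integral_complex_ofReal, ← integral_const_mul]
  rw [h2]
  refine setIntegral_congr_fun measurableSet_Ioi fun t ht => ?_
  have := hk_fourier (E := E) μ ht k
  rw [fourier_eq] at this
  simpa only [Circle.smul_def, smul_eq_mul] using this

end Pool.Agent.Lib.MP_dec75e_mp.SE
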