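import Pool.Agent.Lib.MP_dec75e_mp.SE.Rad

/-! Monotonicity of the density in the energy, resolvent form. -/

open MeasureTheory Filter Topology Metric

namespace Pool.Agent.Lib.MP_dec75e_mp.SE

variable {E : Type*} [NormedAddCommGroup E] [InnerProductSpace ℝ E] [FiniteDimensional ℝ E]
  [MeasurableSpace E] [BorelSpace E]

variable {Y v G U w : E → ℝ} {μ m c : ℝ}

theorem pair_src (hv : Integrable v) (hG : NI G) (hU : U01 U) (hi : Integrable U) (hw : U01 w) :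
    ∫ y, w y * src v m c G U y = (∫ y, v y * w y) - (∫ y, v y * w y * U y)
      + m * (∫ y, w y * U y) + c * ∫ y, w y * cv G U y := by
  have j1 := hw.bm.int_mul hv
  have j2 := hU.bm.int_mul j1
  have j3 := (hw.bm.mul_int hi).const_mul m
  have j4 := (hw.bm.mul_int (integrable_cv hG.int hi)).const_mul c
  rw [← integral_const_mul, ← integral_const_mul, ← integral_sub j1 j2,
    ← integral_add (isub j1 j2) j3, ← integral_add (iadd (isub j1 j2) j3) j4]
  congr with y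
  unfold src
  ring

theorem src_pair (hv : Integrable v) (hG : NI G) (he : ∀ x, G (-x) = G x) (hU : U01 U)
    (hi : Integrable U) (hw : U01 w) :
    ∫ y, src v m c G w y * U y = (∫ y, v y * U y) - (∫ y, v y * w y * U y)
      + m * (∫ y, w y * U y) + c * ∫ y, w y * cv G U y := by
  have j1 := hU.bm.int_mul hv
  have j2 := hU.bm.int_mul (hw.bm.int_mul hv)
  have j3 := (hw.bm.mul_int hi).const_mul m
  have hb : BM (cv G w) := BM.of_bounds (measurable_cv hG.meas hw.meas) (cv_nonneg hG.nn hw.nn)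
    (cv_le hG.int hG.nn hw.bm hw.le)
  have j4 := (hb.mul_int hi).const_mul c
  rw [cv_dual hG.int he hw.bm hi, ← integral_const_mul, ← integral_const_mul, ← integral_sub j1 j2,
    ← integral_add (isub j1 j2) j3, ← integral_add (iadd (isub j1 j2) j3) j4]
  congr with y
  unfold src
  ring

theorem exists_ball [Nontrivial E] (C : ℝ) : ∃ R : ℝ, C ≤ volume.real (ball (0 : E) R) := by
  have hb : 0 < volume.real (ball (0 : E) 1) :=
    ENNReal.toReal_pos (measure_ball_pos _ _ one_pos).ne' measure_ball_lt_top.ne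
  set b := volume.real (ball (0 : E) 1) with hbd
  refine ⟨max 1 (C / b), ?_⟩
  have h1 : (1 : ℝ) ≤ max 1 (C / b) := le_max_left _ _
  rw [measureReal_def, Measure.addHaar_ball_of_pos _ _ (by linarith), ENNReal.toReal_mul,
    ENNReal.toReal_ofReal (by positivity), ← measureReal_def, ← hbd, ← div_le_iff₀ hb]
  exact (le_max_right _ _).trans (le_self_pow₀ h1 Module.finrank_pos.ne')

theorem RD.mul_ball_le (hw : U01 w) (rw' : RD w) (hi : Integrable w) {R : ℝ} {x : E}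
    (hx : R ≤ ‖x‖) : volume.real (ball (0 : E) R) * w x ≤ ∫ y, w y := by
  calc _ = ∫ _ in ball (0 : E) R, w x := by rw [setIntegral_const, smul_eq_mul]
    _ ≤ ∫ y in ball (0 : E) R, w y := by
        refine setIntegral_mono_on (integrableOn_const measure_ball_lt_top.ne) hi.integrableOn
          measurableSet_ball fun y hy => rw' _ _ ?_
        exact (mem_ball_zero_iff.1 hy).le.trans hx
    _ ≤ _ := setIntegral_le_integral hi (Eventually.of_forall hw.nn)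

theorem mono_rd [Nontrivial E] {e₁ e₂ ρ₁ ρ₂ : ℝ} {u₁ u₂ : E → ℝ} (hv : Pot0 v) (he₁ : 0 < e₁)
    (he : e₁ < e₂) (hρ₁ : 0 < ρ₁) (hρ₂ : 0 < ρ₂) (h₁ : Sol v e₁ ρ₁ u₁) (h₂ : Sol v e₂ ρ₂ u₂)
    (r₁ : RD u₁) (r₂ : RD u₂) : ρ₁ < ρ₂ := by
  by_contra hcon
  rw [not_lt] at hcon
  have he₂ : 0 < e₂ := he₁.trans he
  have n₁ := h₁.ni
  have n₂ := h₂.ni
  have m₁ := h₁.mass hv he₁
  have m₂ := h₂.mass hv he₂
  let G : E → ℝ := fun y => ρ₁ / 2 * u₁ y + ρ₂ / 2 * u₂ y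
  have nG : NI G := ⟨(measurable_const.mul n₁.meas).add (measurable_const.mul n₂.meas),
    fun y => add_nonneg (mul_nonneg (by positivity) (n₁.nn y)) (mul_nonneg (by positivity) (n₂.nn y)),
    iadd (n₁.int.const_mul _) (n₂.int.const_mul _)⟩
  have rG : RD G := fun x y h => add_le_add
    (mul_le_mul_of_nonneg_left (r₁ x y h) (by positivity))
    (mul_le_mul_of_nonneg_left (r₂ x y h) (by positivity))
  have G1 : ∫ y, G y = 1 := by
    rw [integral_add (n₁.int.const_mul _) (n₂.int.const_mul _), integral_const_mul,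
      integral_const_mul]
    linarith
  have Gev : ∀ x, G (-x) = G x := fun x => rG.eq (norm_neg x)
  have k₁ := h₁.con
  have k₂ := h₂.con
  set V := ∫ y, v y with hV
  have V0 : 0 < V := by
    have h1 : 0 ≤ ∫ y, v y * u₁ y := integral_nonneg fun y => mul_nonneg (hv.nn y) (n₁.nn y)
    have h2 : 0 < ρ₁ * (V - ∫ y, v y * u₁ y) := by linarith
    have := (mul_pos_iff_of_pos_left hρ₁).1 h2
    linarith
  have hd : 0 < e₂ - e₁ := by linarith
  set C := V / (e₂ - e₁) with hC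
  have C0 : 0 < C := div_pos V0 hd
  obtain ⟨R, hR⟩ := exists_ball (E := E) (2 * C)
  set t := ∫ x in {x : E | R ≤ ‖x‖}, cv u₂ u₁ x with ht
  have t0 : 0 < t := (h₂.tail hv he₂ hρ₂).cv n₂.int n₂.nn n₂.meas (fun x => r₂.eq (norm_neg x))
    n₁.int n₁.nn ((mul_pos_iff_of_pos_left hρ₁).1 (by linarith)) R
  set ε := e₂ * ρ₁ * t / (2 * C) with hε
  have ε0 : 0 < ε := by positivity
  obtain ⟨M, p, hp, pv, pδ⟩ := hv.trunc (δ := ε / ρ₁) (by positivity)
  have M0 : 0 ≤ M := (hp.nn 0).trans (hp.le 0)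
  obtain ⟨μ, rfl⟩ : ∃ μ, M = μ - 4 * e₂ - ε := ⟨M + 4 * e₂ + ε, by ring⟩
  have hμ : 0 < μ := by linarith
  have hY := yk_ker (E := E) hμ
  have c0 : 0 ≤ 4 * e₂ := by positivity
  obtain ⟨w, uw, rw', iw, hw⟩ := exists_w hY hp c0 nG rG G1 ε0 (by ring)
  set a := src p (μ - 4 * e₂ - ε) (4 * e₂) G w with ha
  have hwa : w = cv (yk μ) a := funext hw
  have ba : BM a := src_bm hp c0 nG uw
  have ra : RD a := src_rd hp c0 nG uw rG rw'
  have jv := uw.bm.int_mul hv.int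
  have jp := uw.bm.int_mul hp.int
  -- mass identity
  have M1 : ε * ∫ y, w y ≤ V - ∫ y, v y * w y := by
    have h1 : ∫ y, w y = (∫ y : E, yk μ y) * ∫ y, a y := by
      conv_lhs => rw [hwa]
      exact integral_cv hY.int (src_int hp.int nG uw iw)
    rw [hY.mass, ha, src_integral hp.int nG uw iw, G1] at h1
    have h2 := (eq_inv_mul_iff_mul_eq₀ hμ.ne').1 h1
    have h3 : (∫ y, p y) - ∫ y, p y * w y ≤ V - ∫ y, v y * w y := by
      rw [hV, ← integral_sub hp.int jp, ← integral_sub hv.int jv]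
      refine integral_mono_ae (isub hp.int jp) (isub hv.int jv) (pv.mono fun y hy => ?_)
      have := mul_nonneg (sub_nonneg.2 hy) (sub_nonneg.2 (uw.le y))
      simp only
      linarith
    linarith
  -- duality
  have dual : ∀ {e ρ : ℝ} {u : E → ℝ}, Sol v e ρ u →
      ∫ y, w y * src v (μ - 4 * e) (2 * e * ρ) u u y = ∫ y, a y * u y := by
    intro e ρ u h
    have := cv_dual hY.int hY.even ba (h.srci hv.int (μ - 4 * e) (2 * e * ρ))
    rw [← hwa] at this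
    rw [← this]
    exact integral_congr_ae ((h.eq μ hμ).mono fun y hy => by simp only [← hy])
  have split : ∀ {u : E → ℝ}, U01 u → Integrable u → ∫ y, w y * cv G u y
      = ρ₁ / 2 * (∫ y, w y * cv u₁ u y) + ρ₂ / 2 * ∫ y, w y * cv u₂ u y := by
    intro u h hi
    rw [← integral_const_mul, ← integral_const_mul,
      ← integral_add ((uw.bm.mul_int (integrable_cv n₁.int hi)).const_mul _)
        ((uw.bm.mul_int (integrable_cv n₂.int hi)).const_mul _)]
    congr with y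
    have : cv G u y = ρ₁ / 2 * cv u₁ u y + ρ₂ / 2 * cv u₂ u y := by
      unfold cv
      rw [← integral_const_mul, ← integral_const_mul,
        ← integral_add ((h.bm.int_cv n₁.int y).const_mul _) ((h.bm.int_cv n₂.int y).const_mul _)]
      congr with z
      simp only [G]
      ring
    rw [this]
    ring
  have err : ∀ {u : E → ℝ}, U01 u →
      0 ≤ (∫ y, v y * u y) - (∫ y, v y * w y * u y) - ((∫ y, p y * u y) - ∫ y, p y * w y * u y) ∧
      (∫ y, v y * u y) - (∫ y, v y * w y * u y) - ((∫ y, p y * u y) - ∫ y, p y * w y * u y)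
        ≤ V - ∫ y, p y := by
    intro u h
    have j1 := isub (h.bm.int_mul hv.int) (h.bm.int_mul jv)
    have j2 := isub (h.bm.int_mul hp.int) (h.bm.int_mul jp)
    rw [hV, ← integral_sub (h.bm.int_mul hv.int) (h.bm.int_mul jv),
      ← integral_sub (h.bm.int_mul hp.int) (h.bm.int_mul jp), ← integral_sub j1 j2,
      ← integral_sub hv.int hp.int]
    have hb : ∀ y, 0 ≤ u y * (1 - w y) ∧ u y * (1 - w y) ≤ 1 := fun y =>
      ⟨mul_nonneg (h.nn y) (sub_nonneg.2 (uw.le y)),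
        mul_le_one₀ (h.le y) (sub_nonneg.2 (uw.le y)) (by linarith [uw.nn y])⟩
    constructor
    · refine integral_nonneg_of_ae (pv.mono fun y hy => ?_)
      have := mul_nonneg (sub_nonneg.2 hy) (hb y).1
      simp only [Pi.zero_apply]
      linarith
    · refine integral_mono_ae (isub j1 j2) (isub hv.int hp.int) (pv.mono fun y hy => ?_)
      have := mul_nonneg (sub_nonneg.2 hy) (sub_nonneg.2 (hb y).2)
      simp only
      linarith
  have D₁ := dual h₁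
  have D₂ := dual h₂
  have Dir := dirichlet hY.int hY.nn hY.even ra r₁ ba h₁.u01.bm h₁.int
  rw [← hwa, hY.mass, ← D₁, le_inv_mul_iff₀ hμ, pair_src hv.int n₁ h₁.u01 h₁.int uw] at Dir
  rw [pair_src hv.int n₁ h₁.u01 h₁.int uw, ha, src_pair hp.int nG Gev h₁.u01 h₁.int uw,
    split h₁.u01 h₁.int] at D₁
  rw [pair_src hv.int n₂ h₂.u01 h₂.int uw, ha, src_pair hp.int nG Gev h₂.u01 h₂.int uw,
    split h₂.u01 h₂.int, ← cv_comm u₂ u₁] at D₂
  have Che := chebyshev hv.int hv.nn rw' r₁ uw h₁.u01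
  rw [← hV] at Che
  have E₁ := (err h₁.u01).2
  have E₂ := (err h₂.u01).1
  have b₁ : ρ₁ * ∫ y, w y * u₁ y ≤ 1 := by
    rw [← m₁]
    refine mul_le_mul_of_nonneg_left (integral_mono (uw.bm.mul_int h₁.int) h₁.int fun y => ?_) hρ₁.le
    exact mul_le_of_le_one_left (n₁.nn y) (uw.le y)
  have b₂ : 0 ≤ ρ₂ * ∫ y, w y * u₂ y :=
    mul_nonneg hρ₂.le (integral_nonneg fun y => mul_nonneg (uw.nn y) (n₂.nn y))
  have W0 : 0 ≤ ∫ y, w y := integral_nonneg uw.nn
  have tl : (∀ x : E, R ≤ ‖x‖ → w x ≤ 1 / 2) →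
      ∫ y, w y * cv u₂ u₁ y ≤ (∫ y, u₂ y) * (∫ y, u₁ y) - t / 2 := by
    intro half
    have hs : MeasurableSet {x : E | R ≤ ‖x‖} := measurableSet_le measurable_const measurable_norm
    have j1 := integrable_cv n₂.int n₁.int
    have j2 := (j1.indicator hs).div_const 2
    rw [← integral_cv n₂.int n₁.int, ht, ← integral_indicator hs, ← integral_div,
      ← integral_sub j1 j2]
    refine integral_mono (uw.bm.mul_int j1) (isub j1 j2) fun y => ?_
    have h0 := cv_nonneg n₂.nn n₁.nn y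
    simp only
    by_cases hy : y ∈ {x : E | R ≤ ‖x‖}
    · rw [Set.indicator_of_mem hy]
      have := mul_le_mul_of_nonneg_right (half y hy) h0
      linarith
    · rw [Set.indicator_of_notMem hy]
      have := mul_le_mul_of_nonneg_right (uw.le y) h0
      linarith
  generalize ∫ y, v y * w y = Vw at *
  generalize ∫ y, w y * u₁ y = β₁ at *
  generalize ∫ y, w y * u₂ y = β₂ at *
  generalize ∫ y, v y * u₁ y = γ₁ at *
  generalize ∫ y, v y * u₂ y = γ₂ at *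
  generalize ∫ y, p y * u₁ y = γ₁' at *
  generalize ∫ y, p y * u₂ y = γ₂' at *
  generalize ∫ y, w y * cv u₁ u₁ y = A₁ at *
  generalize ∫ y, w y * cv u₂ u₁ y = A₂ at *
  generalize ∫ y, w y * cv u₂ u₂ y = A₃ at *
  generalize ∫ y, v y * w y * u₁ y = T₁ at *
  generalize ∫ y, v y * w y * u₂ y = T₂ at *
  generalize ∫ y, p y * w y * u₁ y = T₁' at *
  generalize ∫ y, p y * w y * u₂ y = T₂' at *
  have X0 : 0 ≤ V - Vw := (mul_nonneg ε0.le W0).trans M1
  have I1 : 2 * (e₂ - e₁) * (1 - 2 * ρ₁ * β₁ + ρ₁ ^ 2 * A₁)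
      = ε * (ρ₁ * β₁ - ρ₂ * β₂) - (ρ₁ - ρ₂) * (V - Vw) + ρ₁ * (γ₁ - T₁ - (γ₁' - T₁'))
        - ρ₂ * (γ₂ - T₂ - (γ₂' - T₂')) := by
    linear_combination (-ρ₁) * D₁ + ρ₂ * D₂ + k₁ - k₂
  have I2 : V - Vw ≤ V * (1 - 2 * ρ₁ * β₁ + ρ₁ ^ 2 * A₁) := by
    have h2 : V - Vw - γ₁ + T₁ ≤ V - γ₁ - 4 * e₁ * β₁ + 2 * e₁ * ρ₁ * A₁ := by linarith
    have h3 := mul_le_mul_of_nonneg_left h2 V0.le
    have h4 : (V - Vw) * (V - γ₁) ≤ V * (V - γ₁ - 4 * e₁ * β₁ + 2 * e₁ * ρ₁ * A₁) := by linarith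
    have h5 := mul_le_mul_of_nonneg_left h4 hρ₁.le
    refine le_of_mul_le_mul_left (a := 2 * e₁) ?_ (by positivity)
    calc 2 * e₁ * (V - Vw) = ρ₁ * ((V - Vw) * (V - γ₁)) := by linear_combination (Vw - V) * k₁
      _ ≤ _ := h5
      _ = _ := by linear_combination V * k₁
  have I3 : V - Vw ≤ ε * C := by
    have h2 := mul_nonneg (sub_nonneg.2 hcon) X0
    have h3 : ε * (ρ₁ * β₁ - ρ₂ * β₂) ≤ ε * 1 := mul_le_mul_of_nonneg_left (by linarith) ε0.le
    have h4 := mul_le_mul_of_nonneg_left (E₁.trans pδ) hρ₁.le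
    rw [mul_div_cancel₀ _ hρ₁.ne'] at h4
    have h5 := mul_nonneg hρ₂.le E₂
    have h6 : (1 - 2 * ρ₁ * β₁ + ρ₁ ^ 2 * A₁) * (e₂ - e₁) ≤ ε := by linarith
    have h7 := mul_le_mul_of_nonneg_left ((le_div_iff₀ hd).2 h6) V0.le
    rw [hC]
    exact (I2.trans h7).trans_eq (by ring)
  have I4 : ∫ y, w y ≤ C := le_of_mul_le_mul_left (M1.trans I3) ε0
  have half : ∀ x : E, R ≤ ‖x‖ → w x ≤ 1 / 2 := by
    intro x hx
    have h1 := rw'.mul_ball_le uw iw hx
    have h2 := mul_le_mul_of_nonneg_right hR (uw.nn x)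
    refine le_of_mul_le_mul_left (a := 2 * C) ?_ (by positivity)
    linarith
  have I5 := mul_le_mul_of_nonneg_left (tl half) (by positivity : 0 ≤ 2 * e₂ * ρ₁ * ρ₂)
  have I6 : 2 * e₂ * ρ₁ * ρ₂ * ((∫ y, u₂ y) * (∫ y, u₁ y) - t / 2)
      = 2 * e₂ - ρ₂ * (e₂ * ρ₁ * t) := by
    linear_combination (2 * e₂ * (ρ₂ * ∫ y, u₂ y)) * m₁ + 2 * e₂ * m₂
  have I7 : ρ₂ * (V - Vw) = 2 * e₂ - 2 * e₂ * ρ₁ * ρ₂ * A₂ + ε * (ρ₂ * β₂)
      + ρ₂ * (γ₂ - T₂ - (γ₂' - T₂')) := by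
    linear_combination (-ρ₂) * D₂ + k₂
  have I8 : ε * C = e₂ * ρ₁ * t / 2 := by rw [hε]; field_simp
  have I9 := mul_le_mul_of_nonneg_left (I3.trans_eq I8) hρ₂.le
  have := mul_nonneg ε0.le b₂
  have := mul_nonneg hρ₂.le E₂
  have : 0 < ρ₂ * (e₂ * ρ₁ * t) := by positivity
  linarith

theorem mono_sol [Nontrivial E] {e₁ e₂ ρ₁ ρ₂ : ℝ} {u₁ u₂ : E → ℝ} (hv : Pot0 v) (he₁ : 0 < e₁)
    (he : e₁ < e₂) (hρ₁ : 0 < ρ₁) (hρ₂ : 0 < ρ₂) (h₁ : Sol v e₁ ρ₁ u₁) (h₂ : Sol v e₂ ρ₂ u₂) :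
    ρ₁ < ρ₂ := by
  obtain ⟨S₁, r₁, s₁⟩ := h₁.exists_rd hv he₁ hρ₁
  obtain ⟨S₂, r₂, s₂⟩ := h₂.exists_rd hv (he₁.trans he) hρ₂
  exact mono_rd hv he₁ he hρ₁ hρ₂ s₁ s₂ r₁ r₂

end Pool.Agent.Lib.MP_dec75e_mp.SE
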