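import Pool.Agent.Lib.MP_dec75e_mp.SE.Ker

/-! Solutions are radially non-increasing and have full tails. -/

open MeasureTheory Filter Topology

namespace Pool.Agent.Lib.MP_dec75e_mp.SE

variable {E : Type*} [NormedAddCommGroup E] [InnerProductSpace ℝ E] [FiniteDimensional ℝ E]
  [MeasurableSpace E] [BorelSpace E]

/-- the potential, possibly unbounded at the origin -/
structure Pot0 (v : E → ℝ) : Prop where
  nn : ∀ x, 0 ≤ v x
  rd : RD0 v
  int : Integrable v

/-- a solution in resolvent form -/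
structure Sol (v : E → ℝ) (e ρ : ℝ) (u : E → ℝ) : Prop where
  u01 : U01 u
  int : Integrable u
  eq : ∀ μ : ℝ, 0 < μ → u =ᵐ[volume] cv (yk μ) (src v (μ - 4 * e) (2 * e * ρ) u u)
  con : ρ * ((∫ y, v y) - ∫ y, v y * u y) = 2 * e

variable {v u : E → ℝ} {e ρ : ℝ}

theorem Pot0.trunc [Nontrivial E] (hv : Pot0 v) {δ : ℝ} (hδ : 0 < δ) :
    ∃ M p, Pot p M ∧ p ≤ᵐ[volume] v ∧ (∫ y, v y) - ∫ y, p y ≤ δ := by
  classical
  have a0 : ∀ᵐ z : E, z ≠ 0 := compl_mem_ae_iff.2 (measure_singleton 0)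
  have lim : Tendsto (fun n : ℕ => ∫ y, min (v y) n) atTop (𝓝 (∫ y, v y)) := by
    refine tendsto_integral_of_dominated_convergence v
      (fun n => hv.int.aestronglyMeasurable.inf aestronglyMeasurable_const) hv.int
      (fun n => Eventually.of_forall fun y => ?_) (Eventually.of_forall fun y => ?_)
    · rw [Real.norm_of_nonneg (le_min (hv.nn y) n.cast_nonneg)]
      exact min_le_left _ _
    · refine tendsto_const_nhds.congr' ?_
      filter_upwards [tendsto_natCast_atTop_atTop.eventually_ge_atTop (v y)] with n hn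
      exact (min_eq_left hn).symm
  obtain ⟨n, hn⟩ := (lim.eventually_const_lt (sub_lt_self _ hδ)).exists
  let p : E → ℝ := fun x => if x = 0 then n else min (v x) n
  have hp : p =ᵐ[volume] fun y => min (v y) n := a0.mono fun x hx => if_neg hx
  have p0 : ∀ x, 0 ≤ p x := fun x => by
    simp only [p]; split_ifs
    · exact n.cast_nonneg
    · exact le_min (hv.nn x) n.cast_nonneg
  have p1 : ∀ x, p x ≤ n := fun x => by
    simp only [p]; split_ifs
    · exact le_rfl
    · exact min_le_right _ _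
  have p2 : p ≤ᵐ[volume] v := hp.mono fun x hx => hx.le.trans (min_le_left _ _)
  have p3 : RD p := fun x y h => by
    by_cases hx : x = 0
    · exact (p1 y).trans_eq (if_pos hx).symm
    · have hy : y ≠ 0 := norm_pos_iff.1 ((norm_pos_iff.2 hx).trans_le h)
      simp only [p, if_neg hx, if_neg hy]
      exact min_le_min_right _ (hv.rd x y hx h)
  refine ⟨n, p, ⟨p0, p3, hv.int.mono' p3.measurable.aestronglyMeasurable
    (p2.mono fun x hx => by rwa [Real.norm_of_nonneg (p0 x)]), p1⟩, p2, ?_⟩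
  rw [integral_congr_ae hp]
  linarith

theorem cv_mono_left {G G' U : E → ℝ} (hG : Integrable G) (hG' : Integrable G') (hU : U01 U)
    (h : G ≤ᵐ[volume] G') (x : E) : cv G U x ≤ cv G' U x :=
  integral_mono_ae (hU.bm.int_cv hG x) (hU.bm.int_cv hG' x)
    (h.mono fun _ hz => mul_le_mul_of_nonneg_right hz (hU.nn _))

theorem cv_mono_ae {K b b' : E → ℝ} (hK : Integrable K) (h0 : ∀ x, 0 ≤ K x) (hb : Integrable b)
    (hb' : Integrable b') (h : b ≤ᵐ[volume] b') : cv K b ≤ᵐ[volume] cv K b' := by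
  rw [cv_comm K b, cv_comm K b']
  filter_upwards [hb.ae_convolution_exists (ContinuousLinearMap.mul ℝ ℝ) hK,
    hb'.ae_convolution_exists (ContinuousLinearMap.mul ℝ ℝ) hK] with x h1 h2
  exact integral_mono_ae h1 h2 (h.mono fun _ hz => mul_le_mul_of_nonneg_right hz (h0 _))

theorem Sol.ni (hu : Sol v e ρ u) : NI u := NI.of hu.u01 hu.int

theorem Sol.srci (hu : Sol v e ρ u) (hv : Integrable v) (m c : ℝ) :
    Integrable (src v m c u u) := src_int hv hu.ni hu.u01 hu.int

theorem Sol.mass [Nontrivial E] (hu : Sol v e ρ u) (hv : Pot0 v) (he : 0 < e) :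
    ρ * ∫ y, u y = 1 := by
  have hY := yk_ker (E := E) one_pos
  have h1 := integral_congr_ae (hu.eq 1 one_pos)
  rw [integral_cv hY.int (hu.srci hv.int _ _), hY.mass,
    src_integral hv.int hu.ni hu.u01 hu.int] at h1
  set x := ∫ y, u y
  have h3 : 2 * e * (ρ * x - 1) ^ 2 = 0 := by linear_combination (-ρ) * h1 - hu.con
  have h4 : (ρ * x - 1) ^ 2 = 0 := by
    rcases mul_eq_zero.1 h3 with h | h
    · linarith
    · exact h
  have := pow_eq_zero_iff two_ne_zero |>.1 h4
  linarith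

theorem Sol.congr {S : E → ℝ} (hu : Sol v e ρ u) (hS : U01 S) (h : S =ᵐ[volume] u) :
    Sol v e ρ S := by
  refine ⟨hS, hu.int.congr h.symm, fun μ hμ => ?_, ?_⟩
  · rw [cv_congr (src_congr h h)]
    exact h.trans (hu.eq μ hμ)
  · have : ∫ y, v y * S y = ∫ y, v y * u y :=
      integral_congr_ae (h.mono fun y hy => by simp only [hy])
    rw [this, hu.con]

theorem Sol.approx [Nontrivial E] (hu : Sol v e ρ u) (hv : Pot0 v) (he : 0 < e) (hρ : 0 < ρ)
    {η : ℝ} (hη : 0 < η) :
    ∃ U : E → ℝ, (U01 U ∧ RD U ∧ U ≤ᵐ[volume] u) ∧ 1 - η ≤ ρ * ∫ y, U y := by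
  obtain ⟨M, p, hp, pv, pδ⟩ := hv.trunc (δ := e * η ^ 2 / ρ) (by positivity)
  have M0 : 0 ≤ M := (hp.nn 0).trans (hp.le 0)
  obtain ⟨μ, rfl⟩ : ∃ μ, M = μ - 4 * e := ⟨M + 4 * e, by ring⟩
  have hμ : 0 < μ := by linarith
  have hY := yk_ker (E := E) hμ
  have hc : 0 ≤ 2 * e * ρ := by positivity
  have hm := hu.mass hv he
  let Φ : (E → ℝ) → E → ℝ := fun U => cv (yk μ) (src p (μ - 4 * e) (2 * e * ρ) U U)
  let P : (E → ℝ) → Prop := fun U => U01 U ∧ RD U ∧ U ≤ᵐ[volume] u
  have pi : ∀ U, P U → Integrable U := fun U h =>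
    hu.int.mono' h.1.meas.aestronglyMeasurable (h.2.2.mono fun x hx => by
      rwa [Real.norm_of_nonneg (h.1.nn x)])
  have pn : ∀ U, P U → NI U := fun U h => NI.of h.1 (pi U h)
  have step : ∀ U, P U → P (Φ U) := by
    intro U h
    have hb := src_bm hp hc (pn U h) h.1
    refine ⟨⟨measurable_cv hY.meas hb.1, cv_nonneg hY.nn (src_nn hp hc h.1.nn h.1), fun x => ?_⟩,
      hY.rd.cv (src_rd hp hc (pn U h) h.1 h.2.1 h.2.1) hY.int hb, ?_⟩
    · refine (cv_le hY.int hY.nn hb (src_le hp hc (pn U h) h.1) x).trans ?_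
      have h1 := mul_le_mul_of_nonneg_left (integral_mono_ae (pi U h) hu.int h.2.2) hc
      rw [mul_assoc (2 * e) ρ (∫ y, u y), hm] at h1
      rw [hY.mass, inv_mul_le_iff₀ hμ]
      linarith
    · refine (cv_mono_ae hY.int hY.nn (src_int hp.int (pn U h) h.1 (pi U h))
        (hu.srci hv.int (μ - 4 * e) (2 * e * ρ)) ?_).trans (hu.eq μ hμ).symm.le
      filter_upwards [h.2.2, pv] with y h1 h2
      have a1 : cv U U y ≤ cv u U y := cv_mono_left (pi U h) hu.int h.1 h.2.2 y
      have a2 : cv U u y ≤ cv u u y := cv_mono_left (pi U h) hu.int hu.u01 h.2.2 y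
      rw [cv_comm U u] at a2
      have a3 := mul_le_mul_of_nonneg_left (a1.trans a2) hc
      have a4 := mul_le_mul_of_nonneg_left h1 (sub_nonneg.2 (hp.le y))
      have a5 := mul_nonneg (sub_nonneg.2 h2) (sub_nonneg.2 (hu.u01.le y))
      unfold src
      linarith
  let W : ℕ → E → ℝ := fun n => Φ^[n] 0
  have Ws : ∀ n, W (n + 1) = Φ (W n) := fun n => Function.iterate_succ_apply' _ _ _
  have PW : ∀ n, P (W n) := by
    intro n
    induction n with
    | zero => exact ⟨⟨measurable_const, fun _ => le_rfl, fun _ => zero_le_one⟩,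
        fun _ _ _ => le_rfl, Eventually.of_forall hu.u01.nn⟩
    | succ n ih => rw [Ws]; exact step _ ih
  by_contra hcon
  let a : ℕ → ℝ := fun n => ρ * ∫ y, W n y
  have a1 : ∀ n, a n < 1 - η := fun n => lt_of_not_ge fun h => hcon ⟨W n, PW n, h⟩
  have a0 : a 0 = 0 := by simp [a, W]
  have a2 : ∀ n, μ * a n + 2 * e * (1 - a n) ^ 2 - e * η ^ 2 ≤ μ * a (n + 1) := by
    intro n
    have h1 : ∫ y, W (n + 1) y
        = (∫ y : E, yk μ y) * ∫ y, src p (μ - 4 * e) (2 * e * ρ) (W n) (W n) y := by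
      rw [Ws]
      exact integral_cv hY.int (src_int hp.int (pn _ (PW n)) (PW n).1 (pi _ (PW n)))
    rw [hY.mass, src_integral hp.int (pn _ (PW n)) (PW n).1 (pi _ (PW n))] at h1
    have h2 : ∫ y, p y * W n y ≤ ∫ y, v y * u y := by
      refine integral_mono_ae ((PW n).1.bm.int_mul hp.int) (hu.u01.bm.int_mul hv.int) ?_
      filter_upwards [(PW n).2.2, pv] with y h1 h2
      exact mul_le_mul h2 h1 ((PW n).1.nn y) (hv.nn y)
    have h3 := mul_le_mul_of_nonneg_left h2 hρ.le
    have h4 := hu.con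
    have h5 := (eq_inv_mul_iff_mul_eq₀ hμ.ne').1 h1
    have h6 : μ * a (n + 1) = ρ * (μ * ∫ y, W (n + 1) y) := by simp only [a]; ring
    have h7 := (le_div_iff₀ hρ).1 pδ
    rw [h6, h5]
    simp only [a]
    linarith
  have a3 : ∀ n : ℕ, n * (e * η ^ 2) ≤ μ * a n := by
    intro n
    induction n with
    | zero => simp [a0]
    | succ n ih =>
      have h1 : η ^ 2 ≤ (1 - a n) ^ 2 := pow_le_pow_left₀ hη.le (by linarith [a1 n]) 2
      have h2 := mul_le_mul_of_nonneg_left h1 (by positivity : 0 ≤ 2 * e)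
      have := a2 n
      push_cast
      linarith
  have hp' : 0 < e * η ^ 2 := by positivity
  obtain ⟨n, hn⟩ := exists_nat_gt (μ / (e * η ^ 2))
  rw [div_lt_iff₀ hp'] at hn
  have := a3 n
  have := mul_le_mul_of_nonneg_left (show a n ≤ 1 by linarith [a1 n]) hμ.le
  linarith

theorem Sol.exists_rd [Nontrivial E] (hu : Sol v e ρ u) (hv : Pot0 v) (he : 0 < e) (hρ : 0 < ρ) :
    ∃ S : E → ℝ, RD S ∧ Sol v e ρ S := by
  choose W hW hm using fun n : ℕ => hu.approx hv he hρ (Nat.one_div_pos_of_nat (n := n))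
  have bdd : ∀ x, BddAbove (Set.range fun n => W n x) := fun x =>
    ⟨1, by rintro _ ⟨n, rfl⟩; exact (hW n).1.le x⟩
  let S : E → ℝ := fun x => ⨆ n, W n x
  have WS : ∀ n x, W n x ≤ S x := fun n x => le_ciSup (bdd x) n
  have rS : RD S := fun x y h => ciSup_le fun n => ((hW n).2.1 x y h).trans (WS n x)
  have uS : U01 S := ⟨rS.measurable, fun x => ((hW 0).1.nn x).trans (WS 0 x),
    fun x => ciSup_le fun n => (hW n).1.le x⟩
  have Su : S ≤ᵐ[volume] u := (ae_all_iff.2 fun n => (hW n).2.2).mono fun x hx => ciSup_le hx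
  have pi : ∀ U, U01 U → U ≤ᵐ[volume] u → Integrable U := fun U h h' =>
    hu.int.mono' h.meas.aestronglyMeasurable (h'.mono fun x hx => by
      rwa [Real.norm_of_nonneg (h.nn x)])
  refine ⟨S, rS, hu.congr uS ((integral_eq_iff_of_ae_le (pi S uS Su) hu.int Su).1 ?_)⟩
  refine le_antisymm (integral_mono_ae (pi S uS Su) hu.int Su) (le_of_mul_le_mul_left ?_ hρ)
  rw [hu.mass hv he]
  refine le_of_forall_pos_le_add fun η hη => ?_
  obtain ⟨n, hn⟩ := exists_nat_one_div_lt hη
  have := mul_le_mul_of_nonneg_left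
    (integral_mono (pi _ (hW n).1 (hW n).2.2) (pi S uS Su) (WS n)) hρ.le
  linarith [hm n]

/-- positive mass outside every ball -/
def Tail (K : E → ℝ) : Prop := ∀ R : ℝ, 0 < ∫ x in {x : E | R ≤ ‖x‖}, K x

theorem Tail.cv {K S : E → ℝ} (hT : Tail K) (hK : Integrable K) (h0 : ∀ x, 0 ≤ K x)
    (hm : Measurable K) (he : ∀ x, K (-x) = K x) (hS : Integrable S) (S0 : ∀ x, 0 ≤ S x)
    (S1 : 0 < ∫ x, S x) : Tail (cv K S) := by
  intro R
  have hs : ∀ R : ℝ, MeasurableSet {x : E | R ≤ ‖x‖} := fun R =>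
    measurableSet_le measurable_const measurable_norm
  let I : E → ℝ := {x : E | R ≤ ‖x‖}.indicator 1
  have uI : U01 I := ⟨measurable_const.indicator (hs R),
    fun x => Set.indicator_nonneg (fun _ _ => zero_le_one) x,
    fun x => Set.indicator_le_self' (fun _ _ => zero_le_one) x⟩
  have h1 : ∫ x in {x : E | R ≤ ‖x‖}, SE.cv K S x = ∫ x, I x * SE.cv K S x := by
    rw [← integral_indicator (hs R)]
    congr with x
    by_cases hx : x ∈ {x : E | R ≤ ‖x‖}
    · simp only [I, Set.indicator_of_mem hx, Pi.one_apply, one_mul]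
    · simp only [I, Set.indicator_of_notMem hx, zero_mul]
  have h2 : ∀ y, 0 < SE.cv K I y := by
    intro y
    refine (hT (R + ‖y‖)).trans_le ?_
    rw [← integral_indicator (hs _)]
    refine integral_mono (hK.indicator (hs _)) (uI.bm.int_cv hK y) fun z => ?_
    by_cases hz : z ∈ {x : E | R + ‖y‖ ≤ ‖x‖}
    · have : y - z ∈ {x : E | R ≤ ‖x‖} := by
        have h3 := norm_sub_norm_le z y
        rw [norm_sub_rev] at h3
        have h4 : R + ‖y‖ ≤ ‖z‖ := hz
        show R ≤ ‖y - z‖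
        linarith
      simp only [I, Set.indicator_of_mem hz, Set.indicator_of_mem this, Pi.one_apply, mul_one,
        le_refl]
    · rw [Set.indicator_of_notMem hz]
      exact mul_nonneg (h0 z) (uI.nn _)
  have bI : BM (SE.cv K I) := BM.of_bounds (measurable_cv hm uI.meas) (fun y => (h2 y).le)
    (cv_le hK h0 uI.bm uI.le)
  rw [h1, cv_dual hK he uI.bm hS, integral_pos_iff_support_of_nonneg
    (fun y => mul_nonneg (h2 y).le (S0 y)) (bI.mul_int hS)]
  rw [integral_pos_iff_support_of_nonneg S0 hS] at S1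
  exact S1.trans_le (measure_mono fun y hy => mul_ne_zero (h2 y).ne' hy)

theorem Sol.tail [Nontrivial E] (hu : Sol v e ρ u) (hv : Pot0 v) (he : 0 < e) (hρ : 0 < ρ) :
    Tail u := by
  have hμ : 0 < 4 * e := by positivity
  have hY := yk_ker (E := E) hμ
  have hi := hu.srci hv.int (4 * e - 4 * e) (2 * e * ρ)
  have h1 := integral_congr_ae (hu.eq _ hμ)
  rw [integral_cv hY.int hi, hY.mass] at h1
  have h2 : 0 < ∫ y, u y := by
    have := hu.mass hv he
    by_contra h
    nlinarith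
  have h3 := Tail.cv hY.tail hY.int hY.nn hY.meas hY.even hi (fun y => ?_)
    (by rw [h1] at h2; exact (mul_pos_iff_of_pos_left (inv_pos.2 hμ)).1 h2)
  · intro R
    rw [integral_congr_ae (ae_restrict_of_ae (hu.eq _ hμ))]
    exact h3 R
  · have a1 := mul_nonneg (hv.nn y) (sub_nonneg.2 (hu.u01.le y))
    have a2 := mul_nonneg (by positivity : 0 ≤ 2 * e * ρ) (cv_nonneg hu.u01.nn hu.u01.nn y)
    unfold src
    linarith

theorem chebyshev {a : E → ℝ} (hv : Integrable v) (h0 : ∀ x, 0 ≤ v x) (ha : RD a) (hu : RD u)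
    (hA : U01 a) (hU : U01 u) :
    (∫ x, v x * a x) * ∫ x, v x * u x ≤ (∫ x, v x) * ∫ x, v x * a x * u x := by
  have j1 := hA.bm.int_mul hv
  have j2 := hU.bm.int_mul hv
  have j3 := hU.bm.int_mul j1
  have pt : ∀ x, 0 ≤ (∫ y, v y) * (v x * a x * u x) - v x * a x * (∫ y, v y * u y)
      - (∫ y, v y * a y) * (v x * u x) + v x * ∫ y, v y * a y * u y := by
    intro x
    have : 0 ≤ ∫ y, (v y * (v x * a x * u x) - v x * a x * (v y * u y) - v y * a y * (v x * u x)
        + v x * (v y * a y * u y)) := by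
      apply integral_nonneg
      intro y
      have : 0 ≤ (a x - a y) * (u x - u y) := by
        rcases le_total ‖x‖ ‖y‖ with h | h
        · exact mul_nonneg (sub_nonneg.2 (ha _ _ h)) (sub_nonneg.2 (hu _ _ h))
        · exact mul_nonneg_of_nonpos_of_nonpos (sub_nonpos.2 (ha _ _ h)) (sub_nonpos.2 (hu _ _ h))
      have := mul_nonneg (mul_nonneg (h0 x) (h0 y)) this
      simp only [Pi.zero_apply]
      linarith
    have k1 := hv.mul_const (v x * a x * u x)
    have k2 := j2.const_mul (v x * a x)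
    have k3 := j1.mul_const (v x * u x)
    have k4 := j3.const_mul (v x)
    rw [integral_add (isub (isub k1 k2) k3) k4, integral_sub (isub k1 k2) k3, integral_sub k1 k2,
      integral_mul_const, integral_const_mul, integral_mul_const, integral_const_mul] at this
    exact this
  have k1 := j3.const_mul (∫ y, v y)
  have k2 := j1.mul_const (∫ y, v y * u y)
  have k3 := j2.const_mul (∫ y, v y * a y)
  have k4 := hv.mul_const (∫ y, v y * a y * u y)
  have : 0 ≤ ∫ x, ((∫ y, v y) * (v x * a x * u x) - v x * a x * (∫ y, v y * u y)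
      - (∫ y, v y * a y) * (v x * u x) + v x * ∫ y, v y * a y * u y) := integral_nonneg pt
  rw [integral_add (isub (isub k1 k2) k3) k4, integral_sub (isub k1 k2) k3, integral_sub k1 k2,
    integral_const_mul, integral_mul_const, integral_const_mul, integral_mul_const] at this
  linarith

end Pool.Agent.Lib.MP_dec75e_mp.SE
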